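import Pool.Agent.TH339.MP.Q3

/-!
# A hybrid mean value theorem and the number of ordered factorisations
-/

set_option autoImplicit false

namespace Pool.Agent.U309.LV

open MeasureTheory Finset
open scoped ComplexConjugate

/-- The number of the `j`-tuples of primes with a given product is at most `j!`. -/
lemma fiber_le (j : ℕ) (T : Finset ℕ) (hT : ∀ p ∈ T, p.Prime) (m : ℕ) :
    ((Fintype.piFinset fun _ : Fin j => T).filter (fun y => ∏ i, y i = m)).card ≤ j.factorial := by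
  classical
  rcases Finset.eq_empty_or_nonempty ((Fintype.piFinset fun _ : Fin j => T).filter
    (fun y => ∏ i, y i = m)) with h | ⟨y0, h0⟩
  · rw [h, card_empty]
    exact Nat.zero_le _
  have key : ∀ y ∈ (Fintype.piFinset fun _ : Fin j => T).filter (fun y => ∏ i, y i = m),
      (List.ofFn y).Perm m.primeFactorsList := by
    intro y hy
    rw [mem_filter, Fintype.mem_piFinset] at hy
    refine Nat.primeFactorsList_unique ?_ ?_
    · rw [List.prod_ofFn]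
      exact hy.2
    · intro p hp
      rw [List.mem_ofFn] at hp
      obtain ⟨i, rfl⟩ := hp
      exact hT _ (hy.1 i)
  have hlen : m.primeFactorsList.length = j := by
    rw [← (key y0 h0).length_eq, List.length_ofFn]
  have h1 : ((Fintype.piFinset fun _ : Fin j => T).filter (fun y => ∏ i, y i = m)).card ≤
      (m.primeFactorsList.permutations.toFinset).card := by
    refine card_le_card_of_injOn (fun y => List.ofFn y) ?_ ?_
    · intro y hy
      rw [mem_coe] at hy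
      rw [mem_coe, List.mem_toFinset, List.mem_permutations]
      exact key y hy
    · intro y _ z _ h
      exact List.ofFn_injective h
  refine h1.trans ((List.toFinset_card_le _).trans ?_)
  rw [List.length_permutations, hlen]

/-- The Gaussian mean value of a finite family of exponential sums. -/
lemma fam_gauss {κ ι : Type*} (X : Finset κ) (F : Finset ι) (c : κ → ι → ℂ) (u : ι → ℝ)
    (G : ι → ι → ℝ) (hG : ∀ p ∈ F, ∀ q ∈ F, ‖∑ χ ∈ X, c χ p * conj (c χ q)‖ ≤ G p q) :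
    ∑ χ ∈ X, ∫ τ in (0 : ℝ)..1, ‖∑ p ∈ F, c χ p * Complex.exp (-(τ * u p) * Complex.I)‖ ^ 2 ≤
      6 * ∑ p ∈ F, ∑ q ∈ F, G p q * Real.exp (-(u p - u q) ^ 2) := by
  set h : κ → ℝ → ℂ := fun χ τ => ∑ p ∈ F, c χ p * Complex.exp (-(τ * u p) * Complex.I) with hh
  have hcont : ∀ χ, Continuous (h χ) := by
    intro χ
    rw [hh]
    fun_prop
  -- expansion
  have hexp : ∀ (χ : κ) (τ : ℝ), ((‖h χ τ‖ ^ 2 * Real.exp (-(1 / 4) * τ ^ 2) : ℝ) : ℂ) =
      ∑ p ∈ F, ∑ q ∈ F, c χ p * conj (c χ q) *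
        (Complex.exp (Complex.I * ((u q - u p : ℝ) : ℂ) * τ) * Complex.exp (-(1 / 4 : ℂ) * (τ : ℂ) ^ 2)) := by
    intro χ τ
    have h1 : ((‖h χ τ‖ ^ 2 : ℝ) : ℂ) = h χ τ * conj (h χ τ) := by
      rw [Complex.mul_conj, Complex.normSq_eq_norm_sq]
    rw [Complex.ofReal_mul, h1, hh]
    simp only [map_sum, map_mul]
    rw [sum_mul_sum, sum_mul]
    refine sum_congr rfl fun p _ => ?_
    rw [sum_mul]
    refine sum_congr rfl fun q _ => ?_
    rw [← Complex.exp_conj]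
    have h2 : conj (-((τ : ℂ) * (u q : ℂ)) * Complex.I) = (τ * u q) * Complex.I := by
      simp
    rw [h2]
    have h3 : ((Real.exp (-(1 / 4) * τ ^ 2) : ℝ) : ℂ) = Complex.exp (-(1 / 4 : ℂ) * (τ : ℂ) ^ 2) := by
      push_cast
      rfl
    rw [h3]
    have h4 : Complex.exp (Complex.I * ((u q - u p : ℝ) : ℂ) * τ) =
        Complex.exp (-((τ : ℂ) * (u p : ℂ)) * Complex.I) * Complex.exp ((τ * u q) * Complex.I) := by
      rw [← Complex.exp_add]
      congr 1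
      push_cast
      ring
    rw [h4]
    ring
  have hb : 0 < ((1 / 4 : ℂ)).re := by norm_num
  have hint : ∀ χ p q, Integrable fun τ : ℝ => c χ p * conj (c χ q) *
        (Complex.exp (Complex.I * ((u q - u p : ℝ) : ℂ) * τ) *
          Complex.exp (-(1 / 4 : ℂ) * (τ : ℂ) ^ 2)) := by
    intro χ p q
    refine Integrable.const_mul ?_ _
    have h1 : Integrable fun τ : ℝ => Complex.exp (-(1 / 4 : ℂ) * (τ : ℂ) ^ 2) :=
      integrable_cexp_neg_mul_sq hb
    refine h1.bdd_mul (c := 1) ?_ ?_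
    · exact (by fun_prop : Continuous fun τ : ℝ =>
        Complex.exp (Complex.I * ((u q - u p : ℝ) : ℂ) * τ)).aestronglyMeasurable
    · filter_upwards with τ
      rw [Complex.norm_exp]
      simp
  have hI : ∀ χ, ∫ τ : ℝ, ((‖h χ τ‖ ^ 2 * Real.exp (-(1 / 4) * τ ^ 2) : ℝ) : ℂ) =
      ∑ p ∈ F, ∑ q ∈ F, c χ p * conj (c χ q) *
        ((Real.pi / (1 / 4 : ℂ)) ^ (1 / 2 : ℂ) * Complex.exp (-((u q - u p : ℝ) : ℂ) ^ 2 / (4 * (1 / 4)))) := by
    intro χ
    simp_rw [hexp χ]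
    rw [integral_finsetSum _ (fun p _ => integrable_finsetSum _ fun q _ => hint χ p q)]
    refine sum_congr rfl fun p _ => ?_
    rw [integral_finsetSum _ (fun q _ => hint χ p q)]
    refine sum_congr rfl fun q _ => ?_
    rw [integral_const_mul]
    congr 1
    exact fourierIntegral_gaussian hb _
  have hsq : ‖(Real.pi / (1 / 4 : ℂ)) ^ (1 / 2 : ℂ)‖ ≤ 4 := by
    have h1 : (Real.pi / (1 / 4 : ℂ)) = ((4 * Real.pi : ℝ) : ℂ) := by push_cast; ring
    rw [h1, Complex.norm_cpow_eq_rpow_re_of_pos (by positivity)]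
    have h2 : ((1 / 2 : ℂ)).re = 1 / 2 := by norm_num
    rw [h2, ← Real.sqrt_eq_rpow, Real.sqrt_le_left (by norm_num)]
    have := Real.pi_le_four
    nlinarith [Real.pi_pos]
  have hIn : ‖∑ χ ∈ X, ∫ τ : ℝ, ((‖h χ τ‖ ^ 2 * Real.exp (-(1 / 4) * τ ^ 2) : ℝ) : ℂ)‖ ≤
      4 * ∑ p ∈ F, ∑ q ∈ F, G p q * Real.exp (-(u p - u q) ^ 2) := by
    simp_rw [hI]
    rw [sum_comm, mul_sum]
    refine (norm_sum_le _ _).trans (sum_le_sum fun p hp => ?_)
    rw [sum_comm, mul_sum]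
    refine (norm_sum_le _ _).trans (sum_le_sum fun q hq => ?_)
    rw [← sum_mul, norm_mul, norm_mul]
    have h1 : ‖Complex.exp (-((u q - u p : ℝ) : ℂ) ^ 2 / (4 * (1 / 4)))‖ =
        Real.exp (-(u p - u q) ^ 2) := by
      have : (-((u q - u p : ℝ) : ℂ) ^ 2 / (4 * (1 / 4))) = ((-(u p - u q) ^ 2 : ℝ) : ℂ) := by
        push_cast
        ring
      rw [this, ← Complex.ofReal_exp, Complex.norm_real, Real.norm_of_nonneg (Real.exp_pos _).le]
    rw [h1]
    have hG0 : 0 ≤ G p q := (norm_nonneg _).trans (hG p hp q hq)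
    calc ‖∑ χ ∈ X, c χ p * conj (c χ q)‖ * (‖(Real.pi / (1 / 4 : ℂ)) ^ (1 / 2 : ℂ)‖ * Real.exp (-(u p - u q) ^ 2))
        ≤ G p q * (4 * Real.exp (-(u p - u q) ^ 2)) :=
          mul_le_mul (hG p hp q hq) (mul_le_mul_of_nonneg_right hsq (Real.exp_pos _).le)
            (by positivity) hG0
      _ = _ := by ring
  have hint2 : ∀ χ, Integrable fun τ : ℝ => ‖h χ τ‖ ^ 2 * Real.exp (-(1 / 4) * τ ^ 2) := by
    intro χ
    have h1 : Integrable fun τ : ℝ => ((‖h χ τ‖ ^ 2 * Real.exp (-(1 / 4) * τ ^ 2) : ℝ) : ℂ) := by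
      simp_rw [hexp χ]
      exact integrable_finsetSum _ fun p _ => integrable_finsetSum _ fun q _ => hint χ p q
    have h2 := h1.re
    simpa only [RCLike.re_eq_complex_re, Complex.ofReal_re] using h2
  have h5 : ∀ χ, ∫ τ in (0 : ℝ)..1, ‖h χ τ‖ ^ 2 ≤
      Real.exp (1 / 4) * ∫ τ : ℝ, ‖h χ τ‖ ^ 2 * Real.exp (-(1 / 4) * τ ^ 2) := by
    intro χ
    rw [intervalIntegral.integral_of_le zero_le_one]
    have h6 : ∫ τ in Set.Ioc (0 : ℝ) 1, ‖h χ τ‖ ^ 2 ≤ ∫ τ in Set.Ioc (0 : ℝ) 1,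
        Real.exp (1 / 4) * (‖h χ τ‖ ^ 2 * Real.exp (-(1 / 4) * τ ^ 2)) := by
      refine setIntegral_mono_on ?_ ?_ measurableSet_Ioc ?_
      · exact (((hcont χ).norm.pow 2).integrableOn_Icc (a := 0) (b := 1)).mono_set
          Set.Ioc_subset_Icc_self
      · exact ((hint2 χ).const_mul _).integrableOn
      · intro τ hτ
        have h7 : 1 ≤ Real.exp (1 / 4) * Real.exp (-(1 / 4) * τ ^ 2) := by
          rw [← Real.exp_add]
          refine Real.one_le_exp ?_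
          nlinarith [hτ.1, hτ.2]
        nlinarith [sq_nonneg ‖h χ τ‖]
    refine h6.trans ?_
    rw [integral_const_mul]
    refine mul_le_mul_of_nonneg_left ?_ (Real.exp_pos _).le
    exact setIntegral_le_integral (hint2 χ) (ae_of_all _ fun τ => by positivity)
  have h6 : Real.exp (1 / 4) ≤ 3 / 2 := by
    have h7 : Real.exp (1 / 4) ^ 4 ≤ (3 / 2) ^ 4 := by
      rw [← Real.exp_nat_mul]
      have := Real.exp_one_lt_d9
      norm_num
      linarith
    exact le_of_pow_le_pow_left₀ (by norm_num) (by norm_num) h7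
  have h7 : ∑ χ ∈ X, ∫ τ : ℝ, ‖h χ τ‖ ^ 2 * Real.exp (-(1 / 4) * τ ^ 2) ≤
      4 * ∑ p ∈ F, ∑ q ∈ F, G p q * Real.exp (-(u p - u q) ^ 2) := by
    have h8 : ∑ χ ∈ X, ∫ τ : ℝ, ((‖h χ τ‖ ^ 2 * Real.exp (-(1 / 4) * τ ^ 2) : ℝ) : ℂ) =
        ((∑ χ ∈ X, ∫ τ : ℝ, ‖h χ τ‖ ^ 2 * Real.exp (-(1 / 4) * τ ^ 2) : ℝ) : ℂ) := by
      push_cast
      refine sum_congr rfl fun χ _ => ?_
      rw [← integral_complex_ofReal]
      push_cast
      rfl
    rw [h8, Complex.norm_real] at hIn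
    exact (le_abs_self _).trans hIn
  have h8 : 0 ≤ ∑ p ∈ F, ∑ q ∈ F, G p q * Real.exp (-(u p - u q) ^ 2) :=
    sum_nonneg fun p hp => sum_nonneg fun q hq =>
      mul_nonneg ((norm_nonneg _).trans (hG p hp q hq)) (Real.exp_pos _).le
  have h9 : 0 ≤ ∑ χ ∈ X, ∫ τ : ℝ, ‖h χ τ‖ ^ 2 * Real.exp (-(1 / 4) * τ ^ 2) :=
    sum_nonneg fun χ _ => integral_nonneg fun τ => by positivity
  calc ∑ χ ∈ X, ∫ τ in (0 : ℝ)..1, ‖h χ τ‖ ^ 2
      ≤ ∑ χ ∈ X, Real.exp (1 / 4) * ∫ τ : ℝ, ‖h χ τ‖ ^ 2 * Real.exp (-(1 / 4) * τ ^ 2) :=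
        sum_le_sum fun χ _ => h5 χ
    _ = Real.exp (1 / 4) * ∑ χ ∈ X, ∫ τ : ℝ, ‖h χ τ‖ ^ 2 * Real.exp (-(1 / 4) * τ ^ 2) := by
        rw [mul_sum]
    _ ≤ 3 / 2 * (4 * ∑ p ∈ F, ∑ q ∈ F, G p q * Real.exp (-(u p - u q) ^ 2)) :=
        mul_le_mul h6 h7 h9 (by norm_num)
    _ = _ := by ring

/-- The same over a window. -/
lemma fam_window {κ ι : Type*} (X : Finset κ) (F : Finset ι) (c : κ → ι → ℂ) (l : ι → ℝ)
    (G : ι → ι → ℝ) (hG : ∀ p ∈ F, ∀ q ∈ F, ‖∑ χ ∈ X, c χ p * conj (c χ q)‖ ≤ G p q)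
    (a : ℝ) {h : ℝ} (hh : 0 < h) :
    ∑ χ ∈ X, ∫ t in a..(a + h), ‖∑ p ∈ F, c χ p * Complex.exp (-(t * l p) * Complex.I)‖ ^ 2 ≤
      6 * h * ∑ p ∈ F, ∑ q ∈ F, G p q * Real.exp (-(h * (l p - l q)) ^ 2) := by
  have h1 := fam_gauss X F (fun χ p => c χ p * Complex.exp (-(a * l p) * Complex.I))
    (fun p => h * l p) G (by
      intro p hp q hq
      have e : ∀ χ, c χ p * Complex.exp (-(a * l p) * Complex.I) *
          conj (c χ q * Complex.exp (-(a * l q) * Complex.I)) =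
          (Complex.exp (-(a * l p) * Complex.I) * conj (Complex.exp (-(a * l q) * Complex.I))) *
            (c χ p * conj (c χ q)) := by
        intro χ
        rw [map_mul]
        ring
      simp_rw [e]
      rw [← mul_sum, norm_mul, norm_mul, RCLike.norm_conj]
      have e1 : ∀ x : ℝ, ‖Complex.exp (-(a * x) * Complex.I)‖ = 1 := by
        intro x
        rw [Complex.norm_exp]
        simp
      rw [e1, e1, one_mul, one_mul]
      exact hG p hp q hq)
  have h2 : ∀ χ, ∫ t in a..(a + h), ‖∑ p ∈ F, c χ p * Complex.exp (-(t * l p) * Complex.I)‖ ^ 2 =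
      h * ∫ τ in (0 : ℝ)..1, ‖∑ p ∈ F, c χ p * Complex.exp (-(a * l p) * Complex.I) *
        Complex.exp (-(τ * (h * l p : ℝ)) * Complex.I)‖ ^ 2 := by
    intro χ
    have h3 := intervalIntegral.smul_integral_comp_mul_add (a := (0 : ℝ)) (b := 1)
      (fun t : ℝ => ‖∑ p ∈ F, c χ p * Complex.exp (-(t * l p) * Complex.I)‖ ^ 2) h a
    rw [mul_zero, mul_one, zero_add, add_comm h a] at h3
    rw [← h3, smul_eq_mul]
    congr 1
    refine intervalIntegral.integral_congr fun τ _ => ?_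
    congr 2
    refine sum_congr rfl fun p _ => ?_
    rw [mul_assoc, ← Complex.exp_add]
    congr 2
    push_cast
    ring
  simp_rw [h2]
  rw [← mul_sum]
  refine (mul_le_mul_of_nonneg_left h1 hh.le).trans (le_of_eq ?_)
  have h4 : ∀ p q, (h * l p - h * l q) = h * (l p - l q) := fun p q => by ring
  simp_rw [h4]
  ring

end Pool.Agent.U309.LV
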