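import Pool.Agent.U309.LV.A1

/-!
# The row sums of the kernel
-/

set_option autoImplicit false

namespace Pool.Agent.U309.LV

open MeasureTheory Finset
open scoped ComplexConjugate

lemma exp_half_le : Real.exp (1 / 2) ≤ 5 / 3 := by
  have h7 : Real.exp (1 / 2) ^ 2 ≤ (5 / 3) ^ 2 := by
    rw [← Real.exp_nat_mul]
    have := Real.exp_one_lt_d9
    norm_num
    linarith
  exact le_of_pow_le_pow_left₀ (by norm_num) (by norm_num) h7

lemma exp_quarter_le : Real.exp (1 / 4) ≤ 4 / 3 := by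
  have h7 : Real.exp (1 / 4) ^ 4 ≤ (4 / 3) ^ 4 := by
    rw [← Real.exp_nat_mul]
    have := Real.exp_one_lt_d9
    norm_num
    linarith
  exact le_of_pow_le_pow_left₀ (by norm_num) (by norm_num) h7

/-- the auxiliary inequality -/
lemma aux1 (x : ℝ) : Real.exp (x - x ^ 2 / 2) * (1 - Real.exp (-x)) ^ 2 ≤ 5 / 3 * x ^ 2 := by
  rcases le_total 0 x with hx | hx
  · have h1 : (1 - Real.exp (-x)) ^ 2 ≤ x ^ 2 := by
      have h2 := Real.add_one_le_exp (-x)
      have h3 : Real.exp (-x) ≤ 1 := Real.exp_le_one_iff.2 (by linarith)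
      exact pow_le_pow_left₀ (by linarith) (by linarith) 2
    have h2 : Real.exp (x - x ^ 2 / 2) ≤ 5 / 3 :=
      (Real.exp_le_exp.2 (by nlinarith [sq_nonneg (x - 1)])).trans exp_half_le
    exact mul_le_mul h2 h1 (sq_nonneg _) (by norm_num)
  · have h0 : Real.exp (x - x ^ 2 / 2) * (1 - Real.exp (-x)) ^ 2 =
        Real.exp (-x - x ^ 2 / 2) * (1 - Real.exp x) ^ 2 := by
      have e1 : Real.exp (x - x ^ 2 / 2) = Real.exp (-x - x ^ 2 / 2) * Real.exp x ^ 2 := by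
        rw [← Real.exp_nat_mul, ← Real.exp_add]
        congr 1
        push_cast
        ring
      have e2 : Real.exp x * Real.exp (-x) = 1 := by rw [← Real.exp_add]; simp
      rw [e1, mul_assoc, ← mul_pow, mul_sub, mul_one, e2]
      ring
    rw [h0]
    have h1 : (1 - Real.exp x) ^ 2 ≤ x ^ 2 := by
      have h2 := Real.add_one_le_exp x
      have h3 : Real.exp x ≤ 1 := Real.exp_le_one_iff.2 hx
      have h4 : (1 - Real.exp x) ^ 2 ≤ (-x) ^ 2 := pow_le_pow_left₀ (by linarith) (by linarith) 2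
      simpa using h4
    have h2 : Real.exp (-x - x ^ 2 / 2) ≤ 5 / 3 :=
      (Real.exp_le_exp.2 (by nlinarith [sq_nonneg (x + 1)])).trans exp_half_le
    exact mul_le_mul h2 h1 (sq_nonneg _) (by norm_num)

/-- the kernel with the weight `n / m` -/
noncomputable def ker (h : ℝ) (n m : ℕ) : ℝ :=
  (n : ℝ) / m * (6 * h * Real.exp (-(h * (Real.log n - Real.log m)) ^ 2))

lemma ker_nonneg {h : ℝ} (hh : 0 ≤ h) (n m : ℕ) : 0 ≤ ker h n m := by
  unfold ker
  positivity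

lemma ratio {n m : ℕ} (hn : 0 < n) (hm : 0 < m) :
    (n : ℝ) / m = Real.exp (Real.log n - Real.log m) := by
  have h1 : (0 : ℝ) < n := by exact_mod_cast hn
  have h2 : (0 : ℝ) < m := by exact_mod_cast hm
  rw [Real.exp_sub, Real.exp_log h1, Real.exp_log h2]

lemma ker_le1 {h : ℝ} (hh : 1 ≤ h) {n m : ℕ} (hn : 0 < n) (hm : 0 < m) : ker h n m ≤ 8 * h := by
  unfold ker
  rw [ratio hn hm]
  set x := Real.log n - Real.log m
  have h1 : Real.exp x * Real.exp (-(h * x) ^ 2) ≤ 4 / 3 := by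
    rw [← Real.exp_add]
    refine (Real.exp_le_exp.2 ?_).trans exp_quarter_le
    have h2 : x ^ 2 ≤ (h * x) ^ 2 := by
      rw [mul_pow]
      have : 1 ≤ h ^ 2 := one_le_pow₀ hh
      nlinarith [sq_nonneg x]
    nlinarith [sq_nonneg (x - 1 / 2)]
  nlinarith

lemma ker_le2 {h : ℝ} (hh : 1 ≤ h) {n m : ℕ} (hn : 0 < n) (hm : 0 < m) :
    ker h n m * ((n : ℝ) - m) ^ 2 ≤ 20 * (n : ℝ) ^ 2 / h := by
  have hn0 : (0 : ℝ) < n := by exact_mod_cast hn
  have hm0 : (0 : ℝ) < m := by exact_mod_cast hm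
  have hh0 : 0 < h := by linarith
  unfold ker
  have hr := ratio hn hm
  rw [hr]
  set x := Real.log n - Real.log m with hx
  have h1 : ((n : ℝ) - m) ^ 2 = n ^ 2 * (1 - Real.exp (-x)) ^ 2 := by
    have h2 : Real.exp (-x) = m / n := by
      rw [Real.exp_neg, ← hr, inv_div]
    rw [h2]
    field_simp
  rw [h1]
  rcases eq_or_ne x 0 with h0 | h0
  · rw [h0]
    simp
    positivity
  have hx2 : 0 < x ^ 2 := by positivity
  have h2 : Real.exp (-(h * x) ^ 2) ≤ Real.exp (-(x ^ 2 / 2)) * (2 / (h * x) ^ 2) := by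
    have h3 : Real.exp (-(h * x) ^ 2) = Real.exp (-((h * x) ^ 2 / 2)) * Real.exp (-((h * x) ^ 2 / 2)) := by
      rw [← Real.exp_add]
      congr 1
      ring
    rw [h3]
    refine mul_le_mul ?_ ?_ (Real.exp_pos _).le (Real.exp_pos _).le
    · rw [Real.exp_le_exp]
      have : x ^ 2 ≤ (h * x) ^ 2 := by
        rw [mul_pow]
        have : 1 ≤ h ^ 2 := one_le_pow₀ hh
        nlinarith [sq_nonneg x]
      linarith
    · rw [Real.exp_neg]
      have h4 : 0 < (h * x) ^ 2 / 2 := by positivity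
      have h5 : (h * x) ^ 2 / 2 ≤ Real.exp ((h * x) ^ 2 / 2) := by
        have := Real.add_one_le_exp ((h * x) ^ 2 / 2)
        linarith
      have h6 : 2 / (h * x) ^ 2 = ((h * x) ^ 2 / 2)⁻¹ := by rw [inv_div]
      rw [h6]
      exact inv_anti₀ h4 h5
  have h3 := aux1 x
  calc Real.exp x * (6 * h * Real.exp (-(h * x) ^ 2)) * ((n : ℝ) ^ 2 * (1 - Real.exp (-x)) ^ 2)
      ≤ Real.exp x * (6 * h * (Real.exp (-(x ^ 2 / 2)) * (2 / (h * x) ^ 2))) *
        ((n : ℝ) ^ 2 * (1 - Real.exp (-x)) ^ 2) := by gcongr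
    _ = (Real.exp (x - x ^ 2 / 2) * (1 - Real.exp (-x)) ^ 2) * (12 * (n : ℝ) ^ 2 / (h * x ^ 2)) := by
        rw [sub_eq_add_neg x (x ^ 2 / 2), Real.exp_add]
        field_simp
        ring
    _ ≤ (5 / 3 * x ^ 2) * (12 * (n : ℝ) ^ 2 / (h * x ^ 2)) :=
        mul_le_mul_of_nonneg_right h3 (by positivity)
    _ = 20 * (n : ℝ) ^ 2 / h := by
        field_simp
        ring

/-- A sum over a residue class. -/
lemma sum_class (n q : ℕ) (hq : 0 < q) (S : Finset ℕ) (hS : ∀ m ∈ S, m ≡ n [MOD q]) (f : ℕ → ℝ)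
    {A B : ℝ} (hA : 0 ≤ A) (hB : 0 ≤ B) (h1 : ∀ m ∈ S, f m ≤ A)
    (h2 : ∀ m ∈ S, f m * ((n : ℝ) - m) ^ 2 ≤ B) (J : ℕ) :
    ∑ m ∈ S, f m ≤ A * (2 * J + 1) + 4 * B / ((q : ℝ) ^ 2 * (J + 1)) := by
  classical
  have hq0 : (0 : ℝ) < q := by exact_mod_cast hq
  set φ : ℕ → ℤ := fun m => ((m : ℤ) - n) / q with hφ
  have hmul : ∀ m ∈ S, (m : ℤ) = n + q * φ m := by
    intro m hm
    have h3 : (q : ℤ) ∣ (m : ℤ) - n := (Nat.modEq_iff_dvd.1 (hS m hm).symm)
    have h4 := Int.mul_ediv_cancel' h3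
    rw [hφ]
    simp only
    linarith
  have hinj : Set.InjOn φ S := by
    intro m hm m' hm' h
    have h3 := hmul m hm
    have h4 := hmul m' hm'
    rw [h] at h3
    exact_mod_cast h3.trans h4.symm
  set S1 := S.filter fun m => (φ m).natAbs ≤ J with hS1
  set S2 := S.filter fun m => ¬ (φ m).natAbs ≤ J with hS2
  rw [← sum_filter_add_sum_filter_not S (fun m => (φ m).natAbs ≤ J)]
  have hcard : (S1.card : ℝ) ≤ 2 * J + 1 := by
    have h3 : S1.card ≤ (Finset.Icc (-(J : ℤ)) J).card := by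
      refine card_le_card_of_injOn φ ?_ (hinj.mono ?_)
      · intro m hm
        rw [mem_coe, hS1, mem_filter] at hm
        rw [mem_coe, mem_Icc]
        omega
      · intro m hm
        rw [mem_coe, hS1, mem_filter] at hm
        exact hm.1
    rw [Int.card_Icc] at h3
    have h4 : S1.card ≤ 2 * J + 1 := by omega
    exact_mod_cast h4
  have hp1 : ∑ m ∈ S1, f m ≤ A * (2 * J + 1) := by
    calc ∑ m ∈ S1, f m ≤ ∑ m ∈ S1, A := sum_le_sum fun m hm => h1 m (mem_filter.1 hm).1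
      _ = S1.card * A := by rw [sum_const, nsmul_eq_mul]
      _ ≤ (2 * J + 1) * A := mul_le_mul_of_nonneg_right hcard hA
      _ = _ := mul_comm _ _
  have hpt : ∀ m ∈ S2, f m ≤ B / (q : ℝ) ^ 2 * (1 / (((φ m).natAbs : ℕ) : ℝ) ^ 2) := by
    intro m hm
    rw [hS2, mem_filter] at hm
    have h3 := h2 m hm.1
    have h4 := hmul m hm.1
    have h5 : (m : ℝ) = n + q * (φ m : ℝ) := by exact_mod_cast h4
    have h6 : ((n : ℝ) - m) ^ 2 = (q : ℝ) ^ 2 * (((φ m).natAbs : ℕ) : ℝ) ^ 2 := by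
      have h7 : ((((φ m).natAbs : ℕ) : ℝ)) ^ 2 = (φ m : ℝ) ^ 2 := by
        rw [Nat.cast_natAbs, Int.cast_abs, sq_abs]
      rw [h7, h5]
      ring
    have h7 : (0 : ℝ) < (((φ m).natAbs : ℕ) : ℝ) := by
      have : 0 < (φ m).natAbs := by omega
      exact_mod_cast this
    rw [h6] at h3
    rw [div_mul_div_comm, mul_one, le_div_iff₀ (by positivity)]
    exact h3
  have hp2 : ∑ m ∈ S2, f m ≤ 4 * B / ((q : ℝ) ^ 2 * (J + 1)) := by
    refine (sum_le_sum hpt).trans ?_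
    rw [← mul_sum]
    -- positive and negative
    have h3 : ∀ (S' : Finset ℕ), S' ⊆ S2 → Set.InjOn (fun m => (φ m).natAbs) S' →
        ∑ m ∈ S', 1 / (((φ m).natAbs : ℕ) : ℝ) ^ 2 ≤ 2 / ((J + 1 : ℕ) : ℝ) := by
      intro S' hS' hi
      have h4 := Pool.Agent.TH339.MP.inv_sq_sum (m0 := J + 1) (by omega)
        (S'.image fun m => (φ m).natAbs) (by
          intro l hl
          rw [mem_image] at hl
          obtain ⟨m, hm, rfl⟩ := hl
          have := (mem_filter.1 (hS' hm)).2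
          omega)
      rw [sum_image hi] at h4
      exact h4
    have h4 : ∑ m ∈ S2, 1 / (((φ m).natAbs : ℕ) : ℝ) ^ 2 ≤ 4 / ((J + 1 : ℕ) : ℝ) := by
      rw [← sum_filter_add_sum_filter_not S2 (fun m => 0 ≤ φ m)]
      have h5 := h3 (S2.filter fun m => 0 ≤ φ m) (filter_subset _ _) (by
        intro m hm m' hm' h
        rw [mem_coe, mem_filter, hS2, mem_filter] at hm hm'
        refine hinj hm.1.1 hm'.1.1 ?_
        simp only at h
        omega)
      have h6 := h3 (S2.filter fun m => ¬ 0 ≤ φ m) (filter_subset _ _) (by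
        intro m hm m' hm' h
        rw [mem_coe, mem_filter, hS2, mem_filter] at hm hm'
        refine hinj hm.1.1 hm'.1.1 ?_
        simp only at h
        omega)
      have h7 : (4 : ℝ) / ((J + 1 : ℕ) : ℝ) = 2 / ((J + 1 : ℕ) : ℝ) + 2 / ((J + 1 : ℕ) : ℝ) := by ring
      rw [h7]
      exact add_le_add h5 h6
    calc B / (q : ℝ) ^ 2 * ∑ m ∈ S2, 1 / (((φ m).natAbs : ℕ) : ℝ) ^ 2
        ≤ B / (q : ℝ) ^ 2 * (4 / ((J + 1 : ℕ) : ℝ)) := mul_le_mul_of_nonneg_left h4 (by positivity)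
      _ = 4 * B / ((q : ℝ) ^ 2 * (J + 1)) := by
        push_cast
        field_simp
  exact add_le_add hp1 hp2

/-- The row sums. -/
lemma row {h : ℝ} (hh : 1 ≤ h) {n q : ℕ} (hn : 0 < n) (hq : 0 < q) (S : Finset ℕ)
    (hS0 : ∀ m ∈ S, 0 < m) (hS : ∀ m ∈ S, m ≡ n [MOD q]) :
    ∑ m ∈ S, ker h n m ≤ 8 * h + 96 * n / q := by
  have hh0 : 0 < h := by linarith
  have hq0 : (0 : ℝ) < q := by exact_mod_cast hq
  have hn0 : (0 : ℝ) < n := by exact_mod_cast hn
  set y : ℝ := n / (h * q) with hy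
  have hy0 : 0 < y := by positivity
  have h1 := sum_class n q hq S hS (ker h n) (A := 8 * h) (B := 20 * (n : ℝ) ^ 2 / h)
    (by positivity) (by positivity) (fun m hm => ker_le1 hh hn (hS0 m hm))
    (fun m hm => ker_le2 hh hn (hS0 m hm)) ⌊y⌋₊
  refine h1.trans ?_
  have h2 : (⌊y⌋₊ : ℝ) ≤ y := Nat.floor_le hy0.le
  have h3 : y < ⌊y⌋₊ + 1 := Nat.lt_floor_add_one y
  have h4 : 8 * h * (2 * (⌊y⌋₊ : ℝ) + 1) ≤ 8 * h + 16 * n / q := by
    have : 8 * h * (2 * y) = 16 * n / q := by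
      rw [hy]
      field_simp
      ring
    nlinarith
  have h5 : 4 * (20 * (n : ℝ) ^ 2 / h) / ((q : ℝ) ^ 2 * (⌊y⌋₊ + 1)) ≤ 80 * n / q := by
    have h6 : 4 * (20 * (n : ℝ) ^ 2 / h) / ((q : ℝ) ^ 2 * (⌊y⌋₊ + 1)) ≤
        4 * (20 * (n : ℝ) ^ 2 / h) / ((q : ℝ) ^ 2 * y) := by
      apply div_le_div_of_nonneg_left (by positivity) (by positivity)
      exact mul_le_mul_of_nonneg_left h3.le (by positivity)
    refine h6.trans (le_of_eq ?_)
    rw [hy]
    field_simp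
    ring
  have h6 : 16 * (n : ℝ) / q + 80 * n / q = 96 * n / q := by ring
  linarith

end Pool.Agent.U309.LV
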