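import Pool.Agent.U309.LV.A2

/-!
# High moments of Dirichlet polynomials over primes, over characters and windows
-/

set_option autoImplicit false

namespace Pool.Agent.U309.LV

open MeasureTheory Finset
open scoped ComplexConjugate

open Classical in
/-- Orthogonality of the characters. -/
lemma orth (q : ℕ) [NeZero q] (n m : ℕ) :
    ‖∑ χ : DirichletCharacter ℂ q, χ (n : ZMod q) * conj (χ (m : ZMod q))‖ ≤
      if m ≡ n [MOD q] then (q : ℝ) else 0 := by
  have hq : 0 < q := Nat.pos_of_ne_zero (NeZero.ne q)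
  by_cases hm : IsUnit (m : ZMod q)
  · have h1 : ∀ χ : DirichletCharacter ℂ q, χ (n : ZMod q) * conj (χ (m : ZMod q)) =
        χ (m : ZMod q)⁻¹ * χ (n : ZMod q) := by
      intro χ
      have h2 : conj (χ (m : ZMod q)) = χ (m : ZMod q)⁻¹ := by
        have h3 := MulChar.star_apply' χ (m : ZMod q)
        rw [starRingEnd_apply, h3, MulChar.inv_apply_eq_inv']
        have h4 : χ (m : ZMod q)⁻¹ * χ (m : ZMod q) = 1 := by
          rw [← map_mul, ZMod.inv_mul_of_unit _ hm, map_one]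
        exact (eq_inv_of_mul_eq_one_left h4).symm
      rw [h2, mul_comm]
    simp_rw [h1]
    rw [DirichletCharacter.sum_char_inv_mul_char_eq ℂ hm]
    have e : ((m : ZMod q) = (n : ZMod q)) ↔ m ≡ n [MOD q] := ZMod.natCast_eq_natCast_iff m n q
    by_cases h : (m : ZMod q) = (n : ZMod q)
    · rw [if_pos h, if_pos (e.1 h), Complex.norm_natCast]
      exact_mod_cast Nat.totient_le q
    · rw [if_neg h, if_neg (fun h' => h (e.2 h')), norm_zero]
  · have h1 : ∀ χ : DirichletCharacter ℂ q, χ (n : ZMod q) * conj (χ (m : ZMod q)) = 0 := by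
      intro χ
      rw [χ.map_nonunit hm, map_zero, mul_zero]
    simp_rw [h1]
    rw [sum_const_zero, norm_zero]
    split_ifs <;> positivity

/-- Grouping the tuples by their product. -/
lemma group (j : ℕ) (T : Finset ℕ) (hT : ∀ p ∈ T, p.Prime) (g : ℕ → ℝ) (hg : ∀ m, 0 ≤ g m) :
    ∑ y ∈ Fintype.piFinset (fun _ : Fin j => T), g (∏ i, y i) ≤
      (j.factorial : ℝ) * ∑ m ∈ (Fintype.piFinset fun _ : Fin j => T).image
        (fun y => ∏ i, y i), g m := by
  classical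
  rw [← sum_fiberwise_of_maps_to (s := Fintype.piFinset fun _ : Fin j => T)
    (t := (Fintype.piFinset fun _ : Fin j => T).image (fun y => ∏ i, y i))
    (g := fun y => ∏ i, y i) (fun y hy => mem_image_of_mem _ hy), mul_sum]
  refine sum_le_sum fun m _ => ?_
  have h1 : ∑ y ∈ Fintype.piFinset (fun _ : Fin j => T) with ∏ i, y i = m, g (∏ i, y i) =
      (((Fintype.piFinset fun _ : Fin j => T).filter (fun y => ∏ i, y i = m)).card : ℝ) * g m := by
    rw [← nsmul_eq_mul, ← sum_const]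
    refine sum_congr rfl fun y hy => ?_
    rw [(mem_filter.1 hy).2]
  rw [h1]
  refine mul_le_mul_of_nonneg_right ?_ (hg m)
  exact_mod_cast fiber_le j T hT m

/-- **High moments** of a sum over primes. -/
theorem moment (q : ℕ) [NeZero q] (T : Finset ℕ) (hT : ∀ p ∈ T, p.Prime) (c : ℕ → ℂ) {M : ℝ}
    (hM : 0 ≤ M) (hc : ∀ p ∈ T, ‖c p‖ ≤ M) (j : ℕ) (a : ℝ) {h : ℝ} (hh : 1 ≤ h) :
    ∑ χ : DirichletCharacter ℂ q, ∫ t in a..(a + h),
        ‖∑ p ∈ T, χ (p : ZMod q) * c p / p * Complex.exp (-(t * Real.log p) * Complex.I)‖ ^ (2 * j) ≤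
      M ^ (2 * j) * j.factorial *
        (8 * (q * h) * (∑ p ∈ T, 1 / (p : ℝ) ^ 2) ^ j + 96 * (∑ p ∈ T, 1 / (p : ℝ)) ^ j) := by
  classical
  have hq : 0 < q := Nat.pos_of_ne_zero (NeZero.ne q)
  have hq0 : (0 : ℝ) < q := by exact_mod_cast hq
  have hh0 : 0 < h := by linarith
  set Y : Finset (Fin j → ℕ) := Fintype.piFinset fun _ : Fin j => T with hY
  have hmem : ∀ y ∈ Y, ∀ i, y i ∈ T := fun y hy i => Fintype.mem_piFinset.1 hy i
  have hpos : ∀ y ∈ Y, 0 < ∏ i, y i := fun y hy =>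
    prod_pos fun i _ => (hT _ (hmem y hy i)).pos
  -- the power of the sum
  have e1 : ∀ (χ : DirichletCharacter ℂ q) (t : ℝ),
      ‖∑ p ∈ T, χ (p : ZMod q) * c p / p * Complex.exp (-(t * Real.log p) * Complex.I)‖ ^ (2 * j) =
      ‖∑ y ∈ Y, (χ ((∏ i, y i : ℕ) : ZMod q) * (∏ i, c (y i)) / ((∏ i, y i : ℕ) : ℂ)) *
        Complex.exp (-(t * (Real.log ((∏ i, y i : ℕ) : ℝ) : ℝ)) * Complex.I)‖ ^ 2 := by
    intro χ t
    rw [mul_comm 2 j, pow_mul, ← norm_pow, sum_pow']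
    congr 2
    refine sum_congr rfl fun y hy => ?_
    rw [prod_mul_distrib]
    congr 1
    · rw [prod_div_distrib, prod_mul_distrib]
      push_cast
      rw [map_prod]
    · rw [← Complex.exp_sum]
      congr 1
      have h2 : Real.log ((∏ i, y i : ℕ) : ℝ) = ∑ i, Real.log (y i) := by
        push_cast
        rw [Real.log_prod]
        intro i _
        have := (hT _ (hmem y hy i)).ne_zero
        exact_mod_cast this
      rw [h2]
      push_cast
      rw [mul_sum, ← sum_neg_distrib, sum_mul]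
  simp_rw [e1]
  -- the window
  have h1 := fam_window (Finset.univ : Finset (DirichletCharacter ℂ q)) Y
    (fun χ y => χ ((∏ i, y i : ℕ) : ZMod q) * (∏ i, c (y i)) / ((∏ i, y i : ℕ) : ℂ))
    (fun y => Real.log ((∏ i, y i : ℕ) : ℝ))
    (fun y y' => if (∏ i, y' i : ℕ) ≡ (∏ i, y i : ℕ) [MOD q] then
      q * M ^ (2 * j) / (((∏ i, y i : ℕ) : ℝ) * ((∏ i, y' i : ℕ) : ℝ)) else 0) (by
      intro y hy y' hy'
      have e2 : ∀ χ : DirichletCharacter ℂ q,
          (χ ((∏ i, y i : ℕ) : ZMod q) * (∏ i, c (y i)) / ((∏ i, y i : ℕ) : ℂ)) *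
          conj (χ ((∏ i, y' i : ℕ) : ZMod q) * (∏ i, c (y' i)) / ((∏ i, y' i : ℕ) : ℂ)) =
          ((∏ i, c (y i)) / ((∏ i, y i : ℕ) : ℂ) * conj ((∏ i, c (y' i)) / ((∏ i, y' i : ℕ) : ℂ))) *
          (χ ((∏ i, y i : ℕ) : ZMod q) * conj (χ ((∏ i, y' i : ℕ) : ZMod q))) := by
        intro χ
        simp only [map_mul, map_div₀]
        ring
      simp_rw [e2]
      rw [← mul_sum, norm_mul, norm_mul, RCLike.norm_conj, norm_div, norm_div,
        Complex.norm_natCast, Complex.norm_natCast]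
      have h2 : ∀ z ∈ Y, ‖∏ i, c (z i)‖ ≤ M ^ j := by
        intro z hz
        rw [norm_prod]
        refine (prod_le_prod (fun i _ => norm_nonneg _) fun i _ => hc _ (hmem z hz i)).trans ?_
        rw [prod_const, card_univ, Fintype.card_fin]
      have hp1 : (0 : ℝ) < ((∏ i, y i : ℕ) : ℝ) := by exact_mod_cast hpos y hy
      have hp2 : (0 : ℝ) < ((∏ i, y' i : ℕ) : ℝ) := by exact_mod_cast hpos y' hy'
      have h3 := orth q (∏ i, y i) (∏ i, y' i)
      have h4 : ‖∏ i, c (y i)‖ / ((∏ i, y i : ℕ) : ℝ) * (‖∏ i, c (y' i)‖ / ((∏ i, y' i : ℕ) : ℝ)) ≤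
          M ^ j / ((∏ i, y i : ℕ) : ℝ) * (M ^ j / ((∏ i, y' i : ℕ) : ℝ)) := by
        have := h2 y hy
        have := h2 y' hy'
        gcongr
      refine (mul_le_mul h4 h3 (norm_nonneg _) (by positivity)).trans ?_
      split_ifs with h5
      · refine le_of_eq ?_
        have : M ^ (2 * j) = M ^ j * M ^ j := by rw [two_mul, pow_add]
        rw [this]
        field_simp
      · rw [mul_zero]) a hh0
  refine h1.trans ?_
  -- the inner sums
  have h2 : ∀ y ∈ Y, ∑ y' ∈ Y, (if (∏ i, y' i : ℕ) ≡ (∏ i, y i : ℕ) [MOD q] then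
      q * M ^ (2 * j) / (((∏ i, y i : ℕ) : ℝ) * ((∏ i, y' i : ℕ) : ℝ)) else 0) *
      Real.exp (-(h * (Real.log ((∏ i, y i : ℕ) : ℝ) - Real.log ((∏ i, y' i : ℕ) : ℝ))) ^ 2) * (6 * h) ≤
      q * M ^ (2 * j) * (1 / ((∏ i, y i : ℕ) : ℝ) ^ 2) *
        (j.factorial * (8 * h + 96 * ((∏ i, y i : ℕ) : ℝ) / q)) := by
    intro y hy
    set n : ℕ := ∏ i, y i with hn
    have hn0 : 0 < n := hpos y hy
    have hn1 : (0 : ℝ) < n := by exact_mod_cast hn0
    have h3 : ∀ y' ∈ Y, (if (∏ i, y' i : ℕ) ≡ n [MOD q] then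
        q * M ^ (2 * j) / ((n : ℝ) * ((∏ i, y' i : ℕ) : ℝ)) else 0) *
        Real.exp (-(h * (Real.log (n : ℝ) - Real.log ((∏ i, y' i : ℕ) : ℝ))) ^ 2) * (6 * h) =
        q * M ^ (2 * j) * (1 / (n : ℝ) ^ 2) *
          (fun m : ℕ => if m ≡ n [MOD q] then ker h n m else 0) (∏ i, y' i) := by
      intro y' hy'
      have hp2 : (0 : ℝ) < ((∏ i, y' i : ℕ) : ℝ) := by exact_mod_cast hpos y' hy'
      simp only
      split_ifs with h5
      · unfold ker
        field_simp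
      · ring
    rw [sum_congr rfl h3, ← mul_sum]
    refine mul_le_mul_of_nonneg_left ?_ (by positivity)
    refine (group j T hT (fun m : ℕ => if m ≡ n [MOD q] then ker h n m else 0) (fun m => by
      by_cases h6 : m ≡ n [MOD q]
      · simp only [h6, if_true]
        exact ker_nonneg hh0.le _ _
      · simp only [h6, if_false]
        exact le_rfl)).trans ?_
    refine mul_le_mul_of_nonneg_left ?_ (by positivity)
    rw [← sum_filter]
    refine row hh hn0 hq _ ?_ ?_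
    · intro m hm
      obtain ⟨y', hy', rfl⟩ := mem_image.1 (mem_filter.1 hm).1
      exact hpos y' hy'
    · intro m hm
      exact (mem_filter.1 hm).2
  have h3 : 6 * h * ∑ y ∈ Y, ∑ y' ∈ Y, (if (∏ i, y' i : ℕ) ≡ (∏ i, y i : ℕ) [MOD q] then
      q * M ^ (2 * j) / (((∏ i, y i : ℕ) : ℝ) * ((∏ i, y' i : ℕ) : ℝ)) else 0) *
      Real.exp (-(h * (Real.log ((∏ i, y i : ℕ) : ℝ) - Real.log ((∏ i, y' i : ℕ) : ℝ))) ^ 2) =
      ∑ y ∈ Y, ∑ y' ∈ Y, (if (∏ i, y' i : ℕ) ≡ (∏ i, y i : ℕ) [MOD q] then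
      q * M ^ (2 * j) / (((∏ i, y i : ℕ) : ℝ) * ((∏ i, y' i : ℕ) : ℝ)) else 0) *
      Real.exp (-(h * (Real.log ((∏ i, y i : ℕ) : ℝ) - Real.log ((∏ i, y' i : ℕ) : ℝ))) ^ 2) * (6 * h) := by
    rw [mul_sum]
    refine sum_congr rfl fun y _ => ?_
    rw [mul_sum]
    refine sum_congr rfl fun y' _ => ?_
    ring
  rw [h3]
  refine (sum_le_sum h2).trans ?_
  -- the sums of the inverse squares and of the inverses
  have h4 : ∑ y ∈ Y, 1 / ((∏ i, y i : ℕ) : ℝ) ^ 2 = (∑ p ∈ T, 1 / (p : ℝ) ^ 2) ^ j := by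
    rw [sum_pow']
    refine sum_congr rfl fun y _ => ?_
    push_cast
    rw [prod_div_distrib, prod_const_one, prod_pow]
  have h5 : ∑ y ∈ Y, 1 / ((∏ i, y i : ℕ) : ℝ) = (∑ p ∈ T, 1 / (p : ℝ)) ^ j := by
    rw [sum_pow']
    refine sum_congr rfl fun y _ => ?_
    push_cast
    rw [prod_div_distrib, prod_const_one]
  rw [← h4, ← h5]
  refine le_of_eq ?_
  have h6 : ∀ y ∈ Y, q * M ^ (2 * j) * (1 / ((∏ i, y i : ℕ) : ℝ) ^ 2) *
        (j.factorial * (8 * h + 96 * ((∏ i, y i : ℕ) : ℝ) / q)) =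
      (M ^ (2 * j) * j.factorial) * (8 * (q * h) * (1 / ((∏ i, y i : ℕ) : ℝ) ^ 2)) +
      (M ^ (2 * j) * j.factorial) * (96 * (1 / ((∏ i, y i : ℕ) : ℝ))) := by
    intro y hy
    have hp1 : (0 : ℝ) < ((∏ i, y i : ℕ) : ℝ) := by exact_mod_cast hpos y hy
    field_simp
  rw [sum_congr rfl h6, sum_add_distrib, ← mul_sum, ← mul_sum, ← mul_sum, ← mul_sum]
  ring

end Pool.Agent.U309.LV
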