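import Pool.Agent.U309.LV.A3

/-!
# Blocks of primes: the measure of the large values
-/

set_option autoImplicit false

namespace Pool.Agent.U309.LV

open MeasureTheory Finset Filter Topology
open scoped ComplexConjugate ENNReal
open Pool.Agent.W350.Edge (lg lg_le lt_lg cheb)

lemma markov0 {s : Set ℝ} (hs : MeasurableSet s) {g : ℝ → ℂ} (hg : AEMeasurable g) {V : ℝ}
    (hV : 0 < V) (n : ℕ) :
    volume {t | t ∈ s ∧ V < ‖g t‖} ≤
      (∫⁻ t in s, ENNReal.ofReal (‖g t‖ ^ n)) / ENNReal.ofReal (V ^ n) := by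
  have hVn : 0 < V ^ n := by positivity
  rw [ENNReal.le_div_iff_mul_le (Or.inl (by simpa using hVn)) (Or.inl ENNReal.ofReal_ne_top),
    mul_comm]
  have h1 := mul_meas_ge_le_lintegral₀ (μ := volume.restrict s)
    (f := fun t => ENNReal.ofReal (‖g t‖ ^ n))
    ((hg.norm.pow_const n).ennreal_ofReal.restrict) (ENNReal.ofReal (V ^ n))
  refine le_trans (mul_le_mul_right ?_ _) h1
  rw [Measure.restrict_apply' hs]
  refine measure_mono ?_
  intro t ht
  refine ⟨?_, ht.1⟩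
  change ENNReal.ofReal (V ^ n) ≤ ENNReal.ofReal (‖g t‖ ^ n)
  exact ENNReal.ofReal_le_ofReal (pow_le_pow_left₀ hV.le ht.2.le n)

lemma markov {f : ℝ → ℂ} (hf : Continuous f) {V : ℝ} (hV : 0 < V) (n : ℕ) (a : ℝ) {h : ℝ}
    (hh : 0 ≤ h) :
    volume {t | t ∈ Set.Icc a (a + h) ∧ V < ‖f t‖} ≤
      ENNReal.ofReal ((∫ t in a..(a + h), ‖f t‖ ^ n) / V ^ n) := by
  refine (markov0 measurableSet_Icc hf.aemeasurable hV n).trans ?_
  rw [ENNReal.ofReal_div_of_pos (by positivity)]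
  refine ENNReal.div_le_div_right ?_ _
  rw [intervalIntegral.integral_of_le (by linarith), ← integral_Icc_eq_integral_Ioc,
    ofReal_integral_eq_lintegral_ofReal]
  · exact (hf.norm.pow n).continuousOn.integrableOn_compact isCompact_Icc
  · exact Eventually.of_forall fun u => by positivity

/-- the polynomials -/
noncomputable def SS (q : ℕ) (T : Finset ℕ) (c : ℕ → ℂ) (χ : DirichletCharacter ℂ q) (t : ℝ) : ℂ :=
  ∑ p ∈ T, χ (p : ZMod q) * c p / p * Complex.exp (-(t * Real.log p) * Complex.I)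

lemma continuous_SS (q : ℕ) (T : Finset ℕ) (c : ℕ → ℂ) (χ : DirichletCharacter ℂ q) :
    Continuous (SS q T c χ) := by
  unfold SS
  fun_prop

lemma meas_SS (q : ℕ) [NeZero q] (T : Finset ℕ) (hT : ∀ p ∈ T, p.Prime) (c : ℕ → ℂ) {M : ℝ}
    (hM : 0 ≤ M) (hc : ∀ p ∈ T, ‖c p‖ ≤ M) (j : ℕ) (a : ℝ) {h V : ℝ} (hh : 1 ≤ h) (hV : 0 < V) :
    ∑ χ : DirichletCharacter ℂ q, volume {t | t ∈ Set.Icc a (a + h) ∧ V < ‖SS q T c χ t‖} ≤
      ENNReal.ofReal (M ^ (2 * j) * j.factorial *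
        (8 * (q * h) * (∑ p ∈ T, 1 / (p : ℝ) ^ 2) ^ j + 96 * (∑ p ∈ T, 1 / (p : ℝ)) ^ j) /
          V ^ (2 * j)) := by
  have h1 := moment q T hT c hM hc j a hh
  refine (sum_le_sum fun χ _ => markov (continuous_SS q T c χ) hV (2 * j) a (by linarith)).trans ?_
  rw [← ENNReal.ofReal_sum_of_nonneg]
  · rw [← sum_div]
    refine ENNReal.ofReal_le_ofReal (div_le_div_of_nonneg_right ?_ (by positivity))
    exact h1
  · intro χ _
    refine div_nonneg ?_ (by positivity)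
    exact intervalIntegral.integral_nonneg (by linarith) fun t _ => by positivity

lemma e4 : Real.exp 1 * Real.log 4 ≤ 4 := by
  have h3 : Real.log 4 ≤ 1.4 := by
    have : Real.log 4 = 2 * Real.log 2 := by
      rw [show (4 : ℝ) = 2 ^ 2 by norm_num, Real.log_pow]
      norm_num
    rw [this]
    have := Real.log_two_lt_d9
    linarith
  have h4 : Real.exp 1 ≤ 2.7183 := by
    have := Real.exp_one_lt_d9
    linarith
  have h5 : 0 ≤ Real.log 4 := Real.log_nonneg (by norm_num)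
  nlinarith [Real.exp_pos (1 : ℝ)]

/-- One block. -/
lemma block (q : ℕ) [NeZero q] {k : ℕ} (hk : 1 ≤ k) (T : Finset ℕ)
    (hT : ∀ p ∈ T, p.Prime ∧ lg p = k) (c : ℕ → ℂ) {M : ℝ}
    (hM : 0 ≤ M) (hc : ∀ p ∈ T, ‖c p‖ ≤ M) (j : ℕ) (a : ℝ) {h : ℝ} (hh : 1 ≤ h)
    (hj : Real.log (q * h) ≤ k * j) :
    ∑ χ : DirichletCharacter ℂ q, volume {t | t ∈ Set.Icc a (a + h) ∧
        1 / (k : ℝ) ^ 2 < ‖SS q T c χ t‖} ≤
      ENNReal.ofReal (104 * (j * (4 * M ^ 2 * k ^ 3)) ^ j) := by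
  have hk0 : (0 : ℝ) < k := by exact_mod_cast hk
  have hq0 : (0 : ℝ) < q := by exact_mod_cast Nat.pos_of_ne_zero (NeZero.ne q)
  have hZ : 0 < (q : ℝ) * h := by positivity
  refine (meas_SS q T (fun p hp => (hT p hp).1) c hM hc j a hh (V := 1 / (k : ℝ) ^ 2)
    (by positivity)).trans (ENNReal.ofReal_le_ofReal ?_)
  have h1 : ∑ p ∈ T, 1 / (p : ℝ) ≤ 4 / k :=
    (cheb T k hk hT).trans (div_le_div_of_nonneg_right e4 hk0.le)
  have h2 : ∑ p ∈ T, 1 / (p : ℝ) ^ 2 ≤ Real.exp (-k) * (4 / k) := by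
    refine le_trans ?_ (mul_le_mul_of_nonneg_left h1 (Real.exp_pos _).le)
    rw [mul_sum]
    refine sum_le_sum fun p hp => ?_
    have hp0 : (0 : ℝ) < p := by exact_mod_cast (hT p hp).1.pos
    have h3 : (k : ℝ) ≤ Real.log p := by
      rw [← (hT p hp).2]
      exact lg_le (hT p hp).1.one_le
    have h4 : Real.exp k ≤ p := by
      rw [← Real.le_log_iff_exp_le hp0]
      exact h3
    have h5 : 1 / (p : ℝ) ≤ Real.exp (-k) := by
      rw [Real.exp_neg, one_div]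
      exact inv_anti₀ (Real.exp_pos _) h4
    calc 1 / (p : ℝ) ^ 2 = 1 / (p : ℝ) * (1 / (p : ℝ)) := by field_simp
      _ ≤ _ := mul_le_mul_of_nonneg_right h5 (by positivity)
  have h0 : 0 ≤ ∑ p ∈ T, 1 / (p : ℝ) := sum_nonneg fun p _ => by positivity
  have h0' : 0 ≤ ∑ p ∈ T, 1 / (p : ℝ) ^ 2 := sum_nonneg fun p _ => by positivity
  have h3 : (q * h) * (∑ p ∈ T, 1 / (p : ℝ) ^ 2) ^ j ≤ (4 / (k : ℝ)) ^ j := by
    have h4 := pow_le_pow_left₀ h0' h2 j
    rw [mul_pow, ← Real.exp_nat_mul] at h4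
    have h5 : (q * h) * Real.exp (j * -k) ≤ 1 := by
      have h6 : (q * h : ℝ) = Real.exp (Real.log (q * h)) := (Real.exp_log hZ).symm
      rw [h6, ← Real.exp_add]
      exact Real.exp_le_one_iff.2 (by nlinarith)
    calc (q * h) * (∑ p ∈ T, 1 / (p : ℝ) ^ 2) ^ j
        ≤ (q * h) * (Real.exp (j * -k) * (4 / (k : ℝ)) ^ j) :=
          mul_le_mul_of_nonneg_left h4 hZ.le
      _ = ((q * h) * Real.exp (j * -k)) * (4 / (k : ℝ)) ^ j := by ring
      _ ≤ 1 * (4 / (k : ℝ)) ^ j := mul_le_mul_of_nonneg_right h5 (by positivity)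
      _ = _ := one_mul _
  have h4 : (∑ p ∈ T, 1 / (p : ℝ)) ^ j ≤ (4 / (k : ℝ)) ^ j := pow_le_pow_left₀ h0 h1 j
  have h5 : ((j.factorial : ℕ) : ℝ) ≤ (j : ℝ) ^ j := by
    exact_mod_cast Nat.factorial_le_pow j
  have h6 : 8 * (q * h) * (∑ p ∈ T, 1 / (p : ℝ) ^ 2) ^ j + 96 * (∑ p ∈ T, 1 / (p : ℝ)) ^ j ≤
      104 * (4 / (k : ℝ)) ^ j := by nlinarith
  rw [div_le_iff₀ (by positivity)]
  calc M ^ (2 * j) * j.factorial * (8 * (q * h) * (∑ p ∈ T, 1 / (p : ℝ) ^ 2) ^ j +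
        96 * (∑ p ∈ T, 1 / (p : ℝ)) ^ j)
      ≤ M ^ (2 * j) * (j : ℝ) ^ j * (104 * (4 / (k : ℝ)) ^ j) := by
        refine mul_le_mul (mul_le_mul_of_nonneg_left h5 (by positivity)) h6 (by positivity)
          (by positivity)
    _ = 104 * (j * (4 * M ^ 2 * k ^ 3)) ^ j * (1 / (k : ℝ) ^ 2) ^ (2 * j) := by
        have e1 : (1 / (k : ℝ) ^ 2) ^ (2 * j) = (1 / (k : ℝ) ^ 4) ^ j := by
          rw [pow_mul]
          congr 1
          field_simp
        rw [e1, mul_assoc 104, ← mul_pow, pow_mul]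
        have e2 : M ^ 2 = M ^ 2 := rfl
        calc (M ^ 2) ^ j * (j : ℝ) ^ j * (104 * (4 / (k : ℝ)) ^ j)
            = 104 * ((M ^ 2) * (j : ℝ) * (4 / (k : ℝ))) ^ j := by
              rw [mul_pow, mul_pow]
              ring
          _ = _ := by
              congr 2
              field_simp

/-- The numerical bound for the blocks. -/
lemma numer {M B η : ℝ} (hM : 1 ≤ M) (hB : 0 < B) (hη : 0 < η) :
    ∃ L₀ : ℝ, 1 ≤ L₀ ∧ ∀ L : ℝ, L₀ ≤ L → ∀ k : ℕ, ⌊B * Real.log L⌋₊ ≤ k → (k : ℝ) ≤ L →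
      (1 ≤ k ∧ (⌈L / k⌉₊ * (4 * M ^ 2 * k ^ 3) : ℝ) ^ ⌈L / k⌉₊ ≤ Real.exp (L * (1 / B + η))) := by
  have hM0 : 0 < M := by linarith
  set A := Real.log (8 * M ^ 2) with hA
  have hA0 : 0 ≤ A := Real.log_nonneg (by nlinarith)
  have t1 : Tendsto (fun x : ℝ => Real.log x / x) atTop (𝓝 0) := by
    have := Real.isLittleO_log_id_atTop.tendsto_div_nhds_zero
    simpa using this
  have t2 : Tendsto (fun x : ℝ => (1 / B + A) / x + 2 * (Real.log x / x)) atTop (𝓝 0) := by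
    have h1 : Tendsto (fun x : ℝ => (1 / B + A) / x) atTop (𝓝 0) :=
      tendsto_const_nhds.div_atTop tendsto_id
    have h2 := h1.add (t1.const_mul 2)
    simpa using h2
  have t3 : Tendsto (fun x : ℝ => A / x + 3 * (Real.log x / x)) atTop (𝓝 0) := by
    have h1 : Tendsto (fun x : ℝ => A / x) atTop (𝓝 0) :=
      tendsto_const_nhds.div_atTop tendsto_id
    have h2 := h1.add (t1.const_mul 3)
    simpa using h2
  have t4 := t2.comp tendsto_natCast_atTop_atTop (α := ℕ)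
  obtain ⟨K₁, hK₁⟩ := eventually_atTop.1 (t4.eventually (gt_mem_nhds (half_pos hη)))
  obtain ⟨L₁, hL₁⟩ := eventually_atTop.1 (t3.eventually (gt_mem_nhds (half_pos hη)))
  have t5 : Tendsto (fun L : ℝ => B * Real.log L) atTop atTop :=
    Real.tendsto_log_atTop.const_mul_atTop hB
  obtain ⟨L₂, hL₂⟩ := eventually_atTop.1 (t5.eventually_ge_atTop ((max K₁ 1 : ℕ) : ℝ))
  refine ⟨max (max L₁ L₂) 1, le_max_right _ _, ?_⟩
  intro L hL k hk hkL
  have hLL1 : L₁ ≤ L := (le_max_left _ _).trans ((le_max_left _ _).trans hL)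
  have hLL2 : L₂ ≤ L := (le_max_right _ _).trans ((le_max_left _ _).trans hL)
  have hL1 : 1 ≤ L := (le_max_right _ _).trans hL
  have hkK : max K₁ 1 ≤ k := (Nat.le_floor (hL₂ L hLL2)).trans hk
  have hk1 : 1 ≤ k := (le_max_right _ _).trans hkK
  refine ⟨hk1, ?_⟩
  have hk0 : (0 : ℝ) < k := by exact_mod_cast hk1
  have hk1' : (1 : ℝ) ≤ k := by exact_mod_cast hk1
  have hL0 : 0 < L := by linarith
  set j := ⌈L / k⌉₊ with hj
  have hj1 : (j : ℝ) < L / k + 1 := Nat.ceil_lt_add_one (by positivity)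
  have h1 : 1 ≤ L / k := by
    rw [le_div_iff₀ hk0]
    linarith
  have hj2 : (j : ℝ) ≤ 2 * (L / k) := by linarith
  have hbase : (j * (4 * M ^ 2 * k ^ 3) : ℝ) ≤ 8 * M ^ 2 * L * k ^ 2 := by
    calc (j * (4 * M ^ 2 * k ^ 3) : ℝ) ≤ (2 * (L / k)) * (4 * M ^ 2 * k ^ 3) :=
          mul_le_mul_of_nonneg_right hj2 (by positivity)
      _ = _ := by
          field_simp
          ring
  have hb0 : (0 : ℝ) ≤ j * (4 * M ^ 2 * k ^ 3) := by positivity
  refine (pow_le_pow_left₀ hb0 hbase j).trans ?_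
  have hlogb : Real.log (8 * M ^ 2 * L * k ^ 2) = A + Real.log L + 2 * Real.log k := by
    rw [Real.log_mul (by positivity) (by positivity), Real.log_mul (by positivity) (by positivity),
      Real.log_pow, ← hA]
    push_cast
    ring
  have hbp : (0 : ℝ) < 8 * M ^ 2 * L * k ^ 2 := by positivity
  rw [← Real.exp_log hbp, ← Real.exp_nat_mul, Real.exp_le_exp, hlogb]
  have hlL : 0 ≤ Real.log L := Real.log_nonneg hL1
  have hlk : 0 ≤ Real.log k := Real.log_nonneg hk1'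
  have hX0 : 0 ≤ A + Real.log L + 2 * Real.log k := by positivity
  refine (mul_le_mul_of_nonneg_right hj1.le hX0).trans ?_
  -- the two estimates
  have h2 : (1 / B + A) / k + 2 * (Real.log k / k) < η / 2 :=
    hK₁ k ((le_max_left _ _).trans hkK)
  have h3 : A / L + 3 * (Real.log L / L) < η / 2 := hL₁ L hLL1
  have h4 : Real.log L ≤ (k + 1) / B := by
    rw [le_div_iff₀ hB, mul_comm]
    have := Nat.lt_floor_add_one (B * Real.log L)
    have h5 : (⌊B * Real.log L⌋₊ : ℝ) ≤ k := by exact_mod_cast hk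
    linarith
  have h5 : Real.log k ≤ Real.log L := Real.log_le_log hk0 hkL
  have h6 : L / k * (A + Real.log L + 2 * Real.log k) ≤ L * (1 / B + η / 2) := by
    calc L / k * (A + Real.log L + 2 * Real.log k)
        ≤ L / k * (A + (k + 1) / B + 2 * Real.log k) := by gcongr
      _ = L * (1 / B + ((1 / B + A) / k + 2 * (Real.log k / k))) := by
          field_simp
          ring
      _ ≤ _ := by gcongr
  have h7 : A + Real.log L + 2 * Real.log k ≤ L * (η / 2) := by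
    calc A + Real.log L + 2 * Real.log k ≤ A + 3 * Real.log L := by linarith
      _ = L * (A / L + 3 * (Real.log L / L)) := by
          field_simp
      _ ≤ _ := by gcongr
  calc (L / k + 1) * (A + Real.log L + 2 * Real.log k)
      = L / k * (A + Real.log L + 2 * Real.log k) + (A + Real.log L + 2 * Real.log k) := by ring
    _ ≤ L * (1 / B + η / 2) + L * (η / 2) := add_le_add h6 h7
    _ = _ := by ring

end Pool.Agent.U309.LV
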