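import Pool.Agent.U309.LV.A4
import Pool.Agent.Helper256.KM.Mertens

/-!
# The boundary function of an Euler product without small primes is small off a thin set
-/

set_option autoImplicit false

namespace Pool.Agent.U309.LV

open MeasureTheory Finset Filter Topology
open scoped ComplexConjugate ENNReal
open Pool.Agent.W350.Edge (lg lg_le lt_lg cheb divSet)
open Pool.Agent.TH339.MP

/-- the twisted coefficients -/
noncomputable def tc {q : ℕ} (b : PP → ℂ) (χ : DirichletCharacter ℂ q) (x : PP) : ℂ :=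
  χ ((qq x : ℕ) : ZMod q) * b x

lemma norm_tc {q : ℕ} {b : PP → ℂ} {M : ℝ} (hb : ∀ x, ‖b x‖ ≤ M / (x.2 + 1 : ℕ))
    (χ : DirichletCharacter ℂ q) (x : PP) : ‖tc b χ x‖ ≤ M / (x.2 + 1 : ℕ) := by
  unfold tc
  rw [norm_mul]
  refine le_trans ?_ (hb x)
  have := DirichletCharacter.norm_le_one χ ((qq x : ℕ) : ZMod q)
  exact mul_le_of_le_one_left (norm_nonneg _) this

/-- the tail of the proper powers -/
lemma pp_tail {δ : ℝ} (hδ : 0 < δ) : ∃ y₀ : ℕ, ∀ U : Finset PP,
    (∀ x ∈ U, x.2 ≠ 0 ∧ y₀ < (x.1 : ℕ)) → ∑ x ∈ U, wt 1 x ≤ δ := by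
  classical
  obtain ⟨s, hs⟩ := wt_sh_summable.vanishing (Iio_mem_nhds hδ)
  refine ⟨s.sup fun x => (x.1 : ℕ), fun U hU => ?_⟩
  have h1 : Disjoint (U.image fun x => ((x.1, x.2 - 1) : PP)) s := by
    rw [Finset.disjoint_left]
    intro x hx hxs
    rw [mem_image] at hx
    obtain ⟨x', hx', rfl⟩ := hx
    have h2 := Finset.le_sup (f := fun x : PP => (x.1 : ℕ)) hxs
    have h3 := (hU x' hx').2
    simp only at h2
    omega
  have h2 := hs _ h1
  rw [sum_image] at h2
  · have h3 : ∑ x ∈ U, wt 1 (sh (x.1, x.2 - 1)) = ∑ x ∈ U, wt 1 x := by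
      refine sum_congr rfl fun x hx => ?_
      congr 1
      have := (hU x hx).1
      exact Prod.ext rfl (by
        change x.2 - 1 + 1 = x.2
        omega)
    rw [h3] at h2
    exact (Set.mem_Iio.1 h2).le
  · intro x hx y hy h
    rw [mem_coe] at hx hy
    have h3 := congrArg Prod.fst h
    have h4 := congrArg Prod.snd h
    simp only at h3 h4
    exact Prod.ext h3 (by have := (hU x hx).1; have := (hU y hy).1; omega)

/-- the primes in a range -/
noncomputable def PR (y : ℝ) (Y : ℕ) : Finset ℕ :=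
  (Finset.Icc 1 Y).filter fun p => p.Prime ∧ y < p

/-- The partial sum over the prime powers against the sum over the primes. -/
lemma PS_sub {q : ℕ} {b : PP → ℂ} {M : ℝ} (hb : ∀ x, ‖b x‖ ≤ M / (x.2 + 1 : ℕ))
    (χ : DirichletCharacter ℂ q) {y : ℝ} (hby : ∀ x : PP, ((x.1 : ℕ) : ℝ) ≤ y → b x = 0) (Y : ℕ)
    {η : ℝ} (hη : ∀ U : Finset PP, (∀ x ∈ U, x.2 ≠ 0 ∧ y < (x.1 : ℕ)) → ∑ x ∈ U, wt 1 x ≤ η)
    (t : ℝ) : ‖PS (tc b χ) Y t - SS q (PR y Y) (ap b) χ t‖ ≤ M * η := by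
  classical
  have hM := M_nonneg hb
  have h1 : PS (tc b χ) Y t = ∑ x ∈ (TX Y).filter (fun x => x.2 = 0 ∧ y < (x.1 : ℕ)),
      (tc b χ x * (wt 1 x : ℂ)) * ee (fr x) t +
      ∑ x ∈ (TX Y).filter (fun x => x.2 ≠ 0 ∧ y < (x.1 : ℕ)),
      (tc b χ x * (wt 1 x : ℂ)) * ee (fr x) t := by
    unfold PS
    have h2 : ∑ x ∈ TX Y, (tc b χ x * (wt 1 x : ℂ)) * ee (fr x) t =
        ∑ x ∈ (TX Y).filter (fun x => y < ((x.1 : ℕ) : ℝ)),
          (tc b χ x * (wt 1 x : ℂ)) * ee (fr x) t := by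
      rw [sum_filter]
      refine sum_congr rfl fun x _ => ?_
      split_ifs with h
      · rfl
      · unfold tc
        rw [hby x (not_lt.1 h)]
        ring
    rw [h2, ← sum_filter_add_sum_filter_not _ (fun x : PP => x.2 = 0), filter_filter, filter_filter]
    congr 1
    · refine sum_congr (filter_congr fun x _ => ?_) fun _ _ => rfl
      tauto
    · refine sum_congr (filter_congr fun x _ => ?_) fun _ _ => rfl
      tauto
  have h2 : ∑ x ∈ (TX Y).filter (fun x => x.2 = 0 ∧ y < (x.1 : ℕ)),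
      (tc b χ x * (wt 1 x : ℂ)) * ee (fr x) t = SS q (PR y Y) (ap b) χ t := by
    unfold SS PR
    refine Finset.sum_bij (fun x _ => (x.1 : ℕ)) ?_ ?_ ?_ ?_
    · intro x hx
      rw [mem_filter, mem_TX] at hx
      rw [mem_filter, mem_Icc]
      have h6 : qq x = x.1 := by
        unfold qq
        rw [hx.2.1, zero_add, pow_one]
      rw [h6] at hx
      exact ⟨⟨x.1.2.one_le, hx.1⟩, x.1.2, hx.2.2⟩
    · intro x hx y hy hxy
      rw [mem_filter] at hx hy
      exact Prod.ext (Subtype.ext hxy) (by rw [hx.2.1, hy.2.1])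
    · intro n hn
      rw [mem_filter, mem_Icc] at hn
      refine ⟨(⟨n, hn.2.1⟩, 0), ?_, rfl⟩
      rw [mem_filter, mem_TX]
      refine ⟨?_, rfl, hn.2.2⟩
      unfold qq
      simp only [zero_add, pow_one]
      exact hn.1.2
    · intro x hx
      rw [mem_filter] at hx
      have h6 : qq x = x.1 := by
        unfold qq
        rw [hx.2.1, zero_add, pow_one]
      have h7 : ap b (x.1 : ℕ) = b x := by
        unfold ap
        rw [dif_pos x.1.2]
        congr 1
        exact Prod.ext rfl hx.2.1.symm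
      rw [h7]
      unfold tc ee
      rw [wt_one, fr_eq, h6]
      push_cast
      rw [mul_one_div]
      congr 2
      push_cast
      ring
  rw [h1, h2, add_sub_cancel_left]
  refine (norm_sum_le _ _).trans ?_
  calc ∑ x ∈ (TX Y).filter (fun x => x.2 ≠ 0 ∧ y < (x.1 : ℕ)),
        ‖(tc b χ x * (wt 1 x : ℂ)) * ee (fr x) t‖
      ≤ ∑ x ∈ (TX Y).filter (fun x => x.2 ≠ 0 ∧ y < (x.1 : ℕ)), M * wt 1 x := by
        refine sum_le_sum fun x _ => ?_
        rw [norm_mul, norm_ee, mul_one, norm_mul, Complex.norm_real,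
          Real.norm_of_nonneg (wt_nonneg 1 x)]
        refine mul_le_mul_of_nonneg_right ?_ (wt_nonneg 1 x)
        exact norm_b_le (norm_tc hb χ) x
    _ = M * ∑ x ∈ (TX Y).filter (fun x => x.2 ≠ 0 ∧ y < (x.1 : ℕ)), wt 1 x := by rw [mul_sum]
    _ ≤ M * η := mul_le_mul_of_nonneg_left (hη _ fun x hx => (mem_filter.1 hx).2) hM

/-- Splitting into blocks. -/
lemma SS_split {q : ℕ} (T : Finset ℕ) (c : ℕ → ℂ) (χ : DirichletCharacter ℂ q) (k₀ K : ℕ)
    (hT : ∀ p ∈ T, k₀ ≤ lg p) (t : ℝ) :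
    SS q T c χ t = ∑ k ∈ Finset.Icc k₀ K, SS q (T.filter fun p => lg p = k) c χ t +
      SS q (T.filter fun p => K < lg p) c χ t := by
  classical
  unfold SS
  rw [← sum_filter_add_sum_filter_not T (fun p => lg p ≤ K)]
  congr 1
  · have h1 : ∀ p ∈ T.filter (fun p => lg p ≤ K), lg p ∈ Finset.Icc k₀ K := by
      intro p hp
      rw [mem_filter] at hp
      rw [mem_Icc]
      exact ⟨hT p hp.1, hp.2⟩
    rw [← sum_fiberwise_of_maps_to h1]
    refine sum_congr rfl fun k hk => ?_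
    rw [filter_filter]
    refine sum_congr (filter_congr fun p _ => ?_) fun _ _ => rfl
    rw [mem_Icc] at hk
    constructor
    · intro h; exact h.2
    · intro h; exact ⟨h ▸ hk.2, h⟩
  · refine sum_congr (filter_congr fun p _ => ?_) fun _ _ => rfl
    exact not_le

/-- The large primes. -/
lemma large : ∃ C : ℝ, 0 ≤ C ∧ ∀ (q : ℕ) [NeZero q] (T : Finset ℕ) (Z : ℝ), 3 ≤ Z →
    (∀ p ∈ T, p.Prime ∧ Z < p ∧ p ≤ ⌊Real.exp Z⌋₊) → ∀ (c : ℕ → ℂ) (M : ℝ), 0 ≤ M →
    (∀ p ∈ T, ‖c p‖ ≤ M) → ∀ (a h V : ℝ), 1 ≤ h → Z = q * h → 0 < V →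
    ∑ χ : DirichletCharacter ℂ q, volume {t | t ∈ Set.Icc a (a + h) ∧ V < ‖SS q T c χ t‖} ≤
      ENNReal.ofReal (M ^ 2 * (16 + 96 * (Real.log Z + C)) / V ^ 2) := by
  obtain ⟨C, hC⟩ := Pool.Agent.Helper256.KM.mertens_inv
  refine ⟨C, (abs_nonneg _).trans (hC 3 le_rfl), ?_⟩
  intro q _ T Z hZ hT c M hM hc a h V hh hZe hV
  refine (meas_SS q T (fun p hp => (hT p hp).1) c hM hc 1 a hh hV).trans
    (ENNReal.ofReal_le_ofReal ?_)
  have hZ0 : 0 < Z := by linarith
  have h1 : ∑ p ∈ T, 1 / (p : ℝ) ^ 2 ≤ 2 / Z := by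
    refine (inv_sq_sum (m0 := ⌊Z⌋₊ + 1) (by omega) T fun p hp => ?_).trans ?_
    · have h2 := (hT p hp).2.1
      have : ⌊Z⌋₊ < p := (Nat.floor_lt hZ0.le).2 h2
      omega
    · have h2 := Nat.lt_floor_add_one Z
      refine div_le_div_of_nonneg_left (by norm_num) hZ0 ?_
      push_cast
      exact h2.le
  have hY3 : 3 ≤ ⌊Real.exp Z⌋₊ := by
    refine Nat.le_floor ?_
    have := Real.add_one_le_exp Z
    push_cast
    linarith
  have h2 : ∑ p ∈ T, 1 / (p : ℝ) ≤ Real.log Z + C := by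
    have h3 := hC _ hY3
    have h4 : ∑ p ∈ T, 1 / (p : ℝ) ≤
        ∑ p ∈ (Finset.Icc 1 ⌊Real.exp Z⌋₊).filter Nat.Prime, (1 : ℝ) / p := by
      refine sum_le_sum_of_subset_of_nonneg ?_ fun _ _ _ => by positivity
      intro p hp
      rw [mem_filter, mem_Icc]
      exact ⟨⟨(hT p hp).1.one_le, (hT p hp).2.2⟩, (hT p hp).1⟩
    have h5 : Real.log (Real.log (⌊Real.exp Z⌋₊ : ℝ)) ≤ Real.log Z := by
      have h6 : (3 : ℝ) ≤ (⌊Real.exp Z⌋₊ : ℝ) := by exact_mod_cast hY3
      refine Real.log_le_log (Real.log_pos (by linarith)) ?_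
      rw [Real.log_le_iff_le_exp (by linarith)]
      exact Nat.floor_le (Real.exp_pos _).le
    have h6 := (abs_le.1 h3).2
    linarith
  have h3 : (q : ℝ) * h * ∑ p ∈ T, 1 / (p : ℝ) ^ 2 ≤ 2 := by
    rw [← hZe]
    calc Z * ∑ p ∈ T, 1 / (p : ℝ) ^ 2 ≤ Z * (2 / Z) := mul_le_mul_of_nonneg_left h1 hZ0.le
      _ = 2 := by field_simp
  rw [mul_one, Nat.factorial_one, Nat.cast_one, mul_one, pow_one, pow_one]
  refine div_le_div_of_nonneg_right (mul_le_mul_of_nonneg_left ?_ (by positivity)) (by positivity)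
  nlinarith

/-- Beyond the exponential. -/
lemma beyond {b : PP → ℂ} {M : ℝ} (hb : ∀ x, ‖b x‖ ≤ M / (x.2 + 1 : ℕ)) (q : ℕ) [NeZero q]
    {Z a h V : ℝ} (hZ : 3 ≤ Z) (hh : 1 ≤ h) (hZe : Z = q * h) (hV : 0 < V) :
    ∑ χ : DirichletCharacter ℂ q, volume {t | t ∈ Set.Icc a (a + h) ∧
        V < ‖bl (tc b χ) t - PS (tc b χ) ⌊Real.exp Z⌋₊ t‖} ≤
      ENNReal.ofReal (4 * (64800 * M ^ 2) / V ^ 2) := by
  have hZ0 : 0 < Z := by linarith
  have hq0 : (0 : ℝ) < q := by exact_mod_cast Nat.pos_of_ne_zero (NeZero.ne q)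
  set Y := ⌊Real.exp Z⌋₊ with hY
  have hY2 : 2 ≤ Y := by
    refine Nat.le_floor ?_
    have := Real.add_one_le_exp Z
    push_cast
    linarith
  have hlogY : Z / 2 ≤ Real.log Y := by
    have h1 : Real.exp Z < Y + 1 := Nat.lt_floor_add_one _
    have hYp : (0 : ℝ) < Y := by exact_mod_cast (by omega : 0 < Y)
    rw [Real.le_log_iff_exp_le hYp]
    have h2 : Real.exp Z = Real.exp (Z / 2) * Real.exp (Z / 2) := by
      rw [← Real.exp_add]
      congr 1
      ring
    have h3 := Real.add_one_le_exp (Z / 2)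
    nlinarith
  have hcard : (Fintype.card (DirichletCharacter ℂ q) : ℝ) ≤ q := by
    rw [← Nat.card_eq_fintype_card, DirichletCharacter.card_eq_totient_of_hasEnoughRootsOfUnity ℂ q]
    exact_mod_cast Nat.totient_le q
  -- one character
  have h1 : ∀ χ : DirichletCharacter ℂ q, volume {t | t ∈ Set.Icc a (a + h) ∧
        V < ‖bl (tc b χ) t - PS (tc b χ) Y t‖} ≤
      ENNReal.ofReal (2 * h * (64800 * M ^ 2 / (Z / 2) / V ^ 2)) := by
    intro χ
    obtain ⟨hm, _, hint⟩ := boundary (norm_tc hb χ)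
    have h2 : {t | t ∈ Set.Icc a (a + h) ∧ V < ‖bl (tc b χ) t - PS (tc b χ) Y t‖} ⊆
        ⋃ i ∈ Finset.range ⌈h⌉₊, {t | t ∈ Set.Icc (a + i) (a + i + 1) ∧
          V < ‖bl (tc b χ) t - PS (tc b χ) Y t‖} := by
      intro t ht
      have hta : 0 ≤ t - a := by linarith [ht.1.1]
      rw [Set.mem_iUnion₂]
      by_cases hlt : ⌊t - a⌋₊ < ⌈h⌉₊
      · refine ⟨⌊t - a⌋₊, mem_range.2 hlt, ⟨?_, ?_⟩, ht.2⟩
        · have := Nat.floor_le hta
          linarith
        · have := Nat.lt_floor_add_one (t - a)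
          linarith
      · -- t = a + h with h an integer
        have h3 : (⌈h⌉₊ : ℝ) ≤ ⌊t - a⌋₊ := by exact_mod_cast not_lt.1 hlt
        have h4 := Nat.floor_le hta
        have h5 := Nat.le_ceil h
        have h6 : t ≤ a + h := ht.1.2
        have h7 : 1 ≤ ⌈h⌉₊ := Nat.one_le_ceil_iff.2 (by linarith)
        refine ⟨⌈h⌉₊ - 1, mem_range.2 (by omega), ⟨?_, ?_⟩, ht.2⟩
        · rw [Nat.cast_sub h7]
          push_cast
          linarith
        · rw [Nat.cast_sub h7]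
          push_cast
          linarith
    refine (measure_mono h2).trans ((measure_biUnion_finset_le _ _).trans ?_)
    have h3 : ∀ i ∈ Finset.range ⌈h⌉₊, volume {t | t ∈ Set.Icc (a + i) (a + i + 1) ∧
        V < ‖bl (tc b χ) t - PS (tc b χ) Y t‖} ≤
        ENNReal.ofReal (64800 * M ^ 2 / (Z / 2) / V ^ 2) := by
      intro i _
      refine (markov0 measurableSet_Icc (hm.sub (continuous_PS _ Y).aemeasurable) hV 2).trans ?_
      rw [ENNReal.ofReal_div_of_pos (by positivity)]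
      refine ENNReal.div_le_div_right ?_ _
      refine (hint Y hY2 (a + i)).trans (ENNReal.ofReal_le_ofReal ?_)
      exact div_le_div_of_nonneg_left (by positivity) (by positivity) hlogY
    refine (sum_le_sum h3).trans ?_
    rw [sum_const, card_range, nsmul_eq_mul, ← ENNReal.ofReal_natCast,
      ← ENNReal.ofReal_mul (by positivity)]
    refine ENNReal.ofReal_le_ofReal (mul_le_mul_of_nonneg_right ?_ (by positivity))
    have := Nat.ceil_lt_add_one (show 0 ≤ h by linarith)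
    linarith
  refine (sum_le_sum fun χ _ => h1 χ).trans ?_
  rw [sum_const, card_univ, nsmul_eq_mul, ← ENNReal.ofReal_natCast,
    ← ENNReal.ofReal_mul (by positivity)]
  refine ENNReal.ofReal_le_ofReal ?_
  calc (Fintype.card (DirichletCharacter ℂ q) : ℝ) * (2 * h * (64800 * M ^ 2 / (Z / 2) / V ^ 2))
      ≤ q * (2 * h * (64800 * M ^ 2 / (Z / 2) / V ^ 2)) :=
        mul_le_mul_of_nonneg_right hcard (by positivity)
    _ = (q * h) * (4 * (64800 * M ^ 2) / Z / V ^ 2) := by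
        field_simp
        ring
    _ = 4 * (64800 * M ^ 2) / V ^ 2 := by
        rw [← hZe]
        field_simp

/-- the last numerical bound -/
lemma numer2 {ε η C D : ℝ} (hε : 0 < ε) (hη : 0 < η) (hD : 0 ≤ D) (hC : 0 ≤ C) :
    ∃ L₀ : ℝ, ∀ L : ℝ, L₀ ≤ L →
      208 * L * Real.exp (L * (ε - η)) + D * (L + C) ≤ Real.exp (L * ε) := by
  have t1 : Tendsto (fun x : ℝ => 208 * (x ^ 1 * Real.exp (-η * x)) +
      (D * (x ^ 1 * Real.exp (-ε * x)) + D * C * (x ^ 0 * Real.exp (-ε * x)))) atTop (𝓝 0) := by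
    have h1 := (Real.tendsto_pow_mul_exp_neg_atTop_nhds_zero 1).comp
      (tendsto_id.const_mul_atTop hη)
    have h2 := (Real.tendsto_pow_mul_exp_neg_atTop_nhds_zero 1).comp
      (tendsto_id.const_mul_atTop hε)
    have h3 := (Real.tendsto_pow_mul_exp_neg_atTop_nhds_zero 0).comp
      (tendsto_id.const_mul_atTop hε)
    have h4 := (h1.const_mul (208 / η)).add ((h2.const_mul (D / ε)).add (h3.const_mul (D * C)))
    simp only [mul_zero, add_zero] at h4
    refine h4.congr fun x => ?_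
    simp only [Function.comp_apply, id_eq, pow_one, pow_zero]
    have e1 : -η * x = -(η * x) := by ring
    have e2 : -ε * x = -(ε * x) := by ring
    rw [e1, e2]
    field_simp
  obtain ⟨L₀, hL₀⟩ := eventually_atTop.1 (t1.eventually (gt_mem_nhds one_pos))
  refine ⟨L₀, fun L hL => ?_⟩
  have h1 := hL₀ L hL
  simp only [pow_one, pow_zero, one_mul] at h1
  have e1 : Real.exp (L * (ε - η)) = Real.exp (L * ε) * Real.exp (-η * L) := by
    rw [← Real.exp_add]
    congr 1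
    ring
  have e2 : Real.exp (L * ε) * Real.exp (-ε * L) = 1 := by
    rw [← Real.exp_add, Real.exp_eq_one_iff]
    ring
  have h0 := Real.exp_pos (L * ε)
  calc 208 * L * Real.exp (L * (ε - η)) + D * (L + C)
      = Real.exp (L * ε) * (208 * (L * Real.exp (-η * L)) +
        (D * (L * Real.exp (-ε * L)) + D * C * Real.exp (-ε * L))) := by
        rw [e1]
        have : D * (L + C) = (Real.exp (L * ε) * Real.exp (-ε * L)) * (D * (L + C)) := by
          rw [e2, one_mul]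
        rw [this]
        ring
    _ ≤ Real.exp (L * ε) * 1 := mul_le_mul_of_nonneg_left h1.le h0.le
    _ = _ := mul_one _

end Pool.Agent.U309.LV
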