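import Pool.Agent.U309.LV.A5

/-!
# The abstract theorem
-/

set_option autoImplicit false

namespace Pool.Agent.U309.LV

open MeasureTheory Finset Filter Topology
open scoped ComplexConjugate ENNReal
open Pool.Agent.W350.Edge (lg lg_le lt_lg cheb divSet)
open Pool.Agent.TH339.MP

/-- **The thin set.** For coefficients supported on the powers of the primes beyond
`(log qh)^B` with `B ε > 1`, the boundary functions of all the twists by the characters modulo `q`
are at most `δ` off a set of characters and heights of total measure at most `(qh)^ε`. -/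
theorem thin {M ε δ B : ℝ} (hM : 1 ≤ M) (hε : 0 < ε) (hδ : 0 < δ) (hB : 0 < B)
    (hBε : 1 < B * ε) :
    ∃ Z₀ : ℝ, 1 ≤ Z₀ ∧ ∀ (q : ℕ) [NeZero q] (h : ℝ), 1 ≤ h → Z₀ ≤ q * h →
      ∀ b : PP → ℂ, (∀ x, ‖b x‖ ≤ M / (x.2 + 1 : ℕ)) →
      (∀ x : PP, ((x.1 : ℕ) : ℝ) ≤ (Real.log (q * h)) ^ B → b x = 0) → ∀ a : ℝ,
      ∑ χ : DirichletCharacter ℂ q, volume {t | t ∈ Set.Icc a (a + h) ∧ δ < ‖bl (tc b χ) t‖} ≤
        ENNReal.ofReal ((q * h) ^ ε) := by
  classical
  have hM0 : 0 < M := by linarith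
  set η : ℝ := (ε - 1 / B) / 2 with hη
  have hη0 : 0 < η := by
    have h1 : 1 / B < ε := by
      rw [div_lt_iff₀ hB]
      linarith
    rw [hη]
    linarith
  obtain ⟨C, hC0, hlarge⟩ := large
  obtain ⟨L₁, hL₁, hnum⟩ := numer hM hB hη0
  set D : ℝ := 96 * M ^ 2 / (δ / 4) ^ 2 with hD
  set C' : ℝ := C + 1 + 4 * 64800 with hC'
  obtain ⟨L₂, hnum2⟩ := numer2 (ε := ε) (η := η) (C := C') (D := D) hε hη0 (by positivity)
    (by positivity)
  obtain ⟨y₀, hy₀⟩ := pp_tail (δ := δ / (4 * M)) (by positivity)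
  -- thresholds
  have t5 : Tendsto (fun L : ℝ => B * Real.log L) atTop atTop :=
    Real.tendsto_log_atTop.const_mul_atTop hB
  obtain ⟨L₃, hL₃⟩ := eventually_atTop.1 (t5.eventually_ge_atTop ((⌈8 / δ⌉₊ + 1 : ℕ) : ℝ))
  obtain ⟨L₄, hL₄⟩ := eventually_atTop.1 ((tendsto_rpow_atTop hB).eventually_ge_atTop (y₀ : ℝ))
  set L₀ : ℝ := max (max (max L₁ L₂) (max L₃ L₄)) 2 with hL₀
  refine ⟨Real.exp L₀, Real.one_le_exp (by rw [hL₀]; exact zero_le_two.trans (le_max_right _ _)), ?_⟩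
  intro q _ h hh hZ₀ b hb hby a
  have hq0 : (0 : ℝ) < q := by exact_mod_cast Nat.pos_of_ne_zero (NeZero.ne q)
  set Z : ℝ := q * h with hZdef
  have hZpos : 0 < Z := by positivity
  set L : ℝ := Real.log Z with hLdef
  have hLL : L₀ ≤ L := by
    rw [hLdef, Real.le_log_iff_exp_le hZpos]
    exact hZ₀
  have l1 : L₁ ≤ L := (le_max_left _ _).trans ((le_max_left _ _).trans ((le_max_left _ _).trans hLL))
  have l2 : L₂ ≤ L := (le_max_right _ _).trans ((le_max_left _ _).trans ((le_max_left _ _).trans hLL))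
  have l3 : L₃ ≤ L := (le_max_left _ _).trans ((le_max_right _ _).trans ((le_max_left _ _).trans hLL))
  have l4 : L₄ ≤ L := (le_max_right _ _).trans ((le_max_right _ _).trans ((le_max_left _ _).trans hLL))
  have l5 : 2 ≤ L := (le_max_right _ _).trans hLL
  have hL0 : 0 < L := by linarith
  have hZ3 : 3 ≤ Z := by
    have h1 : Real.exp 2 ≤ Z := by
      rw [← Real.le_log_iff_exp_le hZpos]
      exact l5
    have := Real.add_one_le_exp 2
    linarith
  set y : ℝ := L ^ B with hy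
  have hyp : 0 < y := Real.rpow_pos_of_pos hL0 B
  have hyy : (y₀ : ℝ) ≤ y := hL₄ L l4
  set k₀ := ⌊B * Real.log L⌋₊ with hk₀
  have hk₀8 : ⌈8 / δ⌉₊ + 1 ≤ k₀ := Nat.le_floor (hL₃ L l3)
  have hk₀1 : 1 ≤ k₀ := by omega
  have hk₀0 : (0 : ℝ) < k₀ := by exact_mod_cast hk₀1
  have hk₀δ : 2 / (k₀ : ℝ) ≤ δ / 4 := by
    have h1 : 8 / δ ≤ k₀ := (Nat.le_ceil _).trans (by exact_mod_cast (by omega : ⌈8 / δ⌉₊ ≤ k₀))
    rw [div_le_iff₀ hδ] at h1
    rw [div_le_div_iff₀ hk₀0 (by norm_num)]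
    nlinarith
  set K := ⌊L⌋₊ with hK
  set Y := ⌊Real.exp Z⌋₊ with hYdef
  set T := PR y Y with hT
  have hTmem : ∀ p ∈ T, p.Prime ∧ y < p ∧ p ≤ Y := by
    intro p hp
    rw [hT, PR, mem_filter, mem_Icc] at hp
    exact ⟨hp.2.1, hp.2.2, hp.1.2⟩
  have hTk : ∀ p ∈ T, k₀ ≤ lg p := by
    intro p hp
    obtain ⟨_, h2, _⟩ := hTmem p hp
    unfold Pool.Agent.W350.Edge.lg
    refine Nat.floor_le_floor ?_
    have h3 : B * Real.log L = Real.log y := by rw [hy, Real.log_rpow hL0]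
    rw [h3]
    exact Real.log_le_log hyp h2.le
  have hcap : ∀ p, ‖ap b p‖ ≤ M := norm_ap hb
  -- the sets
  set E0 : DirichletCharacter ℂ q → Set ℝ := fun χ =>
    {t | t ∈ Set.Icc a (a + h) ∧ δ / 4 < ‖bl (tc b χ) t - PS (tc b χ) Y t‖} with hE0
  set E1 : DirichletCharacter ℂ q → Set ℝ := fun χ =>
    {t | t ∈ Set.Icc a (a + h) ∧ δ / 4 < ‖SS q (T.filter fun p => K < lg p) (ap b) χ t‖} with hE1
  set E2 : ℕ → DirichletCharacter ℂ q → Set ℝ := fun k χ =>
    {t | t ∈ Set.Icc a (a + h) ∧ 1 / (k : ℝ) ^ 2 < ‖SS q (T.filter fun p => lg p = k) (ap b) χ t‖}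
    with hE2
  have hsub : ∀ χ : DirichletCharacter ℂ q,
      {t | t ∈ Set.Icc a (a + h) ∧ δ < ‖bl (tc b χ) t‖} ⊆
        E0 χ ∪ (E1 χ ∪ ⋃ k ∈ Finset.Icc k₀ K, E2 k χ) := by
    intro χ t ht
    by_contra hnot
    rw [Set.mem_union, Set.mem_union, Set.mem_iUnion₂] at hnot
    push Not at hnot
    obtain ⟨n0, n1, n2⟩ := hnot
    have m0 : ‖bl (tc b χ) t - PS (tc b χ) Y t‖ ≤ δ / 4 := by
      by_contra hc
      exact n0 ⟨ht.1, not_le.1 hc⟩
    have m1 : ‖SS q (T.filter fun p => K < lg p) (ap b) χ t‖ ≤ δ / 4 := by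
      by_contra hc
      exact n1 ⟨ht.1, not_le.1 hc⟩
    have m2 : ∀ k ∈ Finset.Icc k₀ K, ‖SS q (T.filter fun p => lg p = k) (ap b) χ t‖ ≤
        1 / (k : ℝ) ^ 2 := by
      intro k hk
      by_contra hc
      exact n2 k hk ⟨ht.1, not_le.1 hc⟩
    have m3 : ‖PS (tc b χ) Y t - SS q T (ap b) χ t‖ ≤ M * (δ / (4 * M)) := by
      refine PS_sub hb χ hby Y (fun U hU => hy₀ U fun x hx => ⟨(hU x hx).1, ?_⟩) t
      have := (hU x hx).2
      exact_mod_cast lt_of_le_of_lt hyy this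
    have m3' : ‖PS (tc b χ) Y t - SS q T (ap b) χ t‖ ≤ δ / 4 := by
      refine m3.trans (le_of_eq ?_)
      field_simp
    have m4 : ‖SS q T (ap b) χ t‖ ≤ δ / 4 + δ / 4 := by
      rw [SS_split T (ap b) χ k₀ K hTk t]
      refine (norm_add_le _ _).trans (add_le_add ?_ m1)
      refine (norm_sum_le _ _).trans ((sum_le_sum m2).trans ?_)
      refine (inv_sq_sum hk₀1 (Finset.Icc k₀ K) fun l hl => (mem_Icc.1 hl).1).trans hk₀δ
    have m5 : bl (tc b χ) t = (bl (tc b χ) t - PS (tc b χ) Y t) +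
        ((PS (tc b χ) Y t - SS q T (ap b) χ t) + SS q T (ap b) χ t) := by ring
    have m6 : ‖bl (tc b χ) t‖ ≤ δ := by
      rw [m5]
      refine (norm_add_le _ _).trans ?_
      have := norm_add_le (PS (tc b χ) Y t - SS q T (ap b) χ t) (SS q T (ap b) χ t)
      linarith
    exact absurd ht.2 (not_lt.2 m6)
  have hmeas : ∀ χ : DirichletCharacter ℂ q,
      volume {t | t ∈ Set.Icc a (a + h) ∧ δ < ‖bl (tc b χ) t‖} ≤
        volume (E0 χ) + (volume (E1 χ) + ∑ k ∈ Finset.Icc k₀ K, volume (E2 k χ)) := by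
    intro χ
    refine (measure_mono (hsub χ)).trans ((measure_union_le _ _).trans ?_)
    gcongr
    refine (measure_union_le _ _).trans ?_
    gcongr
    exact measure_biUnion_finset_le _ _
  refine (sum_le_sum fun χ _ => hmeas χ).trans ?_
  rw [sum_add_distrib, sum_add_distrib, sum_comm]
  -- the three estimates
  have b0 : ∑ χ, volume (E0 χ) ≤ ENNReal.ofReal (4 * (64800 * M ^ 2) / (δ / 4) ^ 2) :=
    beyond hb q hZ3 hh hZdef (by positivity)
  have b1 : ∑ χ, volume (E1 χ) ≤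
      ENNReal.ofReal (M ^ 2 * (16 + 96 * (Real.log Z + C)) / (δ / 4) ^ 2) := by
    refine hlarge q (T.filter fun p => K < lg p) Z hZ3 ?_ (ap b) M hM0.le (fun p _ => hcap p)
      a h (δ / 4) hh hZdef (by positivity)
    intro p hp
    rw [mem_filter] at hp
    obtain ⟨h1, _, h3⟩ := hTmem p hp.1
    refine ⟨h1, ?_, h3⟩
    have hp0 : (0 : ℝ) < p := by exact_mod_cast h1.pos
    have h4 := lg_le h1.one_le
    have h5 : (K : ℝ) + 1 ≤ lg p := by exact_mod_cast hp.2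
    have h6 := Nat.lt_floor_add_one L
    have h7 : L < Real.log p := by linarith
    exact (Real.log_lt_log_iff hZpos hp0).1 h7
  have b2 : ∑ k ∈ Finset.Icc k₀ K, ∑ χ, volume (E2 k χ) ≤
      ENNReal.ofReal (208 * L * Real.exp (L * (ε - η))) := by
    have h1 : ∀ k ∈ Finset.Icc k₀ K, ∑ χ, volume (E2 k χ) ≤
        ENNReal.ofReal (104 * Real.exp (L * (ε - η))) := by
      intro k hk
      rw [mem_Icc] at hk
      have hkL : (k : ℝ) ≤ L := by
        have h2 : (k : ℝ) ≤ K := by exact_mod_cast hk.2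
        exact h2.trans (Nat.floor_le hL0.le)
      obtain ⟨hk1, hn⟩ := hnum L l1 k hk.1 hkL
      have hk0 : (0 : ℝ) < k := by exact_mod_cast hk1
      have h2 := block q hk1 (T.filter fun p => lg p = k) (fun p hp => by
        rw [mem_filter] at hp
        exact ⟨(hTmem p hp.1).1, hp.2⟩) (ap b) hM0.le (fun p _ => hcap p) ⌈L / k⌉₊ a hh (by
          have h3 := Nat.le_ceil (L / k)
          rw [div_le_iff₀ hk0] at h3
          rw [← hZdef]
          linarith)
      refine h2.trans (ENNReal.ofReal_le_ofReal ?_)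
      refine mul_le_mul_of_nonneg_left ?_ (by norm_num)
      refine hn.trans (le_of_eq ?_)
      congr 1
      rw [hη]
      ring
    refine (sum_le_sum h1).trans ?_
    rw [sum_const, nsmul_eq_mul, ← ENNReal.ofReal_natCast, ← ENNReal.ofReal_mul (by positivity)]
    refine ENNReal.ofReal_le_ofReal ?_
    have h2 : ((Finset.Icc k₀ K).card : ℝ) ≤ 2 * L := by
      rw [Nat.card_Icc]
      have h3 : ((K + 1 - k₀ : ℕ) : ℝ) ≤ K := by exact_mod_cast (by omega : K + 1 - k₀ ≤ K)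
      have h4 := Nat.floor_le hL0.le
      linarith
    have h3 := Real.exp_pos (L * (ε - η))
    nlinarith
  refine (add_le_add b0 (add_le_add b1 b2)).trans ?_
  rw [← ENNReal.ofReal_add (by positivity) (by positivity),
    ← ENNReal.ofReal_add (by positivity) (by positivity)]
  refine ENNReal.ofReal_le_ofReal ?_
  have h1 := hnum2 L l2
  have h2 : Z ^ ε = Real.exp (L * ε) := by
    rw [Real.rpow_def_of_pos hZpos]
  rw [h2]
  refine le_trans ?_ h1
  rw [← hLdef, hD, hC']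
  have hV : 0 < (δ / 4) ^ 2 := by positivity
  have h3 : 4 * (64800 * M ^ 2) / (δ / 4) ^ 2 + M ^ 2 * (16 + 96 * (L + C)) / (δ / 4) ^ 2 ≤
      96 * M ^ 2 / (δ / 4) ^ 2 * (L + (C + 1 + 4 * 64800)) := by
    rw [← add_div, div_mul_eq_mul_div]
    refine div_le_div_of_nonneg_right ?_ hV.le
    nlinarith [sq_nonneg M]
  linarith

end Pool.Agent.U309.LV
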