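import Pool.Agent.U309.LV.A6
import Pool.Agent.H305R2.MertensE

/-!
# The boundary function off the thin set: the short Euler product and the size
-/

set_option autoImplicit false

namespace Pool.Agent.U309.LV

open MeasureTheory Finset Filter Topology
open scoped ComplexConjugate ENNReal
open Pool.Agent.W350.Edge (lg lg_le lt_lg cheb divSet ps term)
open Pool.Agent.TH339.MP

open Classical in
/-- the primes up to `y` -/
noncomputable def tr (y : ℝ) (b : PP → ℂ) (x : PP) : ℂ := if ((x.1 : ℕ) : ℝ) ≤ y then b x else 0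

open Classical in
/-- the primes beyond `y` -/
noncomputable def cu (y : ℝ) (b : PP → ℂ) (x : PP) : ℂ := if ((x.1 : ℕ) : ℝ) ≤ y then 0 else b x

lemma tr_add_cu (y : ℝ) (b : PP → ℂ) (x : PP) : b x = tr y b x + cu y b x := by
  unfold tr cu
  split_ifs <;> ring

lemma norm_tr {b : PP → ℂ} {M : ℝ} (hb : ∀ x, ‖b x‖ ≤ M / (x.2 + 1 : ℕ)) (y : ℝ) (x : PP) :
    ‖tr y b x‖ ≤ M / (x.2 + 1 : ℕ) := by
  unfold tr
  split_ifs
  · exact hb x
  · rw [norm_zero]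
    exact (norm_nonneg _).trans (hb x)

lemma norm_cu {b : PP → ℂ} {M : ℝ} (hb : ∀ x, ‖b x‖ ≤ M / (x.2 + 1 : ℕ)) (y : ℝ) (x : PP) :
    ‖cu y b x‖ ≤ M / (x.2 + 1 : ℕ) := by
  unfold cu
  split_ifs
  · rw [norm_zero]
    exact (norm_nonneg _).trans (hb x)
  · exact hb x

lemma tc_tr {q : ℕ} (y : ℝ) (b : PP → ℂ) (χ : DirichletCharacter ℂ q) :
    tc (tr y b) χ = tr y (tc b χ) := by
  funext x
  unfold tc tr
  split_ifs
  · rfl
  · rw [mul_zero]

lemma tc_cu {q : ℕ} (y : ℝ) (b : PP → ℂ) (χ : DirichletCharacter ℂ q) :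
    tc (cu y b) χ = cu y (tc b χ) := by
  funext x
  unfold tc cu
  split_ifs
  · rw [mul_zero]
  · rfl

lemma tr_conv (y : ℝ) (b : PP → ℂ) (τ : ℝ) : τ ∉ divSet (ap (tr y b)) := by
  intro h
  refine h ⟨ps (ap (tr y b)) τ (⌊y⌋₊ + 1), ?_⟩
  refine tendsto_atTop_of_eventually_const (i₀ := ⌊y⌋₊ + 1) fun x hx => ?_
  unfold Pool.Agent.W350.Edge.ps
  symm
  refine sum_subset (range_mono hx) fun p _ hp => ?_
  rw [mem_range, not_lt] at hp
  unfold Pool.Agent.W350.Edge.term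
  split_ifs with h1
  · have h2 : ap (tr y b) p = 0 := by
      unfold ap tr
      rw [dif_pos h1, if_neg]
      rw [not_le]
      exact (Nat.floor_lt' h1.ne_zero).1 (by omega)
    rw [h2]
    simp
  · rfl

lemma PS_add (y : ℝ) (b : PP → ℂ) (X : ℕ) (τ : ℝ) :
    PS b X τ = PS (tr y b) X τ + PS (cu y b) X τ := by
  unfold PS
  rw [← sum_add_distrib]
  refine sum_congr rfl fun x _ => ?_
  rw [tr_add_cu y b x]
  ring

lemma bl_add {b : PP → ℂ} {M : ℝ} (hb : ∀ x, ‖b x‖ ≤ M / (x.2 + 1 : ℕ)) (y τ : ℝ)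
    (h1 : τ ∉ divSet (ap b)) (h2 : τ ∉ divSet (ap (cu y b))) :
    bl b τ = bl (tr y b) τ + bl (cu y b) τ := by
  have t1 := PS_tendsto hb h1
  have t2 := PS_tendsto (norm_tr hb y) (tr_conv y b τ)
  have t3 := PS_tendsto (norm_cu hb y) h2
  refine tendsto_nhds_unique t1 ((t2.add t3).congr fun X => ?_)
  exact (PS_add y b X τ).symm

/-- the Mertens product -/
noncomputable def mp (y : ℝ) : ℝ := ∏ p ∈ (Finset.Icc 1 ⌊y⌋₊).filter Nat.Prime, (1 - (p : ℝ)⁻¹)⁻¹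

lemma mp_pos (y : ℝ) : 0 < mp y := by
  unfold mp
  refine prod_pos fun p hp => ?_
  have hp2 : (2 : ℝ) ≤ p := by exact_mod_cast (mem_filter.1 hp).2.two_le
  have : (p : ℝ)⁻¹ ≤ 1 / 2 := by
    rw [inv_le_comm₀ (by linarith) (by norm_num)]
    linarith
  rw [inv_pos]
  linarith

lemma PS_tr_le {b : PP → ℂ} {m : ℝ} (hb : ∀ x, ‖b x‖ ≤ m / (x.2 + 1 : ℕ)) (y : ℝ) (X : ℕ) (τ : ℝ) :
    ‖PS (tr y b) X τ‖ ≤ m * Real.log (mp y) := by
  classical
  have hm := M_nonneg hb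
  unfold PS
  refine (norm_sum_le _ _).trans ?_
  obtain ⟨F, hFm⟩ : ∃ F : Finset Nat.Primes, ∀ p : Nat.Primes, p ∈ F ↔ (p : ℕ) ≤ ⌊y⌋₊ := by
    have hfin : {p : Nat.Primes | (p : ℕ) ≤ ⌊y⌋₊}.Finite :=
      (Set.finite_Iic ⌊y⌋₊).preimage (Nat.Primes.coe_nat_injective.injOn)
    exact ⟨hfin.toFinset, fun p => by simp⟩
  have h1 : ∑ x ∈ TX X, ‖(tr y b x * (wt 1 x : ℂ)) * ee (fr x) τ‖ ≤
      ∑ x ∈ (TX X).filter (fun x => ((x.1 : ℕ) : ℝ) ≤ y),
        m * ((((x.1 : ℕ) : ℝ)⁻¹) ^ (x.2 + 1) / ((x.2 : ℝ) + 1)) := by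
    rw [sum_filter]
    refine sum_le_sum fun x _ => ?_
    rw [norm_mul, norm_ee, mul_one, norm_mul, Complex.norm_real, Real.norm_of_nonneg (wt_nonneg 1 x)]
    unfold tr
    split_ifs with h
    · have h2 : wt 1 x = (((x.1 : ℕ) : ℝ)⁻¹) ^ (x.2 + 1) := by
        unfold wt
        rw [Real.rpow_neg_one]
      rw [h2]
      refine (mul_le_mul_of_nonneg_right (hb x) (by positivity)).trans (le_of_eq ?_)
      push_cast
      field_simp
    · rw [norm_zero, zero_mul]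
  refine h1.trans ?_
  have h2 : (TX X).filter (fun x => ((x.1 : ℕ) : ℝ) ≤ y) ⊆ F ×ˢ range X := by
    intro x hx
    rw [mem_filter, mem_TX] at hx
    rw [mem_product, hFm, mem_range]
    refine ⟨Nat.le_floor hx.2, ?_⟩
    have h3 : x.2 + 1 < 2 ^ (x.2 + 1) := Nat.lt_two_pow_self
    have h4 : 2 ^ (x.2 + 1) ≤ qq x := Nat.pow_le_pow_left x.1.2.two_le _
    omega
  refine (sum_le_sum_of_subset_of_nonneg h2 fun x _ _ => by positivity).trans ?_
  rw [← mul_sum, sum_product]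
  refine mul_le_mul_of_nonneg_left ?_ hm
  have h3 : ∀ p ∈ F, ∑ k ∈ range X, (((p : ℕ) : ℝ)⁻¹) ^ (k + 1) / ((k : ℝ) + 1) ≤
      Real.log ((1 - ((p : ℕ) : ℝ)⁻¹)⁻¹) := by
    intro p _
    have hp2 : (2 : ℝ) ≤ (p : ℕ) := by exact_mod_cast p.2.two_le
    have hlt : |((p : ℕ) : ℝ)⁻¹| < 1 := by
      rw [abs_of_nonneg (by positivity)]
      exact inv_lt_one_of_one_lt₀ (by linarith)
    have h4 := Real.hasSum_pow_div_log_of_abs_lt_one hlt
    rw [Real.log_inv]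
    exact sum_le_hasSum _ (fun k _ => by positivity) h4
  refine (sum_le_sum h3).trans (le_of_eq ?_)
  have hne : ∀ p ∈ (Finset.Icc 1 ⌊y⌋₊).filter Nat.Prime, (1 - (p : ℝ)⁻¹)⁻¹ ≠ 0 := by
    intro p hp
    have hp2 : (2 : ℝ) ≤ p := by exact_mod_cast (mem_filter.1 hp).2.two_le
    have : (p : ℝ)⁻¹ ≤ 1 / 2 := by
      rw [inv_le_comm₀ (by linarith) (by norm_num)]
      linarith
    have h5 : 0 < 1 - (p : ℝ)⁻¹ := by linarith
    positivity
  unfold mp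
  rw [Real.log_prod hne]
  refine Finset.sum_bij (fun p _ => (p : ℕ)) ?_ ?_ ?_ ?_
  · intro p hp
    rw [hFm] at hp
    exact mem_filter.2 ⟨mem_Icc.2 ⟨p.2.one_le, hp⟩, p.2⟩
  · intro p _ p' _ h
    exact Subtype.ext h
  · intro p hp
    rw [mem_filter, mem_Icc] at hp
    exact ⟨⟨p, hp.2⟩, (hFm _).2 hp.1.2, rfl⟩
  · intro p _
    rfl

lemma bl_tr_le {b : PP → ℂ} {m : ℝ} (hb : ∀ x, ‖b x‖ ≤ m / (x.2 + 1 : ℕ)) (y τ : ℝ) :
    ‖bl (tr y b) τ‖ ≤ m * Real.log (mp y) :=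
  le_of_tendsto' (PS_tendsto (norm_tr hb y) (tr_conv y b τ)).norm fun X => PS_tr_le hb y X τ

/-- the size of the Mertens product -/
lemma mp_le {κ δ : ℝ} (hκ : 0 < κ) (hδ : 0 < δ) : ∃ L₀ : ℝ, ∀ L : ℝ, L₀ ≤ L →
    mp (L ^ κ) ≤ (1 + δ) * (Real.exp Real.eulerMascheroniConstant * (κ * Real.log L)) := by
  set G := Real.exp Real.eulerMascheroniConstant with hG
  have hG0 : 0 < G := Real.exp_pos _
  have h1 := Pool.Agent.H305R2.mertens_three
  have h2 : G < (1 + δ) * G := by nlinarith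
  obtain ⟨N₀, hN₀⟩ := eventually_atTop.1 (h1.eventually (gt_mem_nhds h2))
  obtain ⟨L₁, hL₁⟩ := eventually_atTop.1
    ((tendsto_rpow_atTop hκ).eventually_ge_atTop ((max N₀ 2 : ℕ) : ℝ))
  refine ⟨max L₁ 1, fun L hL => ?_⟩
  have hL1 : L₁ ≤ L := (le_max_left _ _).trans hL
  have hL0 : 0 < L := lt_of_lt_of_le one_pos ((le_max_right _ _).trans hL)
  have h3 : max N₀ 2 ≤ ⌊L ^ κ⌋₊ := Nat.le_floor (hL₁ L hL1)
  have h4 := hN₀ _ ((le_max_left _ _).trans h3)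
  have h5 : 2 ≤ ⌊L ^ κ⌋₊ := (le_max_right _ _).trans h3
  have h6 : (2 : ℝ) ≤ (⌊L ^ κ⌋₊ : ℝ) := by exact_mod_cast h5
  have h7 : 0 < Real.log (⌊L ^ κ⌋₊ : ℝ) := Real.log_pos (by linarith)
  rw [div_lt_iff₀ h7] at h4
  have h8 : Real.log (⌊L ^ κ⌋₊ : ℝ) ≤ κ * Real.log L := by
    rw [← Real.log_rpow hL0]
    exact Real.log_le_log (by linarith) (Nat.floor_le (by positivity))
  unfold mp
  calc _ ≤ (1 + δ) * G * Real.log (⌊L ^ κ⌋₊ : ℝ) := h4.le
    _ ≤ (1 + δ) * G * (κ * Real.log L) := by gcongr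
    _ = _ := by ring

/-- **The boundary function off a thin set.** -/
theorem thin2 {M κ δ : ℝ} (hM : 1 ≤ M) (hκ : 0 < κ) (hδ : 0 < δ) :
    ∃ Z₀ : ℝ, 1 < Z₀ ∧ ∀ (q : ℕ) [NeZero q] (h : ℝ), 1 ≤ h → Z₀ ≤ q * h →
      ∀ m : ℝ, 1 ≤ m → m ≤ M → ∀ b : PP → ℂ, (∀ x, ‖b x‖ ≤ m / (x.2 + 1 : ℕ)) → ∀ a : ℝ,
      ∃ E : DirichletCharacter ℂ q → Set ℝ,
        ∑ χ, volume (E χ) ≤ ENNReal.ofReal ((q * h) ^ (1 / κ + δ)) ∧
        ∀ χ, ∀ t ∈ Set.Icc a (a + h), t ∉ E χ → t ∉ divSet (ap (tc b χ)) ∧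
          ‖Complex.exp (bl (tc b χ) t) /
            Complex.exp (bl (tc (tr ((Real.log (q * h)) ^ κ) b) χ) t) - 1‖ ≤ δ ∧
          |(bl (tc b χ) t).re| ≤ m * Real.log ((1 + δ) *
            (Real.exp Real.eulerMascheroniConstant * (κ * Real.log (Real.log (q * h))))) := by
  set δ₁ : ℝ := min δ 1 with hδ₁
  have hδ₁0 : 0 < δ₁ := lt_min hδ one_pos
  have hδ₁1 : δ₁ ≤ 1 := min_le_right _ _
  have hδ₁δ : δ₁ ≤ δ := min_le_left _ _
  set δ₂ : ℝ := δ₁ / 4 with hδ₂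
  have hδ₂0 : 0 < δ₂ := by positivity
  obtain ⟨Z₁, hZ₁, H⟩ := thin (M := M) (ε := 1 / κ + δ) (δ := δ₂) (B := κ) hM (by positivity) hδ₂0 hκ
    (by
      have : κ * (1 / κ + δ) = 1 + κ * δ := by field_simp
      rw [this]
      nlinarith [mul_pos hκ hδ])
  obtain ⟨L₀, hL₀⟩ := mp_le (δ := δ₂) hκ hδ₂0
  refine ⟨max Z₁ (Real.exp (max L₀ 3)), ?_, ?_⟩
  · refine lt_of_lt_of_le ?_ (le_max_right _ _)
    rw [Real.one_lt_exp_iff]
    exact lt_of_lt_of_le (by norm_num) (le_max_right _ _)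
  intro q _ h hh hZ m hm hmM b hb a
  have hq0 : (0 : ℝ) < q := by exact_mod_cast Nat.pos_of_ne_zero (NeZero.ne q)
  set Z : ℝ := q * h with hZdef
  have hZpos : 0 < Z := by positivity
  set L : ℝ := Real.log Z with hLdef
  have hLL : max L₀ 3 ≤ L := by
    rw [hLdef, Real.le_log_iff_exp_le hZpos]
    exact (le_max_right _ _).trans hZ
  have l1 : L₀ ≤ L := (le_max_left _ _).trans hLL
  have l2 : 3 ≤ L := (le_max_right _ _).trans hLL
  have hlL : 1 < Real.log L := by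
    rw [Real.lt_log_iff_exp_lt (by linarith)]
    have := Real.exp_one_lt_d9
    linarith
  set y : ℝ := L ^ κ with hy
  have hbM : ∀ x, ‖b x‖ ≤ M / (x.2 + 1 : ℕ) := fun x =>
    (hb x).trans (div_le_div_of_nonneg_right hmM (by positivity))
  have H1 := H q h hh ((le_max_left _ _).trans hZ) (cu y b) (norm_cu hbM y) (fun x hx => by
    unfold cu
    rw [if_pos hx]) a
  refine ⟨fun χ => {t | t ∈ Set.Icc a (a + h) ∧ δ₂ < ‖bl (tc (cu y b) χ) t‖} ∪
    (divSet (ap (tc b χ)) ∪ divSet (ap (tc (cu y b) χ))), ?_, ?_⟩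
  · have hnull : ∀ (c : PP → ℂ), (∀ x, ‖c x‖ ≤ M / (x.2 + 1 : ℕ)) → volume (divSet (ap c)) = 0 :=
      fun c hc => measure_eq_zero_iff_ae_notMem.2 (ae_notMem hc)
    refine (sum_le_sum fun χ _ => ?_).trans H1
    refine (measure_union_le _ _).trans ?_
    have h0 : volume (divSet (ap (tc b χ)) ∪ divSet (ap (tc (cu y b) χ))) = 0 :=
      measure_union_null (hnull _ (norm_tc hbM χ)) (hnull _ (norm_tc (norm_cu hbM y) χ))
    rw [h0, add_zero]
  · intro χ t ht hE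
    simp only [Set.mem_union, not_or] at hE
    obtain ⟨e1, e2, e3⟩ := hE
    have h1 : ‖bl (tc (cu y b) χ) t‖ ≤ δ₂ := by
      by_contra hc
      exact e1 ⟨ht, not_le.1 hc⟩
    have h2 : bl (tc b χ) t = bl (tc (tr y b) χ) t + bl (tc (cu y b) χ) t := by
      rw [tc_tr, tc_cu]
      rw [tc_cu] at e3
      exact bl_add (norm_tc hb χ) y t e2 e3
    refine ⟨e2, ?_, ?_⟩
    · rw [← Complex.exp_sub, h2, add_sub_cancel_left]
      refine (Complex.norm_exp_sub_one_le ?_).trans ?_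
      · linarith
      · linarith
    · have h3 : |(bl (tc b χ) t).re| ≤ m * Real.log (mp y) + δ₂ := by
        refine (Complex.abs_re_le_norm _).trans ?_
        rw [h2]
        refine (norm_add_le _ _).trans (add_le_add ?_ h1)
        rw [tc_tr]
        exact bl_tr_le (norm_tc hb χ) y t
      refine h3.trans ?_
      have h4 : δ₂ ≤ m * δ₂ := le_mul_of_one_le_left hδ₂0.le hm
      have h5 : m * Real.log (mp y) + δ₂ ≤ m * (Real.log (mp y) + δ₂) := by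
        rw [mul_add]
        linarith
      refine h5.trans (mul_le_mul_of_nonneg_left ?_ (by linarith))
      have h6 : Real.log (mp y) + δ₂ = Real.log (mp y * Real.exp δ₂) := by
        rw [Real.log_mul (mp_pos y).ne' (Real.exp_pos _).ne', Real.log_exp]
      rw [h6]
      refine Real.log_le_log (mul_pos (mp_pos y) (Real.exp_pos _)) ?_
      have h7 := hL₀ L l1
      set W := Real.exp Real.eulerMascheroniConstant * (κ * Real.log L) with hW
      have hW0 : 0 < W := by positivity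
      have h8 : Real.exp δ₂ ≤ 1 + 2 * δ₂ := by
        have h9 := Real.exp_bound_div_one_sub_of_interval hδ₂0.le (by linarith : δ₂ < 1)
        refine h9.trans ?_
        rw [div_le_iff₀ (by linarith)]
        nlinarith
      calc mp y * Real.exp δ₂ ≤ ((1 + δ₂) * W) * (1 + 2 * δ₂) :=
            mul_le_mul h7 h8 (Real.exp_pos _).le (by positivity)
        _ = ((1 + δ₂) * (1 + 2 * δ₂)) * W := by ring
        _ ≤ (1 + δ) * W := by
            refine mul_le_mul_of_nonneg_right ?_ hW0.le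
            nlinarith

end Pool.Agent.U309.LV
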