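import Pool.Agent.U309.LV.A7
import Pool.Agent.Y770.SC.Rep2

/-!
# The L-functions of varieties on the edge off thin sets of characters and heights
-/

set_option autoImplicit false

namespace Pool.Agent.U309.LV

open MeasureTheory Finset Filter Topology NumberField IsDedekindDomain
open scoped ComplexConjugate ENNReal
open Pool.Agent.W350.Edge (divSet)
open Pool.Agent.TH339.MP
open Pool.Agent.Y770.SC (nb tw bb_tw norm_nb LT LT_eq chi_one chi_mul)
open Pool.Agent.TH958.BV (edgePoint angle)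

section
variable {K : Type} [Field K] [NumberField K] {N : ℕ}

/-- the primes of `K` above the primes beyond `y` -/
def bey (K : Type) [Field K] [NumberField K] (y : ℝ) : Set (HeightOneSpectrum (𝓞 K)) :=
  {v | ∃ p f : ℕ, p.Prime ∧ y < p ∧ Ideal.absNorm v.asIdeal = p ^ f}

lemma mem_bey (y : ℝ) (v : HeightOneSpectrum (𝓞 K)) : v ∈ bey K y ↔ y < (pr v : ℕ) := by
  constructor
  · rintro ⟨p, f, hp, hy, h⟩
    have h1 : ((pr v : ℕ)) ^ dg v = p ^ f := by
      rw [← nm_eq v]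
      exact h
    have h2 : (pr v : ℕ) ∣ p := by
      refine (pr v).2.dvd_of_dvd_pow (n := f) ?_
      rw [← h1]
      exact dvd_pow_self _ (dg_pos v).ne'
    rwa [(Nat.prime_dvd_prime_iff_eq (pr v).2 hp).1 h2]
  · intro h
    exact ⟨pr v, dg v, (pr v).2, h, nm_eq v⟩

lemma bb_bey (i : ℕ) (S : Set (HeightOneSpectrum (𝓞 K)))
    (α : HeightOneSpectrum (𝓞 K) → Fin N → ℂ) (y : ℝ) :
    bb (nb i (S ∪ bey K y) α) = tr y (bb (nb i S α)) := by
  funext x
  unfold tr
  split_ifs with hx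
  · unfold bb
    refine sum_congr rfl fun v hv => ?_
    have hv' : pr v = x.1 := (mem_Sp _ _).1 hv
    have h1 : v ∉ bey K y := by
      rw [mem_bey, hv']
      exact not_lt.2 hx
    have h2 : ∀ j, nb i (S ∪ bey K y) α v j = nb i S α v j := by
      intro j
      unfold Pool.Agent.Y770.SC.nb
      by_cases h : v ∈ S
      · have h' : v ∈ S ∪ bey K y := Or.inl h
        rw [if_pos h', if_pos h]
      · have h' : v ∉ S ∪ bey K y := fun h' => h'.elim h h1
        rw [if_neg h', if_neg h]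
    simp_rw [h2]
  · unfold bb
    refine sum_eq_zero fun v hv => ?_
    have hv' : pr v = x.1 := (mem_Sp _ _).1 hv
    have h1 : v ∈ bey K y := by
      rw [mem_bey, hv']
      exact not_le.1 hx
    have h2 : ∀ j, nb i (S ∪ bey K y) α v j = 0 := by
      intro j
      unfold Pool.Agent.Y770.SC.nb
      have h' : v ∈ S ∪ bey K y := Or.inr h1
      rw [if_pos h']
    simp_rw [h2]
    split_ifs with h
    · have h3 : (x.2 + 1) / dg v ≠ 0 :=
        (Nat.div_pos (Nat.le_of_dvd (Nat.succ_pos _) h) (dg_pos v)).ne'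
      simp [zero_pow h3]
    · rfl

lemma bb_tw_eq {q : ℕ} (χ : DirichletCharacter ℂ q) (β : HeightOneSpectrum (𝓞 K) → Fin N → ℂ) :
    bb (tw (fun n : ℕ => χ (n : ZMod q)) β) = tc (bb β) χ := by
  funext x
  rw [bb_tw (chi_one χ) (chi_mul χ)]
  rfl

lemma edge_sub (i : ℕ) (t : ℝ) : edgePoint i t - (i : ℂ) / 2 = 1 + t * Complex.I := by
  unfold Pool.Agent.TH958.BV.edgePoint
  push_cast
  ring

lemma LT_exp {q : ℕ} (χ : DirichletCharacter ℂ q) {i : ℕ} {S : Set (HeightOneSpectrum (𝓞 K))}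
    {α : HeightOneSpectrum (𝓞 K) → Fin N → ℂ}
    (hα : ∀ v, v ∉ S → ∀ j, ‖α v j‖ = (nm v : ℝ) ^ ((i : ℝ) / 2)) {s : ℂ}
    (hs : (i : ℝ) / 2 + 1 < s.re) :
    LT χ S α s = Complex.exp (FF (tc (bb (nb i S α)) χ) (s - (i : ℂ) / 2)) := by
  have h1 : 1 < (s - (i : ℂ) / 2).re := by
    have e : (s - (i : ℂ) / 2).re = s.re - i / 2 := by simp
    rw [e]
    linarith
  have h2 := LT_eq χ hα h1
  rw [sub_add_cancel, bb_tw_eq] at h2
  exact h2

/-- The limit in the angles. -/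
lemma LT_tendsto {q : ℕ} (χ : DirichletCharacter ℂ q) {i : ℕ} {S : Set (HeightOneSpectrum (𝓞 K))}
    {α : HeightOneSpectrum (𝓞 K) → Fin N → ℂ}
    (hα : ∀ v, v ∉ S → ∀ j, ‖α v j‖ = (nm v : ℝ) ^ ((i : ℝ) / 2)) {t : ℝ}
    (ht : t ∉ divSet (ap (tc (bb (nb i S α)) χ))) (C : ℝ) :
    Tendsto (LT χ S α) (𝓝[angle i t C] (edgePoint i t))
      (𝓝 (Complex.exp (bl (tc (bb (nb i S α)) χ) t))) := by
  have hb := norm_tc (norm_bb (norm_nb hα)) χ
  have h5 := bl_angle hb ht C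
  have h6 : Tendsto (fun s : ℂ => s - edgePoint i t) (𝓝[angle i t C] (edgePoint i t))
      (𝓝[{z : ℂ | 0 < z.re ∧ ‖z‖ ≤ C * z.re}] 0) := by
    rw [tendsto_nhdsWithin_iff]
    constructor
    · have h7 : Tendsto (fun s : ℂ => s - edgePoint i t) (𝓝 (edgePoint i t))
          (𝓝 (edgePoint i t - edgePoint i t)) :=
        (continuous_id.sub continuous_const).tendsto _
      rw [sub_self] at h7
      exact h7.mono_left nhdsWithin_le_nhds
    · filter_upwards [self_mem_nhdsWithin] with s hs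
      have hre' : (s - edgePoint i t).re = s.re - ((i : ℝ) / 2 + 1) := by
        unfold Pool.Agent.TH958.BV.edgePoint
        simp
      refine ⟨?_, ?_⟩
      · rw [hre']
        linarith [hs.1]
      · rw [hre']
        exact hs.2
  have h7 := (Complex.continuous_exp.tendsto _).comp (h5.comp h6)
  refine h7.congr' ?_
  filter_upwards [self_mem_nhdsWithin] with s hs
  rw [LT_exp χ hα hs.1]
  simp only [Function.comp_apply]
  congr 2
  rw [← edge_sub i t]
  ring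

/-- The short Euler product is continuous on the edge. -/
lemma LT_cont {q : ℕ} (χ : DirichletCharacter ℂ q) {i : ℕ} {S : Set (HeightOneSpectrum (𝓞 K))}
    {α : HeightOneSpectrum (𝓞 K) → Fin N → ℂ}
    (hα : ∀ v, v ∉ S → ∀ j, ‖α v j‖ = (nm v : ℝ) ^ ((i : ℝ) / 2)) (y t : ℝ) :
    ContinuousAt (LT χ (S ∪ bey K y) α) (edgePoint i t) := by
  classical
  have hfin : {v : HeightOneSpectrum (𝓞 K) | v ∉ bey K y}.Finite := by
    have h1 : {p : Nat.Primes | (p : ℕ) ≤ ⌊y⌋₊}.Finite :=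
      (Set.finite_Iic ⌊y⌋₊).preimage (Nat.Primes.coe_nat_injective.injOn)
    refine (h1.biUnion fun p _ => finite_fiber (K := K) p).subset ?_
    intro v hv
    rw [Set.mem_iUnion₂]
    refine ⟨pr v, ?_, rfl⟩
    have h2 : ¬ y < (pr v : ℕ) := fun h => hv ((mem_bey y v).2 h)
    exact Nat.le_floor (not_lt.1 h2)
  have heq : LT χ (S ∪ bey K y) α = fun s => ∏ v ∈ hfin.toFinset,
      (if v ∈ S ∪ bey K y then 1 else ∏ j, (1 - χ ((Ideal.absNorm v.asIdeal : ℕ) : ZMod q) *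
        α v j * (Ideal.absNorm v.asIdeal : ℂ) ^ (-s))⁻¹) := by
    funext s
    unfold Pool.Agent.Y770.SC.LT
    rw [tprod_eq_prod (s := hfin.toFinset)]
    · refine prod_congr rfl fun v _ => ?_
      split_ifs <;> rfl
    intro v hv
    have h1 : v ∈ bey K y := by
      by_contra h
      exact hv (hfin.mem_toFinset.2 h)
    have h' : v ∈ S ∪ bey K y := Or.inr h1
    rw [if_pos h']
  rw [heq]
  refine tendsto_finsetProd _ fun v _ => ?_
  by_cases hv : v ∈ S ∪ bey K y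
  · simp only [hv, if_true]
    exact tendsto_const_nhds
  simp only [hv, if_false]
  have hvS : v ∉ S := fun h => hv (Or.inl h)
  refine tendsto_finsetProd _ fun j _ => ?_
  have hn0 : 0 < nm v := Pool.Agent.Y770.SC.nm_pos v
  have hn2 : 2 ≤ nm v := two_le_nm v
  have hn0' : (0 : ℝ) < nm v := by exact_mod_cast hn0
  have hn2' : (2 : ℝ) ≤ nm v := by exact_mod_cast hn2
  have hne : ((Ideal.absNorm v.asIdeal : ℕ) : ℂ) ≠ 0 := by
    have : ((nm v : ℕ) : ℂ) ≠ 0 := by exact_mod_cast hn0.ne'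
    exact this
  refine Tendsto.inv₀ ?_ ?_
  · refine tendsto_const_nhds.sub (tendsto_const_nhds.mul ?_)
    exact ((continuous_neg.const_cpow (Or.inl hne)).tendsto _)
  · intro h
    have h1 : χ ((Ideal.absNorm v.asIdeal : ℕ) : ZMod q) * α v j *
        (Ideal.absNorm v.asIdeal : ℂ) ^ (-(edgePoint i t)) = 1 := (sub_eq_zero.1 h).symm
    have h2 : ‖χ ((Ideal.absNorm v.asIdeal : ℕ) : ZMod q) * α v j *
        (Ideal.absNorm v.asIdeal : ℂ) ^ (-(edgePoint i t))‖ < 1 := by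
      rw [norm_mul, norm_mul, hα v hvS j]
      have h3 : ‖(Ideal.absNorm v.asIdeal : ℂ) ^ (-(edgePoint i t))‖ =
          (nm v : ℝ) ^ (-((i : ℝ) / 2 + 1)) := by
        have h4 : ((Ideal.absNorm v.asIdeal : ℕ) : ℂ) = (((nm v : ℕ) : ℝ) : ℂ) := by
          push_cast
          rfl
        rw [h4, Complex.norm_cpow_eq_rpow_re_of_pos hn0']
        congr 1
        unfold Pool.Agent.TH958.BV.edgePoint
        simp
      rw [h3]
      calc ‖χ ((Ideal.absNorm v.asIdeal : ℕ) : ZMod q)‖ * (nm v : ℝ) ^ ((i : ℝ) / 2) *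
            (nm v : ℝ) ^ (-((i : ℝ) / 2 + 1))
          ≤ 1 * (nm v : ℝ) ^ ((i : ℝ) / 2) * (nm v : ℝ) ^ (-((i : ℝ) / 2 + 1)) := by
            have := DirichletCharacter.norm_le_one χ ((Ideal.absNorm v.asIdeal : ℕ) : ZMod q)
            gcongr
        _ = (nm v : ℝ)⁻¹ := by
            rw [one_mul, ← Real.rpow_add hn0', ← Real.rpow_neg_one]
            congr 1
            ring
        _ < 1 := inv_lt_one_of_one_lt₀ (by linarith)
    rw [h1, norm_one] at h2
    exact lt_irrefl _ h2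

lemma angle_neBot (i : ℕ) (t : ℝ) : (𝓝[angle i t 1] (edgePoint i t)).NeBot := by
  have h1 : Tendsto (fun r : ℝ => edgePoint i t + (r : ℂ)) (𝓝[>] 0) (𝓝[angle i t 1] (edgePoint i t)) := by
    rw [tendsto_nhdsWithin_iff]
    constructor
    · have h2 : Tendsto (fun r : ℝ => edgePoint i t + (r : ℂ)) (𝓝 0) (𝓝 (edgePoint i t + ((0 : ℝ) : ℂ))) :=
        (continuous_const.add Complex.continuous_ofReal).tendsto 0
      rw [Complex.ofReal_zero, add_zero] at h2
      exact h2.mono_left nhdsWithin_le_nhds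
    · filter_upwards [self_mem_nhdsWithin] with r hr
      have hr0 : 0 < r := hr
      have hre : (edgePoint i t + (r : ℂ)).re = (i : ℝ) / 2 + 1 + r := by
        unfold Pool.Agent.TH958.BV.edgePoint
        simp
      refine ⟨?_, ?_⟩
      · rw [hre]
        linarith
      · rw [hre, add_sub_cancel_left, Complex.norm_real, Real.norm_of_nonneg hr0.le]
        linarith
  exact h1.neBot

lemma short {q : ℕ} (χ : DirichletCharacter ℂ q) {i : ℕ} {S : Set (HeightOneSpectrum (𝓞 K))}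
    {α : HeightOneSpectrum (𝓞 K) → Fin N → ℂ}
    (hα : ∀ v, v ∉ S → ∀ j, ‖α v j‖ = (nm v : ℝ) ^ ((i : ℝ) / 2)) (y t : ℝ) :
    Complex.exp (bl (tc (tr y (bb (nb i S α))) χ) t) = LT χ (S ∪ bey K y) α (edgePoint i t) := by
  have hα' : ∀ v, v ∉ S ∪ bey K y → ∀ j, ‖α v j‖ = (nm v : ℝ) ^ ((i : ℝ) / 2) :=
    fun v hv j => hα v (fun h => hv (Or.inl h)) j
  have h1 : t ∉ divSet (ap (tc (bb (nb i (S ∪ bey K y) α)) χ)) := by
    rw [bb_bey, tc_tr]
    exact tr_conv y _ t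
  have h2 := LT_tendsto χ hα' h1 1
  rw [bb_bey] at h2
  have h3 : Tendsto (LT χ (S ∪ bey K y) α) (𝓝[angle i t 1] (edgePoint i t))
      (𝓝 (LT χ (S ∪ bey K y) α (edgePoint i t))) :=
    (LT_cont χ hα y t).mono_left nhdsWithin_le_nhds
  have := angle_neBot i t
  exact tendsto_nhds_unique h2 h3

end

/-- **The main theorem.** -/
theorem main (M : ℕ) {κ δ : ℝ} (hκ : 0 < κ) (hδ : 0 < δ) : ∃ Z₀ : ℝ, 1 < Z₀ ∧
    ∀ (K : Type) [Field K] [NumberField K] (N i : ℕ) (_ : 0 < N)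
      (_ : N * Module.finrank ℚ K ≤ M) (S : Set (HeightOneSpectrum (𝓞 K)))
      (α : HeightOneSpectrum (𝓞 K) → Fin N → ℂ)
      (_ : ∀ v, v ∉ S → ∀ j, ‖α v j‖ = (nm v : ℝ) ^ ((i : ℝ) / 2))
      (q : ℕ) [NeZero q] (a H : ℝ), 1 ≤ H → Z₀ ≤ q * H →
      ∃ E : DirichletCharacter ℂ q → Set ℝ,
        ∑ χ, volume (E χ) ≤ ENNReal.ofReal ((q * H) ^ (1 / κ + δ)) ∧
        ∀ χ, ∀ t ∈ Set.Icc a (a + H), t ∉ E χ → ∃ ℓ : ℂ,
          (∀ C : ℝ, Tendsto (LT χ S α) (𝓝[angle i t C] (edgePoint i t)) (𝓝 ℓ)) ∧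
          ‖ℓ / LT χ (S ∪ bey K ((Real.log (q * H)) ^ κ)) α (edgePoint i t) - 1‖ ≤ δ ∧
          (((1 + δ) * (Real.exp Real.eulerMascheroniConstant *
            (κ * Real.log (Real.log (q * H))))) ^ (N * Module.finrank ℚ K))⁻¹ ≤ ‖ℓ‖ ∧
          ‖ℓ‖ ≤ ((1 + δ) * (Real.exp Real.eulerMascheroniConstant *
            (κ * Real.log (Real.log (q * H))))) ^ (N * Module.finrank ℚ K) := by
  have hM1 : (1 : ℝ) ≤ max (M : ℝ) 1 := le_max_right _ _
  obtain ⟨Z₁, hZ₁, H1⟩ := thin2 hM1 hκ hδ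
  refine ⟨max Z₁ (Real.exp (Real.exp 1)), lt_of_lt_of_le hZ₁ (le_max_left _ _), ?_⟩
  intro K _ _ N i hN hNM S α hα q _ a H hH hZ
  have hfr : 0 < Module.finrank ℚ K := Module.finrank_pos
  have hm1 : (1 : ℝ) ≤ (Module.finrank ℚ K : ℝ) * N := by
    have : 1 ≤ Module.finrank ℚ K * N := Nat.mul_pos hfr hN
    exact_mod_cast this
  have hmM : (Module.finrank ℚ K : ℝ) * N ≤ max (M : ℝ) 1 := by
    refine le_trans ?_ (le_max_left _ _)
    rw [mul_comm]
    exact_mod_cast hNM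
  obtain ⟨E, hE, H2⟩ := H1 q H hH ((le_max_left _ _).trans hZ) _ hm1 hmM (bb (nb i S α))
    (norm_bb (norm_nb hα)) a
  refine ⟨E, hE, ?_⟩
  intro χ t ht htE
  obtain ⟨h1, h2, h3⟩ := H2 χ t ht htE
  have hZ2 : Real.exp (Real.exp 1) ≤ q * H := (le_max_right _ _).trans hZ
  have hZpos : 0 < (q : ℝ) * H := lt_of_lt_of_le (Real.exp_pos _) hZ2
  have hlog : Real.exp 1 ≤ Real.log (q * H) := by
    rw [Real.le_log_iff_exp_le hZpos]
    exact hZ2
  have hloglog : 1 ≤ Real.log (Real.log (q * H)) := by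
    rw [Real.le_log_iff_exp_le (lt_of_lt_of_le (Real.exp_pos _) hlog)]
    exact hlog
  set X : ℝ := (1 + δ) * (Real.exp Real.eulerMascheroniConstant *
            (κ * Real.log (Real.log (q * H)))) with hX
  have hX0 : 0 < X := by positivity
  have hpow : X ^ (N * Module.finrank ℚ K) =
      Real.exp ((Module.finrank ℚ K : ℝ) * N * Real.log X) := by
    have h4 : (Module.finrank ℚ K : ℝ) * N * Real.log X =
        ((N * Module.finrank ℚ K : ℕ) : ℝ) * Real.log X := by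
      push_cast
      ring
    rw [h4, Real.exp_nat_mul, Real.exp_log hX0]
  refine ⟨Complex.exp (bl (tc (bb (nb i S α)) χ) t), fun C => LT_tendsto χ hα h1 C, ?_, ?_, ?_⟩
  · rw [← short χ hα]
    exact h2
  · rw [Complex.norm_exp, hpow, ← Real.exp_neg, Real.exp_le_exp]
    linarith [(abs_le.1 h3).1]
  · rw [Complex.norm_exp, hpow, Real.exp_le_exp]
    exact (abs_le.1 h3).2

end Pool.Agent.U309.LV
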