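import Pool.Agent.U309.LV.A8

/-!
# Few exceptional characters: the logarithm without small primes, uniformly right of the edge
-/

set_option autoImplicit false

namespace Pool.Agent.U309.LV

open MeasureTheory Finset Filter Topology
open scoped ComplexConjugate ENNReal
open Pool.Agent.W350.Edge (lg lg_le lt_lg cheb divSet)
open Pool.Agent.TH339.MP

/-- the shifted coefficients -/
noncomputable def cs (c : ℕ → ℂ) (σ : ℝ) (p : ℕ) : ℂ := c p * (((p : ℝ) ^ (-(σ - 1)) : ℝ) : ℂ)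

lemma norm_cs {c : ℕ → ℂ} {M σ : ℝ} {p : ℕ} (hc : ‖c p‖ ≤ M) (hσ : 1 ≤ σ) (hp : 1 ≤ p) :
    ‖cs c σ p‖ ≤ M := by
  unfold cs
  have hp1 : (1 : ℝ) ≤ p := by exact_mod_cast hp
  have h1 : (p : ℝ) ^ (-(σ - 1)) ≤ 1 := Real.rpow_le_one_of_one_le_of_nonpos hp1 (by linarith)
  have h0 : 0 ≤ (p : ℝ) ^ (-(σ - 1)) := by positivity
  rw [norm_mul, Complex.norm_real, Real.norm_of_nonneg h0]
  exact (mul_le_of_le_one_right (norm_nonneg _) h1).trans hc

lemma exp_lip (x y : ℝ) : ‖Complex.exp (-(x : ℂ) * Complex.I) - Complex.exp (-(y : ℂ) * Complex.I)‖ ≤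
    |x - y| := by
  have h1 : Complex.exp (-(x : ℂ) * Complex.I) - Complex.exp (-(y : ℂ) * Complex.I) =
      Complex.exp (-(y : ℂ) * Complex.I) * (Complex.exp (Complex.I * ((y - x : ℝ) : ℂ)) - 1) := by
    rw [mul_sub, mul_one, ← Complex.exp_add]
    congr 2
    push_cast
    ring
  rw [h1, norm_mul]
  have h2 : ‖Complex.exp (-(y : ℂ) * Complex.I)‖ = 1 := by
    rw [Complex.norm_exp]
    simp
  rw [h2, one_mul, abs_sub_comm]
  exact Real.norm_exp_I_mul_ofReal_sub_one_le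

lemma norm_e (t l : ℝ) : ‖Complex.exp (-(t * l) * Complex.I)‖ = 1 := by
  rw [Complex.norm_exp]
  simp

lemma exp_neg_lip {u v : ℝ} (hu : 0 ≤ u) (hv : 0 ≤ v) : |Real.exp (-u) - Real.exp (-v)| ≤ |u - v| := by
  have key : ∀ u v : ℝ, 0 ≤ u → u ≤ v → Real.exp (-u) - Real.exp (-v) ≤ v - u := by
    intro u v hu huv
    have h1 : Real.exp (-v) = Real.exp (-u) * Real.exp (u - v) := by
      rw [← Real.exp_add]
      congr 1
      ring
    have h2 := Real.add_one_le_exp (u - v)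
    have h3 : Real.exp (-u) ≤ 1 := Real.exp_le_one_iff.2 (by linarith)
    have h4 := Real.exp_pos (-u)
    rw [h1]
    nlinarith
  rcases le_total u v with h | h
  · have h1 := key u v hu h
    have h2 : Real.exp (-v) ≤ Real.exp (-u) := Real.exp_le_exp.2 (by linarith)
    rw [abs_of_nonneg (by linarith), abs_sub_comm, abs_of_nonneg (by linarith)]
    exact h1
  · have h1 := key v u hv h
    have h2 : Real.exp (-u) ≤ Real.exp (-v) := Real.exp_le_exp.2 (by linarith)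
    rw [abs_sub_comm, abs_of_nonneg (by linarith), abs_of_nonneg (by linarith)]
    exact h1

lemma blk_log {k : ℕ} (hk : 1 ≤ k) (T : Finset ℕ) (hT : ∀ p ∈ T, p.Prime ∧ lg p = k) :
    ∑ p ∈ T, 1 / (p : ℝ) * Real.log p ≤ 8 := by
  have hk0 : (0 : ℝ) < k := by exact_mod_cast hk
  have hk1 : (1 : ℝ) ≤ k := by exact_mod_cast hk
  have h1 : ∑ p ∈ T, 1 / (p : ℝ) ≤ 4 / k :=
    (cheb T k hk hT).trans (div_le_div_of_nonneg_right e4 hk0.le)
  calc ∑ p ∈ T, 1 / (p : ℝ) * Real.log p ≤ ∑ p ∈ T, 1 / (p : ℝ) * (k + 1) := by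
        refine sum_le_sum fun p hp => mul_le_mul_of_nonneg_left ?_ (by positivity)
        have := lt_lg p
        rw [(hT p hp).2] at this
        exact this.le
    _ = (∑ p ∈ T, 1 / (p : ℝ)) * (k + 1) := by rw [sum_mul]
    _ ≤ 4 / k * (k + 1) := mul_le_mul_of_nonneg_right h1 (by positivity)
    _ ≤ 8 := by
        rw [div_mul_eq_mul_div, div_le_iff₀ hk0]
        linarith

/-- Lipschitz in `t`. -/
lemma SS_lip {q : ℕ} {k : ℕ} (hk : 1 ≤ k) (T : Finset ℕ) (hT : ∀ p ∈ T, p.Prime ∧ lg p = k)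
    {c : ℕ → ℂ} {M : ℝ} (hc : ∀ p ∈ T, ‖c p‖ ≤ M) (hM : 0 ≤ M) (χ : DirichletCharacter ℂ q)
    (t t' : ℝ) : ‖SS q T c χ t - SS q T c χ t'‖ ≤ 8 * M * |t - t'| := by
  unfold SS
  rw [← sum_sub_distrib]
  refine (norm_sum_le _ _).trans ?_
  have h1 : ∀ p ∈ T, ‖χ (p : ZMod q) * c p / p * Complex.exp (-(t * Real.log p) * Complex.I) -
      χ (p : ZMod q) * c p / p * Complex.exp (-(t' * Real.log p) * Complex.I)‖ ≤
      M * |t - t'| * (1 / (p : ℝ) * Real.log p) := by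
    intro p hp
    have hp0 : (0 : ℝ) < p := by exact_mod_cast (hT p hp).1.pos
    have hl : 0 ≤ Real.log p := Real.log_nonneg (by exact_mod_cast (hT p hp).1.one_le)
    rw [← mul_sub, norm_mul, norm_div, norm_mul, Complex.norm_natCast]
    have h2 : ‖Complex.exp (-(t * Real.log p) * Complex.I) -
        Complex.exp (-(t' * Real.log p) * Complex.I)‖ ≤ |t - t'| * Real.log p := by
      have h3 := exp_lip (t * Real.log p) (t' * Real.log p)
      rw [← sub_mul, abs_mul, abs_of_nonneg hl] at h3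
      rw [Complex.ofReal_mul, Complex.ofReal_mul] at h3
      exact h3
    have h3 : ‖χ (p : ZMod q)‖ * ‖c p‖ ≤ 1 * M :=
      mul_le_mul (DirichletCharacter.norm_le_one χ _) (hc p hp) (norm_nonneg _) zero_le_one
    rw [one_mul] at h3
    calc ‖χ (p : ZMod q)‖ * ‖c p‖ / p * ‖Complex.exp (-(t * Real.log p) * Complex.I) -
          Complex.exp (-(t' * Real.log p) * Complex.I)‖
        ≤ M / p * (|t - t'| * Real.log p) := by
          refine mul_le_mul (div_le_div_of_nonneg_right h3 hp0.le) h2 (norm_nonneg _) (by positivity)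
      _ = _ := by ring
  refine (sum_le_sum h1).trans ?_
  rw [← mul_sum]
  have h2 := blk_log hk T hT
  have h3 : 0 ≤ M * |t - t'| := by positivity
  nlinarith

/-- Lipschitz in `σ`. -/
lemma SS_lip2 {q : ℕ} {k : ℕ} (hk : 1 ≤ k) (T : Finset ℕ) (hT : ∀ p ∈ T, p.Prime ∧ lg p = k)
    {c : ℕ → ℂ} {M : ℝ} (hc : ∀ p ∈ T, ‖c p‖ ≤ M) (hM : 0 ≤ M) (χ : DirichletCharacter ℂ q)
    {σ σ' : ℝ} (hσ : 1 ≤ σ) (hσ' : 1 ≤ σ') (t : ℝ) :
    ‖SS q T (cs c σ) χ t - SS q T (cs c σ') χ t‖ ≤ 8 * M * |σ - σ'| := by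
  unfold SS
  rw [← sum_sub_distrib]
  refine (norm_sum_le _ _).trans ?_
  have h1 : ∀ p ∈ T, ‖χ (p : ZMod q) * cs c σ p / p * Complex.exp (-(t * Real.log p) * Complex.I) -
      χ (p : ZMod q) * cs c σ' p / p * Complex.exp (-(t * Real.log p) * Complex.I)‖ ≤
      M * |σ - σ'| * (1 / (p : ℝ) * Real.log p) := by
    intro p hp
    have hp0 : (0 : ℝ) < p := by exact_mod_cast (hT p hp).1.pos
    have hl : 0 ≤ Real.log p := Real.log_nonneg (by exact_mod_cast (hT p hp).1.one_le)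
    have e1 : χ (p : ZMod q) * cs c σ p / p * Complex.exp (-(t * Real.log p) * Complex.I) -
        χ (p : ZMod q) * cs c σ' p / p * Complex.exp (-(t * Real.log p) * Complex.I) =
        χ (p : ZMod q) * c p / p * Complex.exp (-(t * Real.log p) * Complex.I) *
          (((p : ℝ) ^ (-(σ - 1)) - (p : ℝ) ^ (-(σ' - 1)) : ℝ) : ℂ) := by
      unfold cs
      push_cast
      ring
    rw [e1, norm_mul, norm_mul, norm_div, norm_mul, Complex.norm_natCast, Complex.norm_real]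
    rw [norm_e, mul_one]
    have h3 : ‖χ (p : ZMod q)‖ * ‖c p‖ ≤ 1 * M :=
      mul_le_mul (DirichletCharacter.norm_le_one χ _) (hc p hp) (norm_nonneg _) zero_le_one
    rw [one_mul] at h3
    have h4 : ‖(p : ℝ) ^ (-(σ - 1)) - (p : ℝ) ^ (-(σ' - 1))‖ ≤ |σ - σ'| * Real.log p := by
      have h5 := exp_neg_lip (u := (σ - 1) * Real.log p) (v := (σ' - 1) * Real.log p)
        (mul_nonneg (by linarith) hl) (mul_nonneg (by linarith) hl)
      have e2 : ∀ x : ℝ, (p : ℝ) ^ (-(x - 1)) = Real.exp (-((x - 1) * Real.log p)) := by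
        intro x
        rw [Real.rpow_def_of_pos hp0]
        congr 1
        ring
      rw [e2, e2, Real.norm_eq_abs]
      refine h5.trans (le_of_eq ?_)
      rw [← sub_mul, abs_mul, abs_of_nonneg hl]
      congr 2
      ring
    calc ‖χ (p : ZMod q)‖ * ‖c p‖ / p * ‖(p : ℝ) ^ (-(σ - 1)) - (p : ℝ) ^ (-(σ' - 1))‖
        ≤ M / p * (|σ - σ'| * Real.log p) := by
          refine mul_le_mul (div_le_div_of_nonneg_right h3 hp0.le) h4 (norm_nonneg _) (by positivity)
      _ = _ := by ring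
  refine (sum_le_sum h1).trans ?_
  rw [← mul_sum]
  have h2 := blk_log hk T hT
  have h3 : 0 ≤ M * |σ - σ'| := by positivity
  nlinarith

open Classical in
/-- The number of the characters with a large value in the window. -/
lemma count (q : ℕ) [NeZero q] {k : ℕ} (hk : 1 ≤ k) (T : Finset ℕ)
    (hT : ∀ p ∈ T, p.Prime ∧ lg p = k) (c : ℕ → ℂ) {M : ℝ}
    (hM : 1 ≤ M) (hc : ∀ p ∈ T, ‖c p‖ ≤ M) (j : ℕ) (a : ℝ) {h : ℝ} (hh : 1 ≤ h)
    (hj : Real.log (q * h) ≤ k * j) :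
    (((Finset.univ : Finset (DirichletCharacter ℂ q)).filter fun χ =>
        ∃ t ∈ Set.Icc a (a + h), 2 / (k : ℝ) ^ 2 < ‖SS q T c χ t‖).card : ℝ) ≤
      8 * M * k ^ 2 * (104 * (j * (4 * M ^ 2 * k ^ 3)) ^ j) := by
  have hk0 : (0 : ℝ) < k := by exact_mod_cast hk
  have hk1 : (1 : ℝ) ≤ k := by exact_mod_cast hk
  have hM0 : 0 < M := by linarith
  set ρ : ℝ := 1 / (8 * M * k ^ 2) with hρ
  have hρ0 : 0 < ρ := by positivity
  have hk2 : (1 : ℝ) ≤ (k : ℝ) ^ 2 := one_le_pow₀ hk1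
  have hρ8 : ρ ≤ 1 / 8 := by
    rw [hρ, div_le_div_iff₀ (by positivity) (by norm_num)]
    nlinarith
  set F := (Finset.univ : Finset (DirichletCharacter ℂ q)).filter fun χ =>
        ∃ t ∈ Set.Icc a (a + h), 2 / (k : ℝ) ^ 2 < ‖SS q T c χ t‖ with hF
  have h1 : ∀ χ ∈ F, ENNReal.ofReal ρ ≤ volume {t | t ∈ Set.Icc a (a + h) ∧
        1 / (k : ℝ) ^ 2 < ‖SS q T c χ t‖} := by
    intro χ hχ
    rw [hF, mem_filter] at hχ
    obtain ⟨-, t₀, ht₀, hbig⟩ := hχ
    have hnear : ∀ t, |t - t₀| ≤ ρ → 1 / (k : ℝ) ^ 2 < ‖SS q T c χ t‖ := by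
      intro t ht
      have h2 := SS_lip hk T hT hc hM0.le χ t₀ t
      have h3 : 8 * M * |t₀ - t| ≤ 1 / (k : ℝ) ^ 2 := by
        rw [abs_sub_comm]
        calc 8 * M * |t - t₀| ≤ 8 * M * ρ := mul_le_mul_of_nonneg_left ht (by positivity)
          _ = 1 / (k : ℝ) ^ 2 := by
              rw [hρ]
              field_simp
      have h4 : ‖SS q T c χ t₀‖ - ‖SS q T c χ t‖ ≤ ‖SS q T c χ t₀ - SS q T c χ t‖ :=
        norm_sub_norm_le _ _
      have h5 : 2 / (k : ℝ) ^ 2 = 1 / (k : ℝ) ^ 2 + 1 / (k : ℝ) ^ 2 := by ring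
      linarith
    rcases le_total (t₀ + ρ) (a + h) with hle | hle
    · have h2 : Set.Icc t₀ (t₀ + ρ) ⊆ {t | t ∈ Set.Icc a (a + h) ∧
          1 / (k : ℝ) ^ 2 < ‖SS q T c χ t‖} := by
        intro t ht
        refine ⟨⟨ht₀.1.trans ht.1, ht.2.trans hle⟩, hnear t ?_⟩
        rw [abs_of_nonneg (by linarith [ht.1])]
        linarith [ht.2]
      refine le_trans ?_ (measure_mono h2)
      rw [Real.volume_Icc]
      simp
    · have h2 : Set.Icc (t₀ - ρ) t₀ ⊆ {t | t ∈ Set.Icc a (a + h) ∧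
          1 / (k : ℝ) ^ 2 < ‖SS q T c χ t‖} := by
        intro t ht
        refine ⟨⟨?_, ht.2.trans ht₀.2⟩, hnear t ?_⟩
        · have := ht.1
          linarith
        · rw [abs_of_nonpos (by linarith [ht.2])]
          linarith [ht.1]
      refine le_trans ?_ (measure_mono h2)
      rw [Real.volume_Icc]
      simp
  have h2 := block q hk T hT c hM0.le hc j a hh hj
  have h3 : ENNReal.ofReal (F.card * ρ) ≤ ENNReal.ofReal (104 * (j * (4 * M ^ 2 * k ^ 3)) ^ j) := by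
    refine le_trans ?_ h2
    rw [ENNReal.ofReal_mul (Nat.cast_nonneg _), ENNReal.ofReal_natCast, ← nsmul_eq_mul, ← sum_const]
    exact (sum_le_sum h1).trans (sum_le_sum_of_subset (filter_subset _ _))
  have h4 := (ENNReal.ofReal_le_ofReal_iff (by positivity)).1 h3
  have h5 : (F.card : ℝ) = 8 * M * k ^ 2 * (F.card * ρ) := by
    rw [hρ]
    field_simp
  rw [h5]
  exact mul_le_mul_of_nonneg_left h4 (by positivity)

/-- The large primes to the right of the edge. -/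
lemma large_right {L A σ : ℝ} (hL : 1 ≤ L) (hA : 0 < A) (hσ : 1 + A / L ≤ σ) (T : Finset ℕ)
    (hT : ∀ p ∈ T, p.Prime ∧ ⌊L⌋₊ < lg p) :
    ∑ p ∈ T, 1 / (p : ℝ) * (p : ℝ) ^ (-(σ - 1)) ≤ 4 / L + 4 / A := by
  classical
  have hL0 : 0 < L := by linarith
  have hu : 0 < A / L := by positivity
  have hσ1 : 0 < σ - 1 := by linarith
  set r : ℝ := Real.exp (-(σ - 1)) with hr
  have hr0 : 0 < r := Real.exp_pos _
  have hr1 : r < 1 := by
    rw [hr, Real.exp_lt_one_iff]
    linarith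
  have h1 : ∑ p ∈ T, 1 / (p : ℝ) * (p : ℝ) ^ (-(σ - 1)) ≤
      ∑ k ∈ T.image lg, 4 / L * r ^ k := by
    rw [← sum_fiberwise_of_maps_to (t := T.image lg) (g := lg) (fun p hp => mem_image_of_mem _ hp)]
    refine sum_le_sum fun k hk => ?_
    rw [mem_image] at hk
    obtain ⟨p₀, hp₀, hk₀⟩ := hk
    have hkL : ⌊L⌋₊ < k := by
      rw [← hk₀]
      exact (hT p₀ hp₀).2
    have hkL' : L < k := (Nat.floor_lt hL0.le).1 hkL
    have hk0 : (0 : ℝ) < k := by linarith
    have hk1 : 1 ≤ k := by omega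
    calc ∑ p ∈ T with lg p = k, 1 / (p : ℝ) * (p : ℝ) ^ (-(σ - 1))
        ≤ ∑ p ∈ T with lg p = k, 1 / (p : ℝ) * r ^ k := by
          refine sum_le_sum fun p hp => mul_le_mul_of_nonneg_left ?_ (by positivity)
          rw [mem_filter] at hp
          have hp0 : (0 : ℝ) < p := by exact_mod_cast (hT p hp.1).1.pos
          rw [Real.rpow_def_of_pos hp0, hr, ← Real.exp_nat_mul, Real.exp_le_exp]
          have h2 := lg_le (hT p hp.1).1.one_le
          rw [hp.2] at h2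
          nlinarith
      _ = (∑ p ∈ T with lg p = k, 1 / (p : ℝ)) * r ^ k := by rw [sum_mul]
      _ ≤ 4 / k * r ^ k := by
          refine mul_le_mul_of_nonneg_right ?_ (by positivity)
          refine (cheb _ k hk1 fun p hp => ?_).trans (div_le_div_of_nonneg_right e4 hk0.le)
          rw [mem_filter] at hp
          exact ⟨(hT p hp.1).1, hp.2⟩
      _ ≤ 4 / L * r ^ k := by
          refine mul_le_mul_of_nonneg_right ?_ (by positivity)
          exact div_le_div_of_nonneg_left (by norm_num) hL0 hkL'.le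
  refine h1.trans ?_
  rw [← mul_sum]
  have h2 : ∑ k ∈ T.image lg, r ^ k ≤ (1 - r)⁻¹ :=
    sum_le_hasSum _ (fun k _ => by positivity) (hasSum_geometric_of_lt_one hr0.le hr1)
  have h3 : (1 - r)⁻¹ ≤ 1 + L / A := by
    have h4 : A / L / (1 + A / L) ≤ 1 - r := by
      have h5 : r ≤ (1 + A / L)⁻¹ := by
        rw [hr, Real.exp_neg]
        refine inv_anti₀ (by positivity) ?_
        have := Real.add_one_le_exp (σ - 1)
        linarith
      have h6 : A / L / (1 + A / L) = 1 - (1 + A / L)⁻¹ := by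
        field_simp
        ring
      rw [h6]
      linarith
    calc (1 - r)⁻¹ ≤ (A / L / (1 + A / L))⁻¹ := inv_anti₀ (by positivity) h4
      _ = 1 + L / A := by
          field_simp
          ring
  calc 4 / L * ∑ k ∈ T.image lg, r ^ k ≤ 4 / L * (1 + L / A) :=
        mul_le_mul_of_nonneg_left (h2.trans h3) (by positivity)
    _ = _ := by
        field_simp

end Pool.Agent.U309.LV
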