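import Pool.Agent.U309.LV.R1

/-!
# Few exceptional characters: the main theorem
-/

set_option autoImplicit false

namespace Pool.Agent.U309.LV

open MeasureTheory Finset Filter Topology
open scoped ComplexConjugate ENNReal
open Pool.Agent.W350.Edge (lg lg_le lt_lg cheb divSet)
open Pool.Agent.TH339.MP

/-- partial sums over the prime powers to the right of the edge -/
noncomputable def TS (b : PP → ℂ) (X : ℕ) (s : ℂ) : ℂ := ∑ x ∈ TX X, tm b s x

lemma TS_tendsto {b : PP → ℂ} {M : ℝ} (hb : ∀ x, ‖b x‖ ≤ M / (x.2 + 1 : ℕ)) {s : ℂ}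
    (hs : 1 < s.re) : Tendsto (fun X => TS b X s) atTop (𝓝 (FF b s)) := by
  have h1 : Tendsto TX atTop atTop := by
    refine tendsto_atTop_finset_of_monotone ?_ ?_
    · intro X Y hXY x hx
      rw [mem_TX] at hx ⊢
      exact hx.trans hXY
    · intro x
      exact ⟨qq x, (mem_TX _ _).2 le_rfl⟩
  exact (summable_tm hb hs).hasSum.comp h1

/-- The partial sum over the prime powers against the sum over the primes. -/
lemma TS_sub {q : ℕ} {b : PP → ℂ} {M : ℝ} (hb : ∀ x, ‖b x‖ ≤ M / (x.2 + 1 : ℕ))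
    (χ : DirichletCharacter ℂ q) {y : ℝ} (hby : ∀ x : PP, ((x.1 : ℕ) : ℝ) ≤ y → b x = 0) (X : ℕ)
    {η : ℝ} (hη : ∀ U : Finset PP, (∀ x ∈ U, x.2 ≠ 0 ∧ y < (x.1 : ℕ)) → ∑ x ∈ U, wt 1 x ≤ η)
    {s : ℂ} (hs : 1 ≤ s.re) :
    ‖TS (tc b χ) X s - SS q (PR y X) (cs (ap b) s.re) χ s.im‖ ≤ M * η := by
  classical
  have hM := M_nonneg hb
  have hse : ((s.re : ℂ) + s.im * Complex.I) = s := Complex.re_add_im s
  have htm : ∀ x, tm (tc b χ) s x = (tc b χ x * (wt s.re x : ℂ)) * ee (fr x) s.im := by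
    intro x
    conv_lhs => rw [← hse]
    exact tm_eq _ _ _ _
  have h1 : TS (tc b χ) X s = ∑ x ∈ (TX X).filter (fun x => x.2 = 0 ∧ y < (x.1 : ℕ)),
      tm (tc b χ) s x + ∑ x ∈ (TX X).filter (fun x => x.2 ≠ 0 ∧ y < (x.1 : ℕ)),
      tm (tc b χ) s x := by
    unfold TS
    have h2 : ∑ x ∈ TX X, tm (tc b χ) s x =
        ∑ x ∈ (TX X).filter (fun x => y < ((x.1 : ℕ) : ℝ)), tm (tc b χ) s x := by
      rw [sum_filter]
      refine sum_congr rfl fun x _ => ?_
      split_ifs with h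
      · rfl
      · rw [htm]
        unfold tc
        rw [hby x (not_lt.1 h)]
        ring
    rw [h2, ← sum_filter_add_sum_filter_not _ (fun x : PP => x.2 = 0), filter_filter, filter_filter]
    congr 1
    · refine sum_congr (filter_congr fun x _ => ?_) fun _ _ => rfl
      tauto
    · refine sum_congr (filter_congr fun x _ => ?_) fun _ _ => rfl
      tauto
  have h2 : ∑ x ∈ (TX X).filter (fun x => x.2 = 0 ∧ y < (x.1 : ℕ)),
      tm (tc b χ) s x = SS q (PR y X) (cs (ap b) s.re) χ s.im := by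
    unfold SS PR
    refine Finset.sum_bij (fun x _ => (x.1 : ℕ)) ?_ ?_ ?_ ?_
    · intro x hx
      rw [mem_filter, mem_TX] at hx
      rw [mem_filter, mem_Icc]
      have h6 : qq x = x.1 := by
        unfold qq
        rw [hx.2.1, zero_add, pow_one]
      rw [h6] at hx
      exact ⟨⟨x.1.2.one_le, hx.1⟩, x.1.2, hx.2.2⟩
    · intro x hx y hy hxy
      rw [mem_filter] at hx hy
      exact Prod.ext (Subtype.ext hxy) (by rw [hx.2.1, hy.2.1])
    · intro n hn
      rw [mem_filter, mem_Icc] at hn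
      refine ⟨(⟨n, hn.2.1⟩, 0), ?_, rfl⟩
      rw [mem_filter, mem_TX]
      refine ⟨?_, rfl, hn.2.2⟩
      unfold qq
      simp only [zero_add, pow_one]
      exact hn.1.2
    · intro x hx
      rw [mem_filter] at hx
      have h6 : qq x = x.1 := by
        unfold qq
        rw [hx.2.1, zero_add, pow_one]
      have h7 : ap b (x.1 : ℕ) = b x := by
        unfold ap
        rw [dif_pos x.1.2]
        congr 1
        exact Prod.ext rfl hx.2.1.symm
      have hp0 : (0 : ℝ) < ((x.1 : ℕ) : ℝ) := prime_pos x.1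
      have h8 : wt s.re x = ((x.1 : ℕ) : ℝ) ^ (-(s.re - 1)) / ((x.1 : ℕ) : ℝ) := by
        unfold wt
        rw [hx.2.1, zero_add, pow_one, eq_div_iff hp0.ne']
        have h9 : ((x.1 : ℕ) : ℝ) ^ (-s.re) * ((x.1 : ℕ) : ℝ) =
            ((x.1 : ℕ) : ℝ) ^ (-s.re) * ((x.1 : ℕ) : ℝ) ^ (1 : ℝ) := by rw [Real.rpow_one]
        rw [h9, ← Real.rpow_add hp0]
        congr 1
        ring
      rw [htm]
      unfold tc ee cs
      rw [h7, h8, fr_eq, h6]
      push_cast
      have e1 : -Complex.log ((x.1 : ℕ) : ℂ) * (s.im : ℂ) * Complex.I =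
          -((s.im : ℂ) * Complex.log ((x.1 : ℕ) : ℂ)) * Complex.I := by ring
      rw [e1]
      ring
  rw [h1, h2, add_sub_cancel_left]
  refine (norm_sum_le _ _).trans ?_
  calc ∑ x ∈ (TX X).filter (fun x => x.2 ≠ 0 ∧ y < (x.1 : ℕ)), ‖tm (tc b χ) s x‖
      ≤ ∑ x ∈ (TX X).filter (fun x => x.2 ≠ 0 ∧ y < (x.1 : ℕ)), M * wt 1 x := by
        refine sum_le_sum fun x _ => ?_
        rw [norm_tm]
        exact mul_le_mul (norm_b_le (norm_tc hb χ) x) (wt_anti hs x) (wt_nonneg _ x) hM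
    _ = M * ∑ x ∈ (TX X).filter (fun x => x.2 ≠ 0 ∧ y < (x.1 : ℕ)), wt 1 x := by rw [mul_sum]
    _ ≤ M * η := mul_le_mul_of_nonneg_left (hη _ fun x hx => (mem_filter.1 hx).2) hM

/-- Far to the right. -/
lemma TS_far {q : ℕ} {b : PP → ℂ} {M : ℝ} (hb : ∀ x, ‖b x‖ ≤ M / (x.2 + 1 : ℕ))
    (χ : DirichletCharacter ℂ q) {y : ℝ} (hby : ∀ x : PP, ((x.1 : ℕ) : ℝ) ≤ y → b x = 0) (X : ℕ)
    {η : ℝ} (hη : ∀ U : Finset PP, (∀ x ∈ U, x.2 ≠ 0 ∧ y < (x.1 : ℕ)) → ∑ x ∈ U, wt 1 x ≤ η)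
    {s : ℂ} (hs : 2 ≤ s.re) : ‖TS (tc b χ) X s‖ ≤ M * η := by
  classical
  have hM := M_nonneg hb
  unfold TS
  have h2 : ∑ x ∈ TX X, tm (tc b χ) s x =
      ∑ x ∈ (TX X).filter (fun x => y < ((x.1 : ℕ) : ℝ)), tm (tc b χ) s x := by
    rw [sum_filter]
    refine sum_congr rfl fun x _ => ?_
    split_ifs with h
    · rfl
    · unfold tm tc
      rw [hby x (not_lt.1 h)]
      ring
  rw [h2]
  refine (norm_sum_le _ _).trans ?_
  have h3 : ∀ x : PP, wt s.re x ≤ wt 1 (sh x) := by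
    intro x
    unfold wt sh
    simp only
    have hp0 := prime_pos x.1
    have hp1 : (1 : ℝ) ≤ ((x.1 : ℕ) : ℝ) := by
      have := two_le_prime x.1
      linarith
    rw [← Real.rpow_natCast, ← Real.rpow_natCast, ← Real.rpow_mul hp0.le, ← Real.rpow_mul hp0.le]
    refine Real.rpow_le_rpow_of_exponent_le hp1 ?_
    push_cast
    have : (0 : ℝ) ≤ (x.2 : ℝ) := Nat.cast_nonneg _
    nlinarith
  calc ∑ x ∈ (TX X).filter (fun x => y < ((x.1 : ℕ) : ℝ)), ‖tm (tc b χ) s x‖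
      ≤ ∑ x ∈ (TX X).filter (fun x => y < ((x.1 : ℕ) : ℝ)), M * wt 1 (sh x) := by
        refine sum_le_sum fun x _ => ?_
        rw [norm_tm]
        exact mul_le_mul (norm_b_le (norm_tc hb χ) x) (h3 x) (wt_nonneg _ x) hM
    _ = M * ∑ x ∈ ((TX X).filter (fun x => y < ((x.1 : ℕ) : ℝ))).image sh, wt 1 x := by
        rw [sum_image (fun x _ x' _ h => sh_injective h), mul_sum]
    _ ≤ M * η := by
        refine mul_le_mul_of_nonneg_left (hη _ fun x hx => ?_) hM
        rw [mem_image] at hx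
        obtain ⟨x', hx', rfl⟩ := hx
        exact ⟨Nat.succ_ne_zero _, (mem_filter.1 hx').2⟩

lemma numer3 {ε η D : ℝ} (hη : 0 < η) :
    ∃ L₀ : ℝ, ∀ L : ℝ, L₀ ≤ L → D * L ^ 5 * Real.exp (L * (ε - η)) ≤ Real.exp (L * ε) := by
  have t1 : Tendsto (fun x : ℝ => D * (x ^ 5 * Real.exp (-η * x))) atTop (𝓝 0) := by
    have h1 := (Real.tendsto_pow_mul_exp_neg_atTop_nhds_zero 5).comp
      (tendsto_id.const_mul_atTop hη)
    have h4 := h1.const_mul (D / η ^ 5)
    simp only [mul_zero] at h4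
    refine h4.congr fun x => ?_
    simp only [Function.comp_apply, id_eq]
    have e1 : -η * x = -(η * x) := by ring
    rw [e1]
    field_simp
  obtain ⟨L₀, hL₀⟩ := eventually_atTop.1 (t1.eventually (gt_mem_nhds one_pos))
  refine ⟨L₀, fun L hL => ?_⟩
  have h1 := hL₀ L hL
  have e1 : Real.exp (L * (ε - η)) = Real.exp (L * ε) * Real.exp (-η * L) := by
    rw [← Real.exp_add]
    congr 1
    ring
  have h0 := Real.exp_pos (L * ε)
  calc D * L ^ 5 * Real.exp (L * (ε - η))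
      = Real.exp (L * ε) * (D * (L ^ 5 * Real.exp (-η * L))) := by
        rw [e1]
        ring
    _ ≤ Real.exp (L * ε) * 1 := mul_le_mul_of_nonneg_left h1.le h0.le
    _ = _ := mul_one _

/-- **Few exceptional characters.** -/
theorem thinU {M κ δ : ℝ} (hM : 1 ≤ M) (hκ : 0 < κ) (hδ : 0 < δ) :
    ∃ A Z₀ : ℝ, 0 < A ∧ 1 < Z₀ ∧ ∀ (q : ℕ) [NeZero q] (h : ℝ), 1 ≤ h → Z₀ ≤ q * h →
      ∀ b : PP → ℂ, (∀ x, ‖b x‖ ≤ M / (x.2 + 1 : ℕ)) →
      (∀ x : PP, ((x.1 : ℕ) : ℝ) ≤ (Real.log (q * h)) ^ κ → b x = 0) → ∀ a : ℝ,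
      ∃ Bad : Finset (DirichletCharacter ℂ q), (Bad.card : ℝ) ≤ (q * h) ^ (1 / κ + δ) ∧
        ∀ χ ∉ Bad, ∀ s : ℂ, 1 + A / Real.log (q * h) ≤ s.re → s.im ∈ Set.Icc a (a + h) →
          ‖FF (tc b χ) s‖ ≤ δ := by
  classical
  have hM0 : 0 < M := by linarith
  set η : ℝ := δ / 2 with hη
  have hη0 : 0 < η := by positivity
  obtain ⟨L₁, hL₁, hnum⟩ := numer hM hκ hη0
  obtain ⟨L₂, hnum3⟩ := numer3 (ε := 1 / κ + δ) (D := 8320 * M ^ 2) hη0
  obtain ⟨y₀, hy₀⟩ := pp_tail (δ := δ / (4 * M)) (by positivity)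
  have t5 : Tendsto (fun L : ℝ => κ * Real.log L) atTop atTop :=
    Real.tendsto_log_atTop.const_mul_atTop hκ
  obtain ⟨L₃, hL₃⟩ := eventually_atTop.1 (t5.eventually_ge_atTop ((⌈24 / δ⌉₊ + 1 : ℕ) : ℝ))
  obtain ⟨L₄, hL₄⟩ := eventually_atTop.1 ((tendsto_rpow_atTop hκ).eventually_ge_atTop (y₀ : ℝ))
  set L₀ : ℝ := max (max (max L₁ L₂) (max L₃ L₄)) (max 2 (32 * M / δ)) with hL₀
  refine ⟨32 * M / δ, Real.exp L₀, by positivity, ?_, ?_⟩
  · rw [Real.one_lt_exp_iff]
    exact lt_of_lt_of_le (by norm_num) ((le_max_left _ _).trans (le_max_right _ _))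
  intro q _ h hh hZ₀ b hb hby a
  have hq0 : (0 : ℝ) < q := by exact_mod_cast Nat.pos_of_ne_zero (NeZero.ne q)
  set Z : ℝ := q * h with hZdef
  have hZpos : 0 < Z := by positivity
  set L : ℝ := Real.log Z with hLdef
  have hLL : L₀ ≤ L := by
    rw [hLdef, Real.le_log_iff_exp_le hZpos]
    exact hZ₀
  have l1 : L₁ ≤ L := (le_max_left _ _).trans ((le_max_left _ _).trans ((le_max_left _ _).trans hLL))
  have l2 : L₂ ≤ L := (le_max_right _ _).trans ((le_max_left _ _).trans ((le_max_left _ _).trans hLL))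
  have l3 : L₃ ≤ L := (le_max_left _ _).trans ((le_max_right _ _).trans ((le_max_left _ _).trans hLL))
  have l4 : L₄ ≤ L := (le_max_right _ _).trans ((le_max_right _ _).trans ((le_max_left _ _).trans hLL))
  have l5 : 2 ≤ L := (le_max_left _ _).trans ((le_max_right _ _).trans hLL)
  have l6 : 32 * M / δ ≤ L := (le_max_right _ _).trans ((le_max_right _ _).trans hLL)
  have hL0 : 0 < L := by linarith
  set y : ℝ := L ^ κ with hy
  have hyp : 0 < y := Real.rpow_pos_of_pos hL0 κ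
  have hyy : (y₀ : ℝ) ≤ y := hL₄ L l4
  set k₀ := ⌊κ * Real.log L⌋₊ with hk₀
  have hk₀24 : ⌈24 / δ⌉₊ + 1 ≤ k₀ := Nat.le_floor (hL₃ L l3)
  have hk₀1 : 1 ≤ k₀ := by omega
  have hk₀0 : (0 : ℝ) < k₀ := by exact_mod_cast hk₀1
  have hk₀δ : 3 * (2 / (k₀ : ℝ)) ≤ δ / 4 := by
    have h1 : 24 / δ ≤ k₀ := (Nat.le_ceil _).trans (by exact_mod_cast (by omega : ⌈24 / δ⌉₊ ≤ k₀))
    rw [div_le_iff₀ hδ] at h1
    have h2 : 3 * (2 / (k₀ : ℝ)) = 6 / k₀ := by ring
    rw [h2, div_le_div_iff₀ hk₀0 (by norm_num)]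
    nlinarith
  set K := ⌊L⌋₊ with hK
  set X₀ := ⌈Real.exp (K + 1)⌉₊ with hX₀
  set T : ℕ → Finset ℕ := fun k => (PR y X₀).filter (fun p => lg p = k) with hT
  have hPR : ∀ X, ∀ p ∈ PR y X, p.Prime ∧ y < p ∧ p ≤ X := by
    intro X p hp
    rw [PR, mem_filter, mem_Icc] at hp
    exact ⟨hp.2.1, hp.2.2, hp.1.2⟩
  have hTk : ∀ k, ∀ p ∈ T k, p.Prime ∧ lg p = k := by
    intro k p hp
    rw [hT, mem_filter] at hp
    exact ⟨(hPR _ p hp.1).1, hp.2⟩
  have hkey : ∀ X, ∀ p ∈ PR y X, k₀ ≤ lg p := by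
    intro X p hp
    obtain ⟨_, h2, _⟩ := hPR X p hp
    unfold Pool.Agent.W350.Edge.lg
    refine Nat.floor_le_floor ?_
    have h3 : κ * Real.log L = Real.log y := by rw [hy, Real.log_rpow hL0]
    rw [h3]
    exact Real.log_le_log hyp h2.le
  have hTX : ∀ X, X₀ ≤ X → ∀ k, k ≤ K → (PR y X).filter (fun p => lg p = k) = T k := by
    intro X hX k hk
    ext p
    rw [hT]
    simp only [mem_filter, PR, mem_Icc]
    constructor
    · rintro ⟨⟨⟨h1, h2⟩, h3, h4⟩, h5⟩
      refine ⟨⟨⟨h1, ?_⟩, h3, h4⟩, h5⟩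
      have hp0 : (0 : ℝ) < p := by exact_mod_cast h3.pos
      have h6 := lt_lg p
      rw [h5] at h6
      have h7 : (k : ℝ) ≤ K := by exact_mod_cast hk
      have h8 : (p : ℝ) < Real.exp (K + 1) := by
        rw [← Real.log_lt_iff_lt_exp hp0]
        linarith
      have h9 : (p : ℝ) ≤ X₀ := h8.le.trans (Nat.le_ceil _)
      exact_mod_cast h9
    · rintro ⟨⟨⟨h1, h2⟩, h3, h4⟩, h5⟩
      exact ⟨⟨⟨h1, h2.trans hX⟩, h3, h4⟩, h5⟩
  have hcap : ∀ p, ‖ap b p‖ ≤ M := norm_ap hb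
  -- the exceptional characters
  set nn : ℕ → ℕ := fun k => ⌈8 * M * (k : ℝ) ^ 2⌉₊ with hnn
  set B : ℕ → ℕ → Finset (DirichletCharacter ℂ q) := fun k l =>
    (Finset.univ : Finset (DirichletCharacter ℂ q)).filter fun χ =>
      ∃ t ∈ Set.Icc a (a + h), 2 / (k : ℝ) ^ 2 <
        ‖SS q (T k) (cs (ap b) (1 + (l : ℝ) / nn k)) χ t‖ with hB
  refine ⟨(Finset.Icc k₀ K).biUnion fun k => (range (nn k + 1)).biUnion fun l => B k l, ?_, ?_⟩
  · -- the number
    have hBkl : ∀ k ∈ Finset.Icc k₀ K, ∀ l ∈ range (nn k + 1), ((B k l).card : ℝ) ≤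
        8 * M * L ^ 2 * (104 * Real.exp (L * (1 / κ + η))) := by
      intro k hk l _
      rw [mem_Icc] at hk
      have hkL : (k : ℝ) ≤ L := by
        have h2 : (k : ℝ) ≤ K := by exact_mod_cast hk.2
        exact h2.trans (Nat.floor_le hL0.le)
      obtain ⟨hk1, hn⟩ := hnum L l1 k hk.1 hkL
      have hk0 : (0 : ℝ) < k := by exact_mod_cast hk1
      have h2 := count q hk1 (T k) (hTk k) (cs (ap b) (1 + (l : ℝ) / nn k)) hM (fun p hp =>
        norm_cs (hcap p) (le_add_of_nonneg_right (by positivity)) (hTk k p hp).1.one_le) ⌈L / k⌉₊ a hh (by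
          have h3 := Nat.le_ceil (L / k)
          rw [div_le_iff₀ hk0] at h3
          rw [← hZdef]
          linarith)
      refine h2.trans ?_
      refine mul_le_mul ?_ (mul_le_mul_of_nonneg_left hn (by norm_num)) (by positivity) (by positivity)
      gcongr
    have hnnk : ∀ k ∈ Finset.Icc k₀ K, ((nn k + 1 : ℕ) : ℝ) ≤ 10 * M * L ^ 2 := by
      intro k hk
      rw [mem_Icc] at hk
      have hkL : (k : ℝ) ≤ L := by
        have h2 : (k : ℝ) ≤ K := by exact_mod_cast hk.2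
        exact h2.trans (Nat.floor_le hL0.le)
      have h3 : (nn k : ℝ) < 8 * M * (k : ℝ) ^ 2 + 1 := Nat.ceil_lt_add_one (by positivity)
      have h4 : 8 * M * (k : ℝ) ^ 2 ≤ 8 * M * L ^ 2 := by gcongr
      have h5 : 1 ≤ M * L ^ 2 := by
        have : 1 ≤ L ^ 2 := one_le_pow₀ (by linarith)
        nlinarith
      push_cast
      linarith
    have hW0 : 0 ≤ 8 * M * L ^ 2 * (104 * Real.exp (L * (1 / κ + η))) := by positivity
    calc (((Finset.Icc k₀ K).biUnion fun k => (range (nn k + 1)).biUnion fun l => B k l).card : ℝ)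
        ≤ ∑ k ∈ Finset.Icc k₀ K, ∑ l ∈ range (nn k + 1), ((B k l).card : ℝ) := by
          have h1 : ((Finset.Icc k₀ K).biUnion fun k => (range (nn k + 1)).biUnion fun l => B k l).card
              ≤ ∑ k ∈ Finset.Icc k₀ K, ∑ l ∈ range (nn k + 1), (B k l).card :=
            card_biUnion_le.trans (sum_le_sum fun k _ => card_biUnion_le)
          exact_mod_cast h1
      _ ≤ ∑ k ∈ Finset.Icc k₀ K, ∑ l ∈ range (nn k + 1),
          (8 * M * L ^ 2 * (104 * Real.exp (L * (1 / κ + η)))) :=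
          sum_le_sum fun k hk => sum_le_sum fun l hl => hBkl k hk l hl
      _ = ∑ k ∈ Finset.Icc k₀ K, ((nn k + 1 : ℕ) : ℝ) *
          (8 * M * L ^ 2 * (104 * Real.exp (L * (1 / κ + η)))) := by
          refine sum_congr rfl fun k _ => ?_
          rw [sum_const, card_range, nsmul_eq_mul]
      _ ≤ ∑ k ∈ Finset.Icc k₀ K, (10 * M * L ^ 2) *
          (8 * M * L ^ 2 * (104 * Real.exp (L * (1 / κ + η)))) :=
          sum_le_sum fun k hk => mul_le_mul_of_nonneg_right (hnnk k hk) hW0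
      _ = ((Finset.Icc k₀ K).card : ℝ) * ((10 * M * L ^ 2) *
          (8 * M * L ^ 2 * (104 * Real.exp (L * (1 / κ + η))))) := by
          rw [sum_const, nsmul_eq_mul]
      _ ≤ L * ((10 * M * L ^ 2) * (8 * M * L ^ 2 * (104 * Real.exp (L * (1 / κ + η))))) := by
          refine mul_le_mul_of_nonneg_right ?_ (by positivity)
          rw [Nat.card_Icc]
          have h3 : ((K + 1 - k₀ : ℕ) : ℝ) ≤ K := by exact_mod_cast (by omega : K + 1 - k₀ ≤ K)
          exact h3.trans (Nat.floor_le hL0.le)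
      _ = 8320 * M ^ 2 * L ^ 5 * Real.exp (L * (1 / κ + δ - η)) := by
          have e1 : 1 / κ + δ - η = 1 / κ + η := by
            rw [hη]
            ring
          rw [e1]
          ring
      _ ≤ Real.exp (L * (1 / κ + δ)) := hnum3 L l2
      _ = Z ^ (1 / κ + δ) := by rw [Real.rpow_def_of_pos hZpos]
  · -- the good characters
    intro χ hχ s hs hst
    have hgood : ∀ k ∈ Finset.Icc k₀ K, ∀ l ∈ range (nn k + 1), ∀ t ∈ Set.Icc a (a + h),
        ‖SS q (T k) (cs (ap b) (1 + (l : ℝ) / nn k)) χ t‖ ≤ 2 / (k : ℝ) ^ 2 := by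
      intro k hk l hl t ht
      by_contra hc
      refine hχ (mem_biUnion.2 ⟨k, hk, mem_biUnion.2 ⟨l, hl, ?_⟩⟩)
      rw [hB]
      exact mem_filter.2 ⟨mem_univ _, t, ht, not_le.1 hc⟩
    have hA0 : 0 < 32 * M / δ / L := by positivity
    have hs1 : 1 < s.re := by linarith
    have hη' : ∀ U : Finset PP, (∀ x ∈ U, x.2 ≠ 0 ∧ y < (x.1 : ℕ)) →
        ∑ x ∈ U, wt 1 x ≤ δ / (4 * M) := fun U hU => hy₀ U fun x hx => ⟨(hU x hx).1, by
      have := (hU x hx).2
      exact_mod_cast lt_of_le_of_lt hyy this⟩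
    have hMη : M * (δ / (4 * M)) = δ / 4 := by field_simp
    have htend := (TS_tendsto (norm_tc hb χ) hs1).norm
    refine le_of_tendsto htend ?_
    filter_upwards [eventually_ge_atTop X₀] with X hX
    rcases le_total 2 s.re with h2 | h2
    · have h3 := TS_far hb χ hby X hη' h2
      rw [hMη] at h3
      linarith
    · have h3 := TS_sub hb χ hby X hη' hs1.le
      rw [hMη] at h3
      have h4 := SS_split (PR y X) (cs (ap b) s.re) χ k₀ K (hkey X) s.im
      -- the blocks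
      have h5 : ∀ k ∈ Finset.Icc k₀ K,
          ‖SS q ((PR y X).filter fun p => lg p = k) (cs (ap b) s.re) χ s.im‖ ≤ 3 * (1 / (k : ℝ) ^ 2) := by
        intro k hk
        have hk' := mem_Icc.1 hk
        have hk1 : 1 ≤ k := hk₀1.trans hk'.1
        have hk0 : (0 : ℝ) < k := by exact_mod_cast hk1
        rw [hTX X hX k hk'.2]
        have hn0 : 0 < nn k := Nat.ceil_pos.2 (by positivity)
        have hn0' : (0 : ℝ) < nn k := by exact_mod_cast hn0
        set l := ⌊(s.re - 1) * nn k⌋₊ with hl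
        have hx0 : 0 ≤ (s.re - 1) * nn k := mul_nonneg (by linarith) hn0'.le
        have hl1 : (l : ℝ) ≤ (s.re - 1) * nn k := Nat.floor_le hx0
        have hl2 : (s.re - 1) * nn k < l + 1 := Nat.lt_floor_add_one _
        have hln : l ∈ range (nn k + 1) := by
          rw [mem_range]
          have : (l : ℝ) ≤ nn k := by nlinarith
          have : l ≤ nn k := by exact_mod_cast this
          omega
        have h6 := hgood k hk l hln s.im hst
        have h7 := SS_lip2 hk1 (T k) (hTk k) (fun p _ => hcap p) hM0.le χ hs1.le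
          (σ' := 1 + (l : ℝ) / nn k) (le_add_of_nonneg_right (by positivity)) s.im
        have h8 : |s.re - (1 + (l : ℝ) / nn k)| ≤ 1 / nn k := by
          have e1 : s.re - (1 + (l : ℝ) / nn k) = ((s.re - 1) * nn k - l) / nn k := by
            field_simp
            ring
          rw [e1, abs_of_nonneg (div_nonneg (by linarith) hn0'.le)]
          exact div_le_div_of_nonneg_right (by linarith) hn0'.le
        have h9 : 8 * M * (1 / nn k) ≤ 1 / (k : ℝ) ^ 2 := by
          have h10 : 8 * M * (k : ℝ) ^ 2 ≤ nn k := Nat.le_ceil _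
          rw [mul_one_div, div_le_div_iff₀ hn0' (by positivity)]
          linarith
        have h10 : 8 * M * |s.re - (1 + (l : ℝ) / nn k)| ≤ 1 / (k : ℝ) ^ 2 :=
          (mul_le_mul_of_nonneg_left h8 (by positivity)).trans h9
        have h11 := norm_le_insert' (SS q (T k) (cs (ap b) s.re) χ s.im)
          (SS q (T k) (cs (ap b) (1 + (l : ℝ) / nn k)) χ s.im)
        have h12 : 3 * (1 / (k : ℝ) ^ 2) = 2 / (k : ℝ) ^ 2 + 1 / (k : ℝ) ^ 2 := by ring
        rw [h12]
        linarith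
      have h6 : ‖∑ k ∈ Finset.Icc k₀ K,
          SS q ((PR y X).filter fun p => lg p = k) (cs (ap b) s.re) χ s.im‖ ≤ δ / 4 := by
        refine (norm_sum_le _ _).trans ((sum_le_sum h5).trans ?_)
        rw [← mul_sum]
        refine le_trans (mul_le_mul_of_nonneg_left ?_ (by norm_num)) hk₀δ
        exact inv_sq_sum hk₀1 (Finset.Icc k₀ K) fun l hl => (mem_Icc.1 hl).1
      -- the large primes
      have h7 : ‖SS q ((PR y X).filter fun p => K < lg p) (cs (ap b) s.re) χ s.im‖ ≤ δ / 4 := by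
        have h8 := large_right (L := L) (A := 32 * M / δ) (σ := s.re) (by linarith) (by positivity) hs
          ((PR y X).filter fun p => K < lg p) (fun p hp => by
            rw [mem_filter] at hp
            exact ⟨(hPR X p hp.1).1, hp.2⟩)
        have h9 : ‖SS q ((PR y X).filter fun p => K < lg p) (cs (ap b) s.re) χ s.im‖ ≤
            M * ∑ p ∈ (PR y X).filter (fun p => K < lg p), 1 / (p : ℝ) * (p : ℝ) ^ (-(s.re - 1)) := by
          unfold SS
          rw [mul_sum]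
          refine (norm_sum_le _ _).trans (sum_le_sum fun p hp => ?_)
          have hp0 : (0 : ℝ) < p := by
            exact_mod_cast (hPR X p (mem_filter.1 hp).1).1.pos
          rw [norm_mul, norm_e, mul_one, norm_div, norm_mul, Complex.norm_natCast]
          unfold cs
          rw [norm_mul, Complex.norm_real, Real.norm_of_nonneg (by positivity)]
          have h10 := DirichletCharacter.norm_le_one χ (p : ZMod q)
          have h11 := hcap p
          calc ‖χ (p : ZMod q)‖ * (‖ap b p‖ * (p : ℝ) ^ (-(s.re - 1))) / p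
              ≤ 1 * (M * (p : ℝ) ^ (-(s.re - 1))) / p := by gcongr
            _ = _ := by ring
        refine h9.trans ((mul_le_mul_of_nonneg_left h8 hM0.le).trans ?_)
        have h10 : M * (4 / L) ≤ δ / 8 := by
          rw [mul_div_assoc', div_le_iff₀ hL0]
          rw [div_le_iff₀ hδ] at l6
          nlinarith
        have h11 : M * (4 / (32 * M / δ)) = δ / 8 := by
          field_simp
          ring
        rw [mul_add]
        linarith
      have h8 : ‖SS q (PR y X) (cs (ap b) s.re) χ s.im‖ ≤ δ / 4 + δ / 4 := by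
        rw [h4]
        exact (norm_add_le _ _).trans (add_le_add h6 h7)
      have h9 := norm_le_insert' (TS (tc b χ) X s) (SS q (PR y X) (cs (ap b) s.re) χ s.im)
      linarith

end Pool.Agent.U309.LV
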