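import Pool.Agent.U309.LV.R2

/-!
# The L-functions of all twists but few, uniformly to the right of the edge
-/

set_option autoImplicit false

namespace Pool.Agent.U309.LV

open MeasureTheory Finset Filter Topology NumberField IsDedekindDomain
open scoped ComplexConjugate ENNReal
open Pool.Agent.TH339.MP
open Pool.Agent.Y770.SC (nb tw bb_tw norm_nb LT LT_eq chi_one chi_mul)

lemma sum_tr_le {b : PP → ℂ} {m : ℝ} (hb : ∀ x, ‖b x‖ ≤ m / (x.2 + 1 : ℕ)) (y : ℝ) (X : ℕ) :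
    ∑ x ∈ TX X, ‖tr y b x‖ * wt 1 x ≤ m * Real.log (mp y) := by
  set b' : PP → ℂ := fun x => ((‖b x‖ : ℝ) : ℂ) with hb'
  have h1 : ∀ x, ‖b' x‖ ≤ m / (x.2 + 1 : ℕ) := by
    intro x
    rw [hb', Complex.norm_real, norm_norm]
    exact hb x
  have h2 := PS_tr_le h1 y X 0
  have h3 : PS (tr y b') X 0 = ((∑ x ∈ TX X, ‖tr y b x‖ * wt 1 x : ℝ) : ℂ) := by
    unfold PS
    push_cast
    refine sum_congr rfl fun x _ => ?_
    rw [ee_zero, mul_one]
    congr 1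
    unfold tr
    split_ifs
    · rfl
    · simp
  rw [h3, Complex.norm_real, Real.norm_of_nonneg (sum_nonneg fun x _ =>
    mul_nonneg (norm_nonneg _) (wt_nonneg _ _))] at h2
  exact h2

lemma FF_tr_le {b : PP → ℂ} {m : ℝ} (hb : ∀ x, ‖b x‖ ≤ m / (x.2 + 1 : ℕ)) (y : ℝ) {s : ℂ}
    (hs : 1 < s.re) : ‖FF (tr y b) s‖ ≤ m * Real.log (mp y) := by
  refine le_of_tendsto' (TS_tendsto (norm_tr hb y) hs).norm fun X => ?_
  unfold TS
  refine (norm_sum_le _ _).trans (le_trans ?_ (sum_tr_le hb y X))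
  refine sum_le_sum fun x _ => ?_
  rw [norm_tm]
  exact mul_le_mul_of_nonneg_left (wt_anti hs.le x) (norm_nonneg _)

lemma FF_add {b : PP → ℂ} {m : ℝ} (hb : ∀ x, ‖b x‖ ≤ m / (x.2 + 1 : ℕ)) (y : ℝ) {s : ℂ}
    (hs : 1 < s.re) : FF b s = FF (tr y b) s + FF (cu y b) s := by
  unfold FF
  rw [← (summable_tm (norm_tr hb y) hs).tsum_add (summable_tm (norm_cu hb y) hs)]
  refine tsum_congr fun x => ?_
  unfold tm
  rw [← add_mul, ← tr_add_cu]

/-- The abstract form. -/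
theorem thinU2 {M κ δ : ℝ} (hM : 1 ≤ M) (hκ : 0 < κ) (hδ : 0 < δ) :
    ∃ A Z₀ : ℝ, 0 < A ∧ 1 < Z₀ ∧ ∀ (q : ℕ) [NeZero q] (h : ℝ), 1 ≤ h → Z₀ ≤ q * h →
      ∀ m : ℝ, 1 ≤ m → m ≤ M → ∀ b : PP → ℂ, (∀ x, ‖b x‖ ≤ m / (x.2 + 1 : ℕ)) → ∀ a : ℝ,
      ∃ Bad : Finset (DirichletCharacter ℂ q), (Bad.card : ℝ) ≤ (q * h) ^ (1 / κ + δ) ∧
        ∀ χ ∉ Bad, ∀ s : ℂ, 1 + A / Real.log (q * h) ≤ s.re → s.im ∈ Set.Icc a (a + h) →
          ‖Complex.exp (FF (tc b χ) s) /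
            Complex.exp (FF (tc (tr ((Real.log (q * h)) ^ κ) b) χ) s) - 1‖ ≤ δ ∧
          |(FF (tc b χ) s).re| ≤ m * Real.log ((1 + δ) *
            (Real.exp Real.eulerMascheroniConstant * (κ * Real.log (Real.log (q * h))))) := by
  set δ₁ : ℝ := min δ 1 with hδ₁
  have hδ₁0 : 0 < δ₁ := lt_min hδ one_pos
  have hδ₁1 : δ₁ ≤ 1 := min_le_right _ _
  have hδ₁δ : δ₁ ≤ δ := min_le_left _ _
  set δ₂ : ℝ := δ₁ / 4 with hδ₂
  have hδ₂0 : 0 < δ₂ := by positivity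
  obtain ⟨A, Z₁, hA, hZ₁, H⟩ := thinU hM hκ hδ₂0
  obtain ⟨L₀, hL₀⟩ := mp_le (δ := δ₂) hκ hδ₂0
  refine ⟨A, max Z₁ (Real.exp (max L₀ 3)), hA, lt_of_lt_of_le hZ₁ (le_max_left _ _), ?_⟩
  intro q _ h hh hZ m hm hmM b hb a
  have hq0 : (0 : ℝ) < q := by exact_mod_cast Nat.pos_of_ne_zero (NeZero.ne q)
  set Z : ℝ := q * h with hZdef
  have hZpos : 0 < Z := by positivity
  have hZ1 : 1 ≤ Z := (hZ₁.le).trans ((le_max_left _ _).trans hZ)
  set L : ℝ := Real.log Z with hLdef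
  have hLL : max L₀ 3 ≤ L := by
    rw [hLdef, Real.le_log_iff_exp_le hZpos]
    exact (le_max_right _ _).trans hZ
  have l1 : L₀ ≤ L := (le_max_left _ _).trans hLL
  have l2 : 3 ≤ L := (le_max_right _ _).trans hLL
  have hlL : 1 < Real.log L := by
    rw [Real.lt_log_iff_exp_lt (by linarith)]
    have := Real.exp_one_lt_d9
    linarith
  set y : ℝ := L ^ κ with hy
  have hbM : ∀ x, ‖b x‖ ≤ M / (x.2 + 1 : ℕ) := fun x =>
    (hb x).trans (div_le_div_of_nonneg_right hmM (by positivity))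
  obtain ⟨Bad, hBad, H1⟩ := H q h hh ((le_max_left _ _).trans hZ) (cu y b) (norm_cu hbM y)
    (fun x hx => by
      unfold cu
      rw [if_pos hx]) a
  refine ⟨Bad, hBad.trans (Real.rpow_le_rpow_of_exponent_le hZ1 (by linarith)), ?_⟩
  intro χ hχ s hs hst
  have h1 := H1 χ hχ s hs hst
  have hL0 : 0 < L := by linarith
  have hs1 : 1 < s.re := by
    have : 0 < A / L := by positivity
    linarith
  have h2 : FF (tc b χ) s = FF (tc (tr y b) χ) s + FF (tc (cu y b) χ) s := by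
    rw [tc_tr, tc_cu]
    exact FF_add (norm_tc hb χ) y hs1
  refine ⟨?_, ?_⟩
  · rw [← Complex.exp_sub, h2, add_sub_cancel_left]
    refine (Complex.norm_exp_sub_one_le ?_).trans ?_
    · linarith
    · linarith
  · have h3 : |(FF (tc b χ) s).re| ≤ m * Real.log (mp y) + δ₂ := by
      refine (Complex.abs_re_le_norm _).trans ?_
      rw [h2]
      refine (norm_add_le _ _).trans (add_le_add ?_ h1)
      rw [tc_tr]
      exact FF_tr_le (norm_tc hb χ) y hs1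
    refine h3.trans ?_
    have h4 : δ₂ ≤ m * δ₂ := le_mul_of_one_le_left hδ₂0.le hm
    have h5 : m * Real.log (mp y) + δ₂ ≤ m * (Real.log (mp y) + δ₂) := by
      rw [mul_add]
      linarith
    refine h5.trans (mul_le_mul_of_nonneg_left ?_ (by linarith))
    have h6 : Real.log (mp y) + δ₂ = Real.log (mp y * Real.exp δ₂) := by
      rw [Real.log_mul (mp_pos y).ne' (Real.exp_pos _).ne', Real.log_exp]
    rw [h6]
    refine Real.log_le_log (mul_pos (mp_pos y) (Real.exp_pos _)) ?_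
    have h7 := hL₀ L l1
    set W := Real.exp Real.eulerMascheroniConstant * (κ * Real.log L) with hW
    have hW0 : 0 < W := by positivity
    have h8 : Real.exp δ₂ ≤ 1 + 2 * δ₂ := by
      have h9 := Real.exp_bound_div_one_sub_of_interval hδ₂0.le (by linarith : δ₂ < 1)
      refine h9.trans ?_
      rw [div_le_iff₀ (by linarith)]
      nlinarith
    calc mp y * Real.exp δ₂ ≤ ((1 + δ₂) * W) * (1 + 2 * δ₂) :=
          mul_le_mul h7 h8 (Real.exp_pos _).le (by positivity)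
      _ = ((1 + δ₂) * (1 + 2 * δ₂)) * W := by ring
      _ ≤ (1 + δ) * W := by
          refine mul_le_mul_of_nonneg_right ?_ hW0.le
          nlinarith

/-- **All twists but few, uniformly to the right of the edge.** -/
theorem region (M : ℕ) {κ δ : ℝ} (hκ : 0 < κ) (hδ : 0 < δ) : ∃ A Z₀ : ℝ, 0 < A ∧ 1 < Z₀ ∧
    ∀ (K : Type) [Field K] [NumberField K] (N i : ℕ) (_ : 0 < N)
      (_ : N * Module.finrank ℚ K ≤ M) (S : Set (HeightOneSpectrum (𝓞 K)))
      (α : HeightOneSpectrum (𝓞 K) → Fin N → ℂ)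
      (_ : ∀ v, v ∉ S → ∀ j, ‖α v j‖ = (nm v : ℝ) ^ ((i : ℝ) / 2))
      (q : ℕ) [NeZero q] (a H : ℝ), 1 ≤ H → Z₀ ≤ q * H →
      ∃ Bad : Finset (DirichletCharacter ℂ q), (Bad.card : ℝ) ≤ (q * H) ^ (1 / κ + δ) ∧
        ∀ χ ∉ Bad, ∀ s : ℂ, (i : ℝ) / 2 + 1 + A / Real.log (q * H) ≤ s.re →
          s.im ∈ Set.Icc a (a + H) →
          ‖LT χ S α s / LT χ (S ∪ bey K ((Real.log (q * H)) ^ κ)) α s - 1‖ ≤ δ ∧
          (((1 + δ) * (Real.exp Real.eulerMascheroniConstant *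
            (κ * Real.log (Real.log (q * H))))) ^ (N * Module.finrank ℚ K))⁻¹ ≤ ‖LT χ S α s‖ ∧
          ‖LT χ S α s‖ ≤ ((1 + δ) * (Real.exp Real.eulerMascheroniConstant *
            (κ * Real.log (Real.log (q * H))))) ^ (N * Module.finrank ℚ K) := by
  have hM1 : (1 : ℝ) ≤ max (M : ℝ) 1 := le_max_right _ _
  obtain ⟨A, Z₁, hA, hZ₁, H1⟩ := thinU2 hM1 hκ hδ
  refine ⟨A, max Z₁ (Real.exp (Real.exp 1)), hA, lt_of_lt_of_le hZ₁ (le_max_left _ _), ?_⟩
  intro K _ _ N i hN hNM S α hα q _ a H hH hZ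
  have hfr : 0 < Module.finrank ℚ K := Module.finrank_pos
  have hm1 : (1 : ℝ) ≤ (Module.finrank ℚ K : ℝ) * N := by
    have : 1 ≤ Module.finrank ℚ K * N := Nat.mul_pos hfr hN
    exact_mod_cast this
  have hmM : (Module.finrank ℚ K : ℝ) * N ≤ max (M : ℝ) 1 := by
    refine le_trans ?_ (le_max_left _ _)
    rw [mul_comm]
    exact_mod_cast hNM
  obtain ⟨Bad, hBad, H2⟩ := H1 q H hH ((le_max_left _ _).trans hZ) _ hm1 hmM (bb (nb i S α))
    (norm_bb (norm_nb hα)) a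
  refine ⟨Bad, hBad, ?_⟩
  intro χ hχ s hs hst
  have hre : (s - (i : ℂ) / 2).re = s.re - i / 2 := by simp
  have him : (s - (i : ℂ) / 2).im = s.im := by
    have h3 : ((i : ℂ) / 2) = (((i : ℝ) / 2 : ℝ) : ℂ) := by push_cast; rfl
    rw [Complex.sub_im, h3, Complex.ofReal_im, sub_zero]
  obtain ⟨h1, h2⟩ := H2 χ hχ (s - (i : ℂ) / 2) (by rw [hre]; linarith) (by rw [him]; exact hst)
  have hZ2 : Real.exp (Real.exp 1) ≤ q * H := (le_max_right _ _).trans hZ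
  have hZpos : 0 < (q : ℝ) * H := lt_of_lt_of_le (Real.exp_pos _) hZ2
  have hlog : Real.exp 1 ≤ Real.log (q * H) := by
    rw [Real.le_log_iff_exp_le hZpos]
    exact hZ2
  have hloglog : 1 ≤ Real.log (Real.log (q * H)) := by
    rw [Real.le_log_iff_exp_le (lt_of_lt_of_le (Real.exp_pos _) hlog)]
    exact hlog
  have hlog0 : 0 < Real.log (q * H) := lt_of_lt_of_le (Real.exp_pos _) hlog
  have hs1 : (i : ℝ) / 2 + 1 < s.re := by
    have : 0 < A / Real.log (q * H) := by positivity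
    linarith
  set X : ℝ := (1 + δ) * (Real.exp Real.eulerMascheroniConstant *
            (κ * Real.log (Real.log (q * H)))) with hX
  have hX0 : 0 < X := by positivity
  have hpow : X ^ (N * Module.finrank ℚ K) =
      Real.exp ((Module.finrank ℚ K : ℝ) * N * Real.log X) := by
    have h4 : (Module.finrank ℚ K : ℝ) * N * Real.log X =
        ((N * Module.finrank ℚ K : ℕ) : ℝ) * Real.log X := by
      push_cast
      ring
    rw [h4, Real.exp_nat_mul, Real.exp_log hX0]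
  have hα' : ∀ v, v ∉ S ∪ bey K ((Real.log (q * H)) ^ κ) → ∀ j,
      ‖α v j‖ = (nm v : ℝ) ^ ((i : ℝ) / 2) := fun v hv j => hα v (fun h => hv (Or.inl h)) j
  have e1 := LT_exp χ hα hs1
  have e2 := LT_exp χ hα' hs1
  rw [bb_bey] at e2
  rw [e1, e2]
  refine ⟨h1, ?_, ?_⟩
  · rw [Complex.norm_exp, hpow, ← Real.exp_neg, Real.exp_le_exp]
    linarith [(abs_le.1 h2).1]
  · rw [Complex.norm_exp, hpow, Real.exp_le_exp]
    exact (abs_le.1 h2).2

end Pool.Agent.U309.LV
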